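import Mathlib

open MeasureTheory Set Filter Topology

namespace Pool.Agent.N48.Ann

/-- multiplicative energy of an interval -/
def En4 (Y : ℕ) : Finset ((ℕ × ℕ) × (ℕ × ℕ)) :=
  (((Finset.Icc 1 Y) ×ˢ (Finset.Icc 1 Y)) ×ˢ ((Finset.Icc 1 Y) ×ˢ (Finset.Icc 1 Y))).filter
    (fun x => x.1.1 * x.1.2 = x.2.1 * x.2.2)

lemma En4_card (Y : ℕ) : (En4 Y).card ≤ ∑ p ∈ (Finset.Icc 1 Y) ×ˢ (Finset.Icc 1 Y), (Y / max p.1 p.2) ^ 2 := by
  have h : ∑ p ∈ (Finset.Icc 1 Y) ×ˢ (Finset.Icc 1 Y), (Y / max p.1 p.2) ^ 2 =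
      (((Finset.Icc 1 Y) ×ˢ (Finset.Icc 1 Y)).sigma (fun p => (Finset.Icc 1 (Y / max p.1 p.2)) ×ˢ (Finset.Icc 1 (Y / max p.1 p.2)))).card := by
    rw [Finset.card_sigma]
    apply Finset.sum_congr rfl
    intro p _
    rw [Finset.card_product, Nat.card_Icc, Nat.add_sub_cancel, sq]
  rw [h]
  apply Finset.card_le_card_of_injOn (fun x => (⟨(x.1.1 / Nat.gcd x.1.1 x.2.1, x.2.1 / Nat.gcd x.1.1 x.2.1),
    (Nat.gcd x.1.1 x.2.1, x.1.2 / (x.2.1 / Nat.gcd x.1.1 x.2.1))⟩ : Σ _ : ℕ × ℕ, ℕ × ℕ))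
  · rintro ⟨⟨u, v⟩, ⟨s, t⟩⟩ hx
    rw [Finset.mem_coe] at hx
    unfold En4 at hx
    simp only [Finset.mem_filter, Finset.mem_product, Finset.mem_Icc] at hx
    obtain ⟨⟨⟨⟨hu1, hu2⟩, hv1, hv2⟩, ⟨hs1, hs2⟩, ht1, ht2⟩, he⟩ := hx
    obtain ⟨g, i, j, hg0, hco, hi, hj⟩ := Nat.exists_coprime' (m := u) (n := s) (Nat.gcd_pos_of_pos_left _ hu1)
    have hgcd : Nat.gcd u s = g := by rw [hi, hj, Nat.gcd_mul_right, hco, one_mul]
    have e1 : u / g = i := by rw [hi]; exact Nat.mul_div_cancel _ hg0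
    have e2 : s / g = j := by rw [hj]; exact Nat.mul_div_cancel _ hg0
    have hi0 : 0 < i := by
      rcases Nat.eq_zero_or_pos i with h | h
      · rw [h] at hi; omega
      · exact h
    have hj0 : 0 < j := by
      rcases Nat.eq_zero_or_pos j with h | h
      · rw [h] at hj; omega
      · exact h
    have e3 : i * v = j * t := by
      have : g * (i * v) = g * (j * t) := by rw [hi, hj] at he; linarith
      exact Nat.eq_of_mul_eq_mul_left hg0 this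
    have hjv : j ∣ v := by
      have : j ∣ i * v := ⟨t, e3⟩
      exact (Nat.Coprime.symm hco).dvd_of_dvd_mul_left this
    obtain ⟨w, hw⟩ := hjv
    have ht : t = i * w := by
      have : j * t = j * (i * w) := by rw [← e3, hw]; ring
      exact Nat.eq_of_mul_eq_mul_left hj0 this
    have hw0 : 0 < w := by
      rcases Nat.eq_zero_or_pos w with h | h
      · rw [h] at hw; omega
      · exact h
    have e4 : v / j = w := by rw [hw]; exact Nat.mul_div_cancel_left _ hj0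
    simp only [Finset.coe_sigma, Set.mem_sigma_iff, Finset.mem_coe, Finset.mem_product, Finset.mem_Icc, hgcd, e1, e2, e4]
    have hm0 : 0 < max i j := lt_max_of_lt_left hi0
    rw [Nat.le_div_iff_mul_le hm0, Nat.le_div_iff_mul_le hm0]
    refine ⟨⟨⟨hi0, ?_⟩, hj0, ?_⟩, ⟨hg0, ?_⟩, hw0, ?_⟩
    · rw [hi] at hu2; nlinarith
    · rw [hj] at hs2; nlinarith
    · rcases max_choice i j with h | h
      · rw [h]; rw [hi] at hu2; linarith
      · rw [h]; rw [hj] at hs2; linarith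
    · rcases max_choice i j with h | h
      · rw [h]; rw [ht] at ht2; linarith
      · rw [h]; rw [hw] at hv2; linarith
  · rintro ⟨⟨u, v⟩, ⟨s, t⟩⟩ hx ⟨⟨u', v'⟩, ⟨s', t'⟩⟩ hx' h
    rw [Finset.mem_coe] at hx hx'
    unfold En4 at hx hx'
    simp only [Finset.mem_filter, Finset.mem_product, Finset.mem_Icc] at hx hx'
    obtain ⟨⟨⟨⟨hu1, hu2⟩, hv1, hv2⟩, ⟨hs1, hs2⟩, ht1, ht2⟩, he⟩ := hx
    obtain ⟨⟨⟨⟨hu1', hu2'⟩, hv1', hv2'⟩, ⟨hs1', hs2'⟩, ht1', ht2'⟩, he'⟩ := hx'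
    simp only [Sigma.mk.injEq, Prod.mk.injEq, heq_eq_eq] at h
    obtain ⟨⟨h1, h2⟩, h3, h4⟩ := h
    have d1 := Nat.gcd_dvd_left u s
    have d2 := Nat.gcd_dvd_right u s
    have d1' := Nat.gcd_dvd_left u' s'
    have d2' := Nat.gcd_dvd_right u' s'
    have hg0 : 0 < Nat.gcd u s := Nat.gcd_pos_of_pos_left _ hu1
    have f1 := Nat.div_mul_cancel d1
    have f2 := Nat.div_mul_cancel d2
    have f1' := Nat.div_mul_cancel d1'
    have f2' := Nat.div_mul_cancel d2'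
    have hu : u = u' := by rw [← f1, ← f1', h1, h3]
    have hs : s = s' := by rw [← f2, ← f2', h2, h3]
    -- v
    have hdv : ∀ u v s t : ℕ, 1 ≤ u → 1 ≤ s → u * v = s * t → (s / Nat.gcd u s) ∣ v := by
      intro u v s t hu hs he
      have hg : 0 < Nat.gcd u s := Nat.gcd_pos_of_pos_left _ hu
      have hco : Nat.Coprime (u / Nat.gcd u s) (s / Nat.gcd u s) := Nat.coprime_div_gcd_div_gcd hg
      have k1 := Nat.div_mul_cancel (Nat.gcd_dvd_left u s)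
      have k2 := Nat.div_mul_cancel (Nat.gcd_dvd_right u s)
      have : (s / Nat.gcd u s) ∣ (u / Nat.gcd u s) * v := by
        refine ⟨t, ?_⟩
        have : Nat.gcd u s * ((u / Nat.gcd u s) * v) = Nat.gcd u s * ((s / Nat.gcd u s) * t) := by
          calc _ = (u / Nat.gcd u s * Nat.gcd u s) * v := by ring
            _ = (s / Nat.gcd u s * Nat.gcd u s) * t := by rw [k1, k2, he]
            _ = _ := by ring
        exact Nat.eq_of_mul_eq_mul_left hg this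
      exact hco.symm.dvd_of_dvd_mul_left this
    have p1 := Nat.div_mul_cancel (hdv u v s t hu1 hs1 he)
    have p2 := Nat.div_mul_cancel (hdv u' v' s' t' hu1' hs1' he')
    have hv : v = v' := by
      rw [← p1, ← p2, h4, h2]
    subst hu hs hv
    have ht : t = t' := by
      have : s * t = s * t' := by rw [← he, ← he']
      exact Nat.eq_of_mul_eq_mul_left (by omega) this
    rw [ht]

lemma sum_max (Y : ℕ) : ∑ p ∈ (Finset.Icc 1 Y) ×ˢ (Finset.Icc 1 Y), (1:ℝ) / ((max p.1 p.2 : ℕ) : ℝ) ^ 2 ≤ 2 * (harmonic Y : ℝ) := by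
  have h1 : ∀ i ∈ Finset.Icc 1 Y, ∑ j ∈ Finset.Icc 1 i, (1:ℝ) / (i:ℝ) ^ 2 = 1 / (i:ℝ) := by
    intro i hi
    rw [Finset.mem_Icc] at hi
    have : (0:ℝ) < i := by exact_mod_cast hi.1
    rw [Finset.sum_const, Nat.card_Icc, Nat.add_sub_cancel, nsmul_eq_mul]
    field_simp
  have h2 : (harmonic Y : ℝ) = ∑ i ∈ Finset.Icc 1 Y, ∑ j ∈ Finset.Icc 1 i, (1:ℝ) / (i:ℝ) ^ 2 := by
    rw [Finset.sum_congr rfl h1, harmonic_eq_sum_Icc]
    push_cast
    apply Finset.sum_congr rfl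
    intro i _
    rw [one_div]
  -- split
  have h3 : ∑ p ∈ (Finset.Icc 1 Y) ×ˢ (Finset.Icc 1 Y), (1:ℝ) / ((max p.1 p.2 : ℕ) : ℝ) ^ 2 ≤
      ∑ p ∈ (Finset.Icc 1 Y) ×ˢ (Finset.Icc 1 Y), ((if p.2 ≤ p.1 then (1:ℝ) / (p.1:ℝ) ^ 2 else 0) + (if p.1 ≤ p.2 then (1:ℝ) / (p.2:ℝ) ^ 2 else 0)) := by
    apply Finset.sum_le_sum
    intro p _
    rcases le_total p.1 p.2 with h | h
    · rw [max_eq_right h, if_pos h]
      have : 0 ≤ (if p.2 ≤ p.1 then (1:ℝ) / (p.1:ℝ) ^ 2 else 0) := by split_ifs <;> positivity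
      linarith
    · rw [max_eq_left h, if_pos h]
      have : 0 ≤ (if p.1 ≤ p.2 then (1:ℝ) / (p.2:ℝ) ^ 2 else 0) := by split_ifs <;> positivity
      linarith
  have h4 : ∑ p ∈ (Finset.Icc 1 Y) ×ˢ (Finset.Icc 1 Y), (if p.2 ≤ p.1 then (1:ℝ) / (p.1:ℝ) ^ 2 else 0) = (harmonic Y : ℝ) := by
    rw [Finset.sum_product, h2]
    apply Finset.sum_congr rfl
    intro i hi
    rw [← Finset.sum_filter]
    apply Finset.sum_congr _ (fun _ _ => rfl)
    rw [Finset.mem_Icc] at hi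
    ext j
    simp only [Finset.mem_filter, Finset.mem_Icc]
    omega
  have h5 : ∑ p ∈ (Finset.Icc 1 Y) ×ˢ (Finset.Icc 1 Y), (if p.1 ≤ p.2 then (1:ℝ) / (p.2:ℝ) ^ 2 else 0) = (harmonic Y : ℝ) := by
    rw [Finset.sum_product_right, h2]
    apply Finset.sum_congr rfl
    intro i hi
    rw [← Finset.sum_filter]
    apply Finset.sum_congr _ (fun _ _ => rfl)
    rw [Finset.mem_Icc] at hi
    ext j
    simp only [Finset.mem_filter, Finset.mem_Icc]
    omega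
  rw [Finset.sum_add_distrib, h4, h5] at h3
  linarith

lemma En4_le {Y : ℕ} : ((En4 Y).card : ℝ) ≤ 2 * (Y:ℝ) ^ 2 * (1 + Real.log Y) := by
  have h1 : ((En4 Y).card : ℝ) ≤ ∑ p ∈ (Finset.Icc 1 Y) ×ˢ (Finset.Icc 1 Y), (((Y / max p.1 p.2 : ℕ) : ℝ)) ^ 2 := by
    exact_mod_cast En4_card Y
  calc ((En4 Y).card : ℝ) ≤ ∑ p ∈ (Finset.Icc 1 Y) ×ˢ (Finset.Icc 1 Y), (((Y / max p.1 p.2 : ℕ) : ℝ)) ^ 2 := h1
    _ ≤ ∑ p ∈ (Finset.Icc 1 Y) ×ˢ (Finset.Icc 1 Y), (Y:ℝ) ^ 2 * ((1:ℝ) / ((max p.1 p.2 : ℕ) : ℝ) ^ 2) := by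
        apply Finset.sum_le_sum
        intro p _
        have : ((Y / max p.1 p.2 : ℕ) : ℝ) ≤ (Y:ℝ) / ((max p.1 p.2 : ℕ) : ℝ) := Nat.cast_div_le
        calc (((Y / max p.1 p.2 : ℕ) : ℝ)) ^ 2 ≤ ((Y:ℝ) / ((max p.1 p.2 : ℕ) : ℝ)) ^ 2 := by gcongr
          _ = _ := by rw [div_pow]; ring
    _ = (Y:ℝ) ^ 2 * ∑ p ∈ (Finset.Icc 1 Y) ×ˢ (Finset.Icc 1 Y), ((1:ℝ) / ((max p.1 p.2 : ℕ) : ℝ) ^ 2) := by rw [Finset.mul_sum]
    _ ≤ (Y:ℝ) ^ 2 * (2 * (1 + Real.log Y)) := by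
        apply mul_le_mul_of_nonneg_left _ (by positivity)
        have h2 := sum_max Y
        have h3 : (harmonic Y : ℝ) ≤ 1 + Real.log Y := harmonic_le_one_add_log Y
        linarith
    _ = _ := by ring

/-- additive coincidences of squares -/
def Q4 (R : ℕ) : Finset ((ℕ × ℕ) × (ℕ × ℕ)) :=
  (((Finset.range (R+1)) ×ˢ (Finset.range (R+1))) ×ˢ ((Finset.range (R+1)) ×ˢ (Finset.range (R+1)))).filter
    (fun x => x.1.1 ^ 2 + x.1.2 ^ 2 = x.2.1 ^ 2 + x.2.2 ^ 2)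

lemma Q4_eq (R : ℕ) : ((Q4 R).filter (fun x => x.1.1 = x.2.1)).card ≤ (R+1) ^ 2 := by
  have : (R+1) ^ 2 = ((Finset.range (R+1)) ×ˢ (Finset.range (R+1))).card := by
    rw [Finset.card_product, Finset.card_range, sq]
  rw [this]
  apply Finset.card_le_card_of_injOn (fun x => x.1)
  · intro x hx
    rw [Finset.mem_coe, Finset.mem_filter] at hx
    unfold Q4 at hx
    rw [Finset.mem_filter, Finset.mem_product] at hx
    exact hx.1.1.1
  · intro x hx y hy h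
    rw [Finset.mem_coe, Finset.mem_filter] at hx hy
    unfold Q4 at hx hy
    rw [Finset.mem_filter] at hx hy
    have e1 := hx.1.2
    have e2 := hy.1.2
    have e3 := hx.2
    have e4 := hy.2
    have h' : x.1 = y.1 := h
    refine Prod.ext h' ?_
    have a1 : x.2.1 = y.2.1 := by rw [← e3, ← e4, h']
    have a2 : x.2.2 ^ 2 = y.2.2 ^ 2 := by
      rw [h'] at e1
      rw [a1] at e1
      omega
    exact Prod.ext a1 (Nat.pow_left_injective (n := 2) (by norm_num) a2)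

lemma Q4_gt (R : ℕ) : ((Q4 R).filter (fun x => x.2.1 < x.1.1)).card ≤ (En4 (2 * R)).card := by
  apply Finset.card_le_card_of_injOn (fun x => ((x.1.1 - x.2.1, x.1.1 + x.2.1), (x.2.2 - x.1.2, x.2.2 + x.1.2)))
  · rintro ⟨⟨a, b⟩, ⟨c, d⟩⟩ hx
    rw [Finset.mem_coe, Finset.mem_filter] at hx
    unfold Q4 at hx
    simp only [Finset.mem_filter, Finset.mem_product, Finset.mem_range] at hx
    obtain ⟨⟨⟨⟨h1, h2⟩, h3, h4⟩, h5⟩, h6⟩ := hx
    have h7 : b < d := by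
      by_contra hc
      push Not at hc
      have : d ^ 2 ≤ b ^ 2 := Nat.pow_le_pow_left hc 2
      have : c ^ 2 < a ^ 2 := Nat.pow_lt_pow_left h6 (by norm_num)
      omega
    rw [Finset.mem_coe]
    unfold En4
    simp only [Finset.mem_filter, Finset.mem_product, Finset.mem_Icc]
    refine ⟨⟨⟨⟨by omega, by omega⟩, by omega, by omega⟩, ⟨by omega, by omega⟩, by omega, by omega⟩, ?_⟩
    zify [h6.le, h7.le]
    have : (a:ℤ) ^ 2 + b ^ 2 = c ^ 2 + d ^ 2 := by exact_mod_cast h5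
    linarith
  · rintro ⟨⟨a, b⟩, ⟨c, d⟩⟩ hx ⟨⟨a', b'⟩, ⟨c', d'⟩⟩ hx' h
    rw [Finset.mem_coe, Finset.mem_filter] at hx hx'
    unfold Q4 at hx hx'
    simp only [Finset.mem_filter, Finset.mem_product, Finset.mem_range] at hx hx'
    obtain ⟨⟨⟨⟨h1, h2⟩, h3, h4⟩, h5⟩, h6⟩ := hx
    obtain ⟨⟨⟨⟨h1', h2'⟩, h3', h4'⟩, h5'⟩, h6'⟩ := hx'
    have h7 : b < d := by
      by_contra hc
      push Not at hc
      have : d ^ 2 ≤ b ^ 2 := Nat.pow_le_pow_left hc 2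
      have : c ^ 2 < a ^ 2 := Nat.pow_lt_pow_left h6 (by norm_num)
      omega
    have h7' : b' < d' := by
      by_contra hc
      push Not at hc
      have : d' ^ 2 ≤ b' ^ 2 := Nat.pow_le_pow_left hc 2
      have : c' ^ 2 < a' ^ 2 := Nat.pow_lt_pow_left h6' (by norm_num)
      omega
    simp only [Prod.mk.injEq] at h ⊢
    omega

lemma Q4_lt (R : ℕ) : ((Q4 R).filter (fun x => x.1.1 < x.2.1)).card = ((Q4 R).filter (fun x => x.2.1 < x.1.1)).card := by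
  apply Finset.card_bij (fun x _ => (x.2, x.1))
  · intro x hx
    rw [Finset.mem_filter] at hx ⊢
    unfold Q4 at hx ⊢
    rw [Finset.mem_filter, Finset.mem_product] at hx ⊢
    exact ⟨⟨⟨hx.1.1.2, hx.1.1.1⟩, hx.1.2.symm⟩, hx.2⟩
  · intro x _ y _ h
    simp only [Prod.mk.injEq] at h
    exact Prod.ext h.2 h.1
  · intro x hx
    refine ⟨(x.2, x.1), ?_, rfl⟩
    rw [Finset.mem_filter] at hx ⊢
    unfold Q4 at hx ⊢
    rw [Finset.mem_filter, Finset.mem_product] at hx ⊢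
    exact ⟨⟨⟨hx.1.1.2, hx.1.1.1⟩, hx.1.2.symm⟩, hx.2⟩

lemma Q4_card (R : ℕ) : (Q4 R).card ≤ (R+1) ^ 2 + 2 * (En4 (2 * R)).card := by
  have h0 : Q4 R = ((Q4 R).filter (fun x => x.1.1 = x.2.1)) ∪ (((Q4 R).filter (fun x => x.2.1 < x.1.1)) ∪ ((Q4 R).filter (fun x => x.1.1 < x.2.1))) := by
    ext x
    simp only [Finset.mem_union, Finset.mem_filter]
    constructor
    · intro h
      rcases lt_trichotomy x.1.1 x.2.1 with h' | h' | h'
      · exact Or.inr (Or.inr ⟨h, h'⟩)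
      · exact Or.inl ⟨h, h'⟩
      · exact Or.inr (Or.inl ⟨h, h'⟩)
    · tauto
  rw [h0]
  refine (Finset.card_union_le _ _).trans ?_
  refine (add_le_add_right (Finset.card_union_le _ _) _).trans ?_
  have h1 := Q4_eq R
  have h2 := Q4_gt R
  have h3 := Q4_lt R
  omega

end Pool.Agent.N48.Ann
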