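import Mathlib
import Pool.Agent.N48.Ann.NT5

open MeasureTheory Set Filter Topology

namespace Pool.Agent.N48.Ann

/-- representations in the closed quadrant -/
def SN (m : ℕ) : Finset (ℕ × ℕ) := ((Finset.range (m+1)) ×ˢ (Finset.range (m+1))).filter (fun p => p.1 ^ 2 + p.2 ^ 2 = m)

lemma mem_SN {m : ℕ} {p : ℕ × ℕ} : p ∈ SN m ↔ p.1 ^ 2 + p.2 ^ 2 = m := by
  unfold SN
  rw [Finset.mem_filter, Finset.mem_product, Finset.mem_range, Finset.mem_range]
  constructor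
  · exact fun h => h.2
  · intro h
    have a1 : p.1 ≤ p.1 ^ 2 := Nat.le_self_pow (by norm_num) _
    have a2 : p.2 ≤ p.2 ^ 2 := Nat.le_self_pow (by norm_num) _
    exact ⟨⟨by omega, by omega⟩, h⟩

/-- all representations -/
noncomputable def ZN (m : ℕ) : Finset (ℤ × ℤ) := ((Finset.Icc (-(m:ℤ)) m) ×ˢ (Finset.Icc (-(m:ℤ)) m)).filter
  (fun p => p.1 ^ 2 + p.2 ^ 2 = (m:ℤ))

lemma mem_ZN {m : ℕ} {p : ℤ × ℤ} : p ∈ ZN m ↔ p.1 ^ 2 + p.2 ^ 2 = (m:ℤ) := by
  unfold ZN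
  rw [Finset.mem_filter, Finset.mem_product, Finset.mem_Icc, Finset.mem_Icc]
  constructor
  · exact fun h => h.2
  · intro h
    have h1 : |p.1| ≤ m := by
      have := Int.natAbs_le_self_sq p.1
      rw [← Int.natCast_natAbs]
      nlinarith [sq_nonneg p.2]
    have h2 : |p.2| ≤ m := by
      have := Int.natAbs_le_self_sq p.2
      rw [← Int.natCast_natAbs]
      nlinarith [sq_nonneg p.1]
    exact ⟨⟨abs_le.mp h1, abs_le.mp h2⟩, h⟩

lemma ZN_card (m : ℕ) : (ZN m).card ≤ 4 * (SN m).card := by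
  have h : 4 * (SN m).card = ((SN m) ×ˢ (Finset.univ : Finset (Bool × Bool))).card := by
    rw [Finset.card_product, mul_comm]; rfl
  rw [h]
  apply Finset.card_le_card_of_injOn (fun p => ((p.1.natAbs, p.2.natAbs), (decide (p.1 < 0), decide (p.2 < 0))))
  · intro p hp
    rw [Finset.mem_coe, mem_ZN] at hp
    rw [Finset.mem_coe, Finset.mem_product, mem_SN]
    refine ⟨?_, Finset.mem_univ _⟩
    simp only
    have : ((p.1.natAbs ^ 2 + p.2.natAbs ^ 2 : ℕ) : ℤ) = (m:ℤ) := by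
      push_cast
      rw [sq_abs, sq_abs]; exact hp
    exact_mod_cast this
  · intro p _ q _ h
    simp only [Prod.mk.injEq, decide_eq_decide] at h
    obtain ⟨⟨h1, h2⟩, h3, h4⟩ := h
    apply Prod.ext <;> omega

lemma sum_SN (X : ℕ) : ∑ m ∈ Finset.Icc 1 X, (SN m).card ^ 2 ≤ (Q4 (Nat.sqrt X)).card := by
  have h : ∑ m ∈ Finset.Icc 1 X, (SN m).card ^ 2 = ((Finset.Icc 1 X).sigma (fun m => SN m ×ˢ SN m)).card := by
    rw [Finset.card_sigma]
    apply Finset.sum_congr rfl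
    intro m _
    rw [Finset.card_product, sq]
  rw [h]
  apply Finset.card_le_card_of_injOn (fun x => x.2)
  · rintro ⟨m, p, q⟩ hx
    rw [Finset.mem_coe, Finset.mem_sigma, Finset.mem_Icc, Finset.mem_product, mem_SN, mem_SN] at hx
    simp only at hx
    obtain ⟨⟨h1, h2⟩, h3, h4⟩ := hx
    rw [Finset.mem_coe]
    unfold Q4
    have key : ∀ a b : ℕ, a ^ 2 + b ^ 2 = m → a < Nat.sqrt X + 1 ∧ b < Nat.sqrt X + 1 := by
      intro a b hab
      have b1 : a ≤ Nat.sqrt X := by rw [Nat.le_sqrt']; omega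
      have b2 : b ≤ Nat.sqrt X := by rw [Nat.le_sqrt']; omega
      omega
    rw [Finset.mem_filter, Finset.mem_product, Finset.mem_product, Finset.mem_product]
    simp only [Finset.mem_range]
    exact ⟨⟨key _ _ h3, key _ _ h4⟩, by rw [h3, h4]⟩
  · rintro ⟨m, p, q⟩ hx ⟨m', p', q'⟩ hx' h
    rw [Finset.mem_coe, Finset.mem_sigma, Finset.mem_Icc, Finset.mem_product, mem_SN, mem_SN] at hx hx'
    simp only [Prod.mk.injEq] at h hx hx'
    obtain ⟨rfl, rfl⟩ := h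
    have : m = m' := by rw [← hx.2.1, ← hx'.2.1]
    subst this
    rfl

theorem sum_r_sq (X : ℕ) (hX : 1 ≤ X) : ∑ m ∈ Finset.Icc 1 X, ((ZN m).card : ℝ) ^ 2 ≤ 1000 * X * (1 + Real.log X) := by
  have hX1 : (1:ℝ) ≤ X := by exact_mod_cast hX
  have hlog : 0 ≤ Real.log X := Real.log_nonneg hX1
  set R := Nat.sqrt X with hR
  have hR1 : 1 ≤ R := by rw [hR, Nat.le_sqrt']; omega
  have hR1' : (1:ℝ) ≤ R := by exact_mod_cast hR1
  have hRX : (R:ℝ) ^ 2 ≤ X := by exact_mod_cast Nat.sqrt_le' X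
  have h1 : ∑ m ∈ Finset.Icc 1 X, ((ZN m).card : ℝ) ^ 2 ≤ 16 * ((Q4 R).card : ℝ) := by
    calc ∑ m ∈ Finset.Icc 1 X, ((ZN m).card : ℝ) ^ 2 ≤ ∑ m ∈ Finset.Icc 1 X, 16 * ((SN m).card : ℝ) ^ 2 := by
          apply Finset.sum_le_sum
          intro m _
          have : ((ZN m).card : ℝ) ≤ 4 * ((SN m).card : ℝ) := by exact_mod_cast ZN_card m
          have h0 : (0:ℝ) ≤ ((ZN m).card : ℝ) := Nat.cast_nonneg _
          nlinarith
      _ = 16 * ((∑ m ∈ Finset.Icc 1 X, (SN m).card ^ 2 : ℕ) : ℝ) := by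
          rw [← Finset.mul_sum]; push_cast; rfl
      _ ≤ _ := by
          have : ((∑ m ∈ Finset.Icc 1 X, (SN m).card ^ 2 : ℕ) : ℝ) ≤ ((Q4 R).card : ℝ) := by exact_mod_cast sum_SN X
          linarith
  have h2 : ((Q4 R).card : ℝ) ≤ (R + 1) ^ 2 + 2 * ((En4 (2 * R)).card : ℝ) := by exact_mod_cast Q4_card R
  have h3 := En4_le (Y := 2 * R)
  push_cast at h3
  have h4 : Real.log (2 * (R:ℝ)) ≤ 1 + Real.log X := by
    rw [Real.log_mul (by norm_num) (by positivity)]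
    have a1 : Real.log 2 < 1 := by have := Real.log_two_lt_d9; linarith
    have a2 : Real.log R ≤ Real.log X := Real.log_le_log (by positivity) (by nlinarith)
    linarith
  have h5 : 2 * (2 * (R:ℝ)) ^ 2 * (1 + Real.log (2 * (R:ℝ))) ≤ 8 * X * (2 + Real.log X) := by
    have : 2 * (2 * (R:ℝ)) ^ 2 = 8 * (R:ℝ) ^ 2 := by ring
    rw [this]
    have h6 : 0 ≤ Real.log (2 * (R:ℝ)) := Real.log_nonneg (by linarith)
    apply mul_le_mul (by linarith) (by linarith) (by linarith) (by positivity)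
  have h6 : ((R:ℝ) + 1) ^ 2 ≤ 4 * X := by nlinarith
  have h7 : 0 ≤ (X:ℝ) * Real.log X := by positivity
  nlinarith

/-- comparison -/
lemma log_sum (X : ℕ) (hX : 1 ≤ X) : (X:ℝ) * (1 + Real.log X) ≤ 2 * ∑ m ∈ Finset.Icc 1 X, (1 + Real.log m) := by
  have h : ∀ n : ℕ, 1 ≤ n → (n:ℝ) * Real.log n ≤ ∑ m ∈ Finset.Icc 1 n, (1 + Real.log m) := by
    intro n hn
    induction n, hn using Nat.le_induction with
    | base => simp
    | succ n hn ih =>
      rw [Finset.sum_Icc_succ_top (by omega)]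
      have hn0 : (0:ℝ) < n := by exact_mod_cast hn
      have h1 : Real.log ((n+1:ℕ):ℝ) ≤ Real.log n + 1 / n := by
        have e : ((n+1:ℕ):ℝ) = n * (1 + 1 / n) := by push_cast; field_simp
        rw [e, Real.log_mul hn0.ne' (by positivity)]
        have := Real.log_le_sub_one_of_pos (show (0:ℝ) < 1 + 1 / n by positivity)
        linarith
      have h2 : (n:ℝ) * Real.log ((n+1:ℕ):ℝ) ≤ n * Real.log n + 1 := by
        calc _ ≤ (n:ℝ) * (Real.log n + 1 / n) := mul_le_mul_of_nonneg_left h1 hn0.le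
          _ = _ := by field_simp
      have e : ((n+1:ℕ):ℝ) * Real.log ((n+1:ℕ):ℝ) = n * Real.log ((n+1:ℕ):ℝ) + Real.log ((n+1:ℕ):ℝ) := by push_cast; ring
      rw [e]
      linarith
  have h1 := h X hX
  have h2 : (X:ℝ) ≤ ∑ m ∈ Finset.Icc 1 X, (1 + Real.log m) := by
    calc (X:ℝ) = ∑ m ∈ Finset.Icc 1 X, (1:ℝ) := by simp
      _ ≤ _ := by
        apply Finset.sum_le_sum
        intro m hm
        rw [Finset.mem_Icc] at hm
        have : 0 ≤ Real.log m := Real.log_nonneg (by exact_mod_cast hm.1)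
        linarith
  linarith

/-- Abel comparison: nonincreasing weights -/
lemma abel_cmp {u v f : ℕ → ℝ} (hf0 : ∀ m, 1 ≤ m → 0 ≤ f m) (hf : ∀ m, 1 ≤ m → f (m+1) ≤ f m)
    (h : ∀ X, 1 ≤ X → ∑ m ∈ Finset.Icc 1 X, u m ≤ ∑ m ∈ Finset.Icc 1 X, v m) (N : ℕ) :
    ∑ m ∈ Finset.Icc 1 N, u m * f m ≤ ∑ m ∈ Finset.Icc 1 N, v m * f m := by
  -- stronger statement
  have key : ∀ N : ℕ, 1 ≤ N → (∑ m ∈ Finset.Icc 1 N, (v m - u m)) * f N ≤ ∑ m ∈ Finset.Icc 1 N, (v m - u m) * f m := by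
    intro N hN
    induction N, hN using Nat.le_induction with
    | base => simp
    | succ n hn ih =>
      rw [Finset.sum_Icc_succ_top (by omega), Finset.sum_Icc_succ_top (by omega)]
      have h0 : 0 ≤ ∑ m ∈ Finset.Icc 1 n, (v m - u m) := by
        rw [Finset.sum_sub_distrib]; linarith [h n hn]
      have h1 := mul_le_mul_of_nonneg_left (hf n hn) h0
      rw [add_mul]
      linarith
  rcases Nat.eq_zero_or_pos N with rfl | hN
  · simp
  · have h1 := key N hN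
    have h0 : 0 ≤ ∑ m ∈ Finset.Icc 1 N, (v m - u m) := by
      rw [Finset.sum_sub_distrib]; linarith [h N hN]
    have h2 : 0 ≤ (∑ m ∈ Finset.Icc 1 N, (v m - u m)) * f N := mul_nonneg h0 (hf0 N hN)
    have h3 : ∑ m ∈ Finset.Icc 1 N, (v m - u m) * f m = ∑ m ∈ Finset.Icc 1 N, v m * f m - ∑ m ∈ Finset.Icc 1 N, u m * f m := by
      rw [← Finset.sum_sub_distrib]
      apply Finset.sum_congr rfl
      intro m _; ring
    linarith

/-- domination with partial sums `C X (1 + log X)` -/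
lemma dom {u f : ℕ → ℝ} {C : ℝ} (hC : 0 ≤ C) (hf0 : ∀ m, 1 ≤ m → 0 ≤ f m) (hf : ∀ m, 1 ≤ m → f (m+1) ≤ f m)
    (h : ∀ X : ℕ, 1 ≤ X → ∑ m ∈ Finset.Icc 1 X, u m ≤ C * (X * (1 + Real.log X))) (N : ℕ) :
    ∑ m ∈ Finset.Icc 1 N, u m * f m ≤ 2 * C * ∑ m ∈ Finset.Icc 1 N, (1 + Real.log m) * f m := by
  have h1 := abel_cmp (u := u) (v := fun m => 2 * C * (1 + Real.log m)) hf0 hf (by
    intro X hX
    rw [← Finset.mul_sum]
    have := mul_le_mul_of_nonneg_left (log_sum X hX) hC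
    have h2 := h X hX
    linarith) N
  refine h1.trans (le_of_eq ?_)
  rw [Finset.mul_sum]
  apply Finset.sum_congr rfl
  intro m _; ring

end Pool.Agent.N48.Ann
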