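import Mathlib
import Pool.Agent.N48.Ann.NT6

open MeasureTheory Set Filter Topology

namespace Pool.Agent.N48.Ann

lemma tail_rpow {s : ℝ} (hs : 1 < s) {n : ℕ} (hn : 1 ≤ n) (N : ℕ) :
    ∑ m ∈ Finset.Ioc n N, (m:ℝ) ^ (-s) ≤ (n:ℝ) ^ (1 - s) / (s - 1) := by
  have hs1 : 0 < s - 1 := by linarith
  have hstep : ∀ m : ℕ, 1 ≤ m → (((m+1 : ℕ):ℝ)) ^ (-s) ≤ ((m:ℝ) ^ (1 - s) - (((m+1 : ℕ):ℝ)) ^ (1 - s)) / (s - 1) := by
    intro m hm
    have hm0 : (0:ℝ) < m := by exact_mod_cast hm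
    set x : ℝ := ((m+1 : ℕ):ℝ) with hx
    have hx' : x = m + 1 := by rw [hx]; push_cast; ring
    have hx0 : 0 < x := by rw [hx']; positivity
    have e1 : (m:ℝ) = x * (1 - 1 / x) := by rw [hx']; field_simp; ring
    have h1 : 0 < 1 - 1 / x := by
      rw [sub_pos, div_lt_one hx0, hx']; linarith
    have h2 : 1 + (s - 1) / x ≤ (1 - 1 / x) ^ (1 - s) := by
      have h3 : (1 - 1 / x) ^ (1 - s) = Real.exp (Real.log (1 - 1 / x) * (1 - s)) := Real.rpow_def_of_pos h1 _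
      rw [h3]
      have h4 : Real.log (1 - 1 / x) ≤ -(1 / x) := by
        have := Real.log_le_sub_one_of_pos h1; linarith
      have h5 : (s - 1) / x ≤ Real.log (1 - 1 / x) * (1 - s) := by
        have : Real.log (1 - 1 / x) * (1 - s) = (-Real.log (1 - 1 / x)) * (s - 1) := by ring
        rw [this]
        calc (s - 1) / x = (1 / x) * (s - 1) := by ring
          _ ≤ _ := mul_le_mul_of_nonneg_right (by linarith) hs1.le
      have := Real.add_one_le_exp (Real.log (1 - 1 / x) * (1 - s))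
      linarith
    rw [le_div_iff₀ hs1, e1, Real.mul_rpow hx0.le h1.le]
    have h6 : x ^ (1 - s) * (1 + (s - 1) / x) ≤ x ^ (1 - s) * (1 - 1 / x) ^ (1 - s) :=
      mul_le_mul_of_nonneg_left h2 (by positivity)
    have h7 : x ^ (-s) = x ^ (1 - s) / x := by
      rw [← Real.rpow_sub_one hx0.ne']; congr 1; ring
    rw [h7]
    have : x ^ (1 - s) * (1 + (s - 1) / x) = x ^ (1 - s) + x ^ (1 - s) / x * (s - 1) := by ring
    linarith
  rcases Nat.lt_or_ge N n with h | h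
  · rw [Finset.Ioc_eq_empty (by omega), Finset.sum_empty]; positivity
  have key : ∑ m ∈ Finset.Ioc n N, (m:ℝ) ^ (-s) ≤ ((n:ℝ) ^ (1 - s) - (N:ℝ) ^ (1 - s)) / (s - 1) := by
    induction N, h using Nat.le_induction with
    | base => simp
    | succ N hN ih =>
      rw [Finset.sum_Ioc_succ_top hN]
      have h1 := hstep N (by omega)
      have e : ((n:ℝ) ^ (1 - s) - ((N+1 : ℕ):ℝ) ^ (1 - s)) / (s - 1) = ((n:ℝ) ^ (1 - s) - (N:ℝ) ^ (1 - s)) / (s - 1) +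
        ((N:ℝ) ^ (1 - s) - ((N+1 : ℕ):ℝ) ^ (1 - s)) / (s - 1) := by ring
      rw [e]
      linarith
  refine key.trans ?_
  have : 0 ≤ (N:ℝ) ^ (1 - s) := by positivity
  gcongr
  linarith

lemma head_rpow {s : ℝ} (hs0 : 0 < s) (hs : s < 1) (N : ℕ) :
    ∑ m ∈ Finset.Icc 1 N, (m:ℝ) ^ (-s) ≤ (N:ℝ) ^ (1 - s) / (1 - s) := by
  have hs1 : 0 < 1 - s := by linarith
  induction N with
  | zero => simp; positivity
  | succ N ih =>
    rw [Finset.sum_Icc_succ_top (by omega)]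
    set x : ℝ := ((N+1 : ℕ):ℝ) with hx
    have hx' : x = N + 1 := by rw [hx]; push_cast; ring
    have hN0 : (0:ℝ) ≤ N := Nat.cast_nonneg N
    have hx0 : 0 < x := by rw [hx']; positivity
    have e1 : (N:ℝ) = x * (1 + (-(1 / x))) := by rw [hx']; field_simp; ring
    have hge : -1 ≤ -(1 / x) := by
      rw [neg_le_neg_iff, div_le_one hx0, hx']; linarith
    have h2 : (1 + (-(1 / x))) ^ (1 - s) ≤ 1 + (1 - s) * (-(1 / x)) :=
      _root_.rpow_one_add_le_one_add_mul_self hge hs1.le (by linarith)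
    have h3 : (N:ℝ) ^ (1 - s) ≤ x ^ (1 - s) * (1 + (1 - s) * (-(1 / x))) := by
      rw [e1, Real.mul_rpow hx0.le (by linarith)]
      exact mul_le_mul_of_nonneg_left h2 (by positivity)
    have h7 : x ^ (-s) = x ^ (1 - s) / x := by
      rw [← Real.rpow_sub_one hx0.ne']; congr 1; ring
    rw [h7]
    rw [le_div_iff₀ hs1] at ih ⊢
    have : x ^ (1 - s) * (1 + (1 - s) * (-(1 / x))) = x ^ (1 - s) - x ^ (1 - s) / x * (1 - s) := by ring
    rw [add_mul]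
    linarith

lemma split_le {f : ℕ → ℝ} (hf : ∀ m, 0 ≤ f m) (n N : ℕ) :
    ∑ m ∈ Finset.Icc 1 N, f m ≤ ∑ m ∈ Finset.Icc 1 n, f m + ∑ m ∈ Finset.Ioc n N, f m := by
  rw [← Finset.sum_union]
  · apply Finset.sum_le_sum_of_subset_of_nonneg
    · intro m hm
      rw [Finset.mem_Icc] at hm
      rw [Finset.mem_union, Finset.mem_Icc, Finset.mem_Ioc]
      omega
    · intro m _ _; exact hf m
  · rw [Finset.disjoint_left]
    intro m h1 h2
    rw [Finset.mem_Icc] at h1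
    rw [Finset.mem_Ioc] at h2
    omega

/-- the mixed sum -/
lemma mix_sum {t : ℝ} (ht : 0 < t) (ht1 : t ≤ 1) (N : ℕ) :
    ∑ k ∈ Finset.Icc 1 N, (k:ℝ) ^ (-(3/2):ℝ) * min (((k:ℝ) * t) ^ (3/4:ℝ)) (((k:ℝ) * t) ^ (1/4:ℝ)) ≤ 12 * √t := by
  set n := ⌊1 / t⌋₊ with hn
  have hn1 : 1 ≤ n := by
    rw [hn, Nat.one_le_floor_iff, one_le_div ht]; exact ht1
  have hn1' : (1:ℝ) ≤ n := by exact_mod_cast hn1
  have hn0 : (0:ℝ) < n := by linarith
  have hnt : (n:ℝ) ≤ 1 / t := Nat.floor_le (by positivity)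
  have hnt2 : 1 / t ≤ 2 * n := by
    have := Nat.lt_floor_add_one (1 / t)
    rw [← hn] at this
    linarith
  refine (split_le (fun m => by positivity) n N).trans ?_
  have h1 : ∑ k ∈ Finset.Icc 1 n, (k:ℝ) ^ (-(3/2):ℝ) * min (((k:ℝ) * t) ^ (3/4:ℝ)) (((k:ℝ) * t) ^ (1/4:ℝ)) ≤ 4 * √t := by
    calc _ ≤ ∑ k ∈ Finset.Icc 1 n, t ^ (3/4:ℝ) * (k:ℝ) ^ (-(3/4):ℝ) := by
          apply Finset.sum_le_sum
          intro k hk
          rw [Finset.mem_Icc] at hk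
          have hk0 : (0:ℝ) < k := by exact_mod_cast hk.1
          calc _ ≤ (k:ℝ) ^ (-(3/2):ℝ) * (((k:ℝ) * t) ^ (3/4:ℝ)) := mul_le_mul_of_nonneg_left (min_le_left _ _) (by positivity)
            _ = t ^ (3/4:ℝ) * ((k:ℝ) ^ (-(3/2):ℝ) * (k:ℝ) ^ (3/4:ℝ)) := by rw [Real.mul_rpow hk0.le ht.le]; ring
            _ = _ := by rw [← Real.rpow_add hk0]; norm_num
      _ = t ^ (3/4:ℝ) * ∑ k ∈ Finset.Icc 1 n, (k:ℝ) ^ (-(3/4):ℝ) := by rw [Finset.mul_sum]
      _ ≤ t ^ (3/4:ℝ) * ((n:ℝ) ^ (1 - 3/4:ℝ) / (1 - 3/4)) := by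
          apply mul_le_mul_of_nonneg_left (head_rpow (by norm_num) (by norm_num) n) (by positivity)
      _ ≤ t ^ (3/4:ℝ) * ((1 / t) ^ (1 - 3/4:ℝ) / (1 - 3/4)) := by gcongr
      _ = 4 * (t ^ (3/4:ℝ) * t ^ (-(1/4):ℝ)) := by
          rw [one_div, Real.inv_rpow ht.le, ← Real.rpow_neg ht.le]; norm_num; ring
      _ = 4 * √t := by rw [← Real.rpow_add ht, Real.sqrt_eq_rpow]; norm_num
  have h2 : ∑ k ∈ Finset.Ioc n N, (k:ℝ) ^ (-(3/2):ℝ) * min (((k:ℝ) * t) ^ (3/4:ℝ)) (((k:ℝ) * t) ^ (1/4:ℝ)) ≤ 8 * √t := by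
    calc _ ≤ ∑ k ∈ Finset.Ioc n N, t ^ (1/4:ℝ) * (k:ℝ) ^ (-(5/4):ℝ) := by
          apply Finset.sum_le_sum
          intro k hk
          rw [Finset.mem_Ioc] at hk
          have hk0 : (0:ℝ) < k := by exact_mod_cast (by omega : 0 < k)
          calc _ ≤ (k:ℝ) ^ (-(3/2):ℝ) * (((k:ℝ) * t) ^ (1/4:ℝ)) := mul_le_mul_of_nonneg_left (min_le_right _ _) (by positivity)
            _ = t ^ (1/4:ℝ) * ((k:ℝ) ^ (-(3/2):ℝ) * (k:ℝ) ^ (1/4:ℝ)) := by rw [Real.mul_rpow hk0.le ht.le]; ring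
            _ = _ := by rw [← Real.rpow_add hk0]; norm_num
      _ = t ^ (1/4:ℝ) * ∑ k ∈ Finset.Ioc n N, (k:ℝ) ^ (-(5/4):ℝ) := by rw [Finset.mul_sum]
      _ ≤ t ^ (1/4:ℝ) * ((n:ℝ) ^ (1 - 5/4:ℝ) / (5/4 - 1)) := by
          apply mul_le_mul_of_nonneg_left (tail_rpow (by norm_num) hn1 N) (by positivity)
      _ ≤ t ^ (1/4:ℝ) * ((1 / (2 * t)) ^ (1 - 5/4:ℝ) / (5/4 - 1)) := by
          have : (n:ℝ) ^ (1 - 5/4:ℝ) ≤ (1 / (2 * t)) ^ (1 - 5/4:ℝ) := by
            apply Real.rpow_le_rpow_of_nonpos (by positivity) _ (by norm_num)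
            have : 1 / (2 * t) = (1 / t) / 2 := by field_simp
            rw [this]; linarith
          gcongr
      _ = 4 * (2:ℝ) ^ (1/4:ℝ) * (t ^ (1/4:ℝ) * t ^ (1/4:ℝ)) := by
          have e : (1 / (2 * t)) ^ (1 - 5/4:ℝ) = (2 * t) ^ (1/4:ℝ) := by
            rw [show (1 - 5/4:ℝ) = -(1/4) by norm_num, Real.rpow_neg (by positivity),
              Real.div_rpow (by norm_num) (by positivity), Real.one_rpow, one_div, inv_inv]
          rw [e, Real.mul_rpow (by norm_num) ht.le]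
          norm_num; ring
      _ = 4 * (2:ℝ) ^ (1/4:ℝ) * √t := by rw [← Real.rpow_add ht, Real.sqrt_eq_rpow]; norm_num
      _ ≤ 8 * √t := by
          have : (2:ℝ) ^ (1/4:ℝ) ≤ (2:ℝ) ^ (1:ℝ) := Real.rpow_le_rpow_of_exponent_le (by norm_num) (by norm_num)
          rw [Real.rpow_one] at this
          have := mul_le_mul_of_nonneg_right this (Real.sqrt_nonneg t)
          linarith
  linarith

lemma log_split {K m : ℝ} (hK : 1 ≤ K) (hm : K ≤ m) : 1 + Real.log m ≤ (1 + Real.log K) * (1 + 4 * (m / K) ^ (1/4:ℝ)) := by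
  have hK0 : 0 < K := by linarith
  have hm0 : 0 < m := by linarith
  have h1 : Real.log m = Real.log K + Real.log (m / K) := by
    rw [Real.log_div hm0.ne' hK0.ne']; ring
  have h2 : Real.log (m / K) ≤ 4 * (m / K) ^ (1/4:ℝ) := by
    have := Real.log_le_rpow_div (show 0 ≤ m / K by positivity) (show (0:ℝ) < 1/4 by norm_num)
    linarith
  have h3 : 0 ≤ Real.log K := Real.log_nonneg hK
  have h4 : 0 ≤ (m / K) ^ (1/4:ℝ) := by positivity
  nlinarith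

lemma log_tail {K : ℕ} (hK : 1 ≤ K) (N : ℕ) : ∑ m ∈ Finset.Ioc K N, (1 + Real.log m) * (m:ℝ) ^ (-(3/2):ℝ) ≤
    18 * ((1 + Real.log K) * (K:ℝ) ^ (-(1/2):ℝ)) := by
  have hK1 : (1:ℝ) ≤ K := by exact_mod_cast hK
  have hK0 : (0:ℝ) < K := by linarith
  have hlog : 0 ≤ Real.log K := Real.log_nonneg hK1
  calc ∑ m ∈ Finset.Ioc K N, (1 + Real.log m) * (m:ℝ) ^ (-(3/2):ℝ)
      ≤ ∑ m ∈ Finset.Ioc K N, ((1 + Real.log K) * (m:ℝ) ^ (-(3/2):ℝ) + (1 + Real.log K) * (4 * (K:ℝ) ^ (-(1/4):ℝ)) * (m:ℝ) ^ (-(5/4):ℝ)) := by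
        apply Finset.sum_le_sum
        intro m hm
        rw [Finset.mem_Ioc] at hm
        have hmK : (K:ℝ) ≤ m := by exact_mod_cast hm.1.le
        have hm0 : (0:ℝ) < m := by linarith
        have h1 := log_split hK1 hmK
        have h2 : (m:ℝ) ^ (-(5/4):ℝ) = (m:ℝ) ^ (1/4:ℝ) * (m:ℝ) ^ (-(3/2):ℝ) := by rw [← Real.rpow_add hm0]; norm_num
        have h3 : ((m:ℝ) / K) ^ (1/4:ℝ) = (m:ℝ) ^ (1/4:ℝ) * (K:ℝ) ^ (-(1/4):ℝ) := by
          rw [Real.div_rpow hm0.le hK0.le, Real.rpow_neg hK0.le, div_eq_mul_inv]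
        rw [h3] at h1
        calc (1 + Real.log m) * (m:ℝ) ^ (-(3/2):ℝ) ≤ ((1 + Real.log K) * (1 + 4 * ((m:ℝ) ^ (1/4:ℝ) * (K:ℝ) ^ (-(1/4):ℝ)))) * (m:ℝ) ^ (-(3/2):ℝ) := by gcongr
          _ = _ := by rw [h2]; ring
    _ = (1 + Real.log K) * ∑ m ∈ Finset.Ioc K N, (m:ℝ) ^ (-(3/2):ℝ) + (1 + Real.log K) * (4 * (K:ℝ) ^ (-(1/4):ℝ)) * ∑ m ∈ Finset.Ioc K N, (m:ℝ) ^ (-(5/4):ℝ) := by
        rw [Finset.sum_add_distrib, Finset.mul_sum, Finset.mul_sum]
    _ ≤ (1 + Real.log K) * ((K:ℝ) ^ (1 - 3/2:ℝ) / (3/2 - 1)) + (1 + Real.log K) * (4 * (K:ℝ) ^ (-(1/4):ℝ)) * ((K:ℝ) ^ (1 - 5/4:ℝ) / (5/4 - 1)) := by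
        have a1 := tail_rpow (s := 3/2) (by norm_num) hK N
        have a2 := tail_rpow (s := 5/4) (by norm_num) hK N
        gcongr
    _ = (1 + Real.log K) * (2 * (K:ℝ) ^ (-(1/2):ℝ) + 16 * ((K:ℝ) ^ (-(1/4):ℝ) * (K:ℝ) ^ (-(1/4):ℝ))) := by norm_num; ring
    _ = _ := by rw [← Real.rpow_add hK0]; norm_num; ring

/-- tails for sequences with partial sums `C X (1 + log X)` -/
lemma u_tail {u : ℕ → ℝ} (hu : ∀ m, 0 ≤ u m) {C : ℝ} (hC : 0 ≤ C)
    (h : ∀ X : ℕ, 1 ≤ X → ∑ m ∈ Finset.Icc 1 X, u m ≤ C * (X * (1 + Real.log X))) {K : ℕ} (hK : 1 ≤ K) (N : ℕ) :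
    ∑ m ∈ Finset.Ioc K N, u m * (m:ℝ) ^ (-(3/2):ℝ) ≤ 38 * C * ((1 + Real.log K) * (K:ℝ) ^ (-(1/2):ℝ)) := by
  have hK1 : (1:ℝ) ≤ K := by exact_mod_cast hK
  have hK0 : (0:ℝ) < K := by linarith
  have hlog : 0 ≤ Real.log K := Real.log_nonneg hK1
  set f : ℕ → ℝ := fun m => (((max m K : ℕ)):ℝ) ^ (-(3/2):ℝ) with hf
  have hf0 : ∀ m, 0 ≤ f m := fun m => by positivity
  have hfa : ∀ m, 1 ≤ m → f (m+1) ≤ f m := by
    intro m _
    simp only [hf]
    apply Real.rpow_le_rpow_of_nonpos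
    · have : 0 < max m K := lt_max_of_lt_right (by omega)
      exact_mod_cast this
    · have : max m K ≤ max (m+1) K := max_le_max_right K (by omega)
      exact_mod_cast this
    · norm_num
  have h1 := dom hC (fun m _ => hf0 m) hfa h N
  have h2 : ∑ m ∈ Finset.Ioc K N, u m * (m:ℝ) ^ (-(3/2):ℝ) ≤ ∑ m ∈ Finset.Icc 1 N, u m * f m := by
    calc ∑ m ∈ Finset.Ioc K N, u m * (m:ℝ) ^ (-(3/2):ℝ) = ∑ m ∈ Finset.Ioc K N, u m * f m := by
          apply Finset.sum_congr rfl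
          intro m hm
          rw [Finset.mem_Ioc] at hm
          simp only [hf]
          rw [max_eq_left hm.1.le]
      _ ≤ _ := by
          apply Finset.sum_le_sum_of_subset_of_nonneg
          · intro m hm
            rw [Finset.mem_Ioc] at hm
            rw [Finset.mem_Icc]; omega
          · intro m _ _; exact mul_nonneg (hu m) (hf0 m)
  have h3 : ∑ m ∈ Finset.Icc 1 N, (1 + Real.log m) * f m ≤ 19 * ((1 + Real.log K) * (K:ℝ) ^ (-(1/2):ℝ)) := by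
    have hnn : ∀ m : ℕ, 0 ≤ (1 + Real.log m) * f m := by
      intro m
      rcases Nat.eq_zero_or_pos m with rfl | hm
      · simp only [Nat.cast_zero, Real.log_zero, add_zero, one_mul]; exact hf0 0
      · have : 0 ≤ Real.log m := Real.log_nonneg (by exact_mod_cast hm)
        have := hf0 m
        positivity
    refine (split_le hnn K N).trans ?_
    have a1 : ∑ m ∈ Finset.Icc 1 K, (1 + Real.log m) * f m ≤ (1 + Real.log K) * (K:ℝ) ^ (-(1/2):ℝ) := by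
      calc ∑ m ∈ Finset.Icc 1 K, (1 + Real.log m) * f m ≤ ∑ m ∈ Finset.Icc 1 K, (1 + Real.log K) * (K:ℝ) ^ (-(3/2):ℝ) := by
            apply Finset.sum_le_sum
            intro m hm
            rw [Finset.mem_Icc] at hm
            simp only [hf]
            rw [max_eq_right hm.2]
            have hm0 : (0:ℝ) < m := by exact_mod_cast hm.1
            have : Real.log m ≤ Real.log K := Real.log_le_log hm0 (by exact_mod_cast hm.2)
            gcongr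
        _ = (1 + Real.log K) * ((K:ℝ) * (K:ℝ) ^ (-(3/2):ℝ)) := by
            rw [Finset.sum_const, Nat.card_Icc, Nat.add_sub_cancel, nsmul_eq_mul]; ring
        _ = _ := by
            congr 1
            nth_rewrite 1 [← Real.rpow_one (K:ℝ)]
            rw [← Real.rpow_add hK0]; norm_num
    have a2 : ∑ m ∈ Finset.Ioc K N, (1 + Real.log m) * f m ≤ 18 * ((1 + Real.log K) * (K:ℝ) ^ (-(1/2):ℝ)) := by
      refine le_trans (le_of_eq ?_) (log_tail hK N)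
      apply Finset.sum_congr rfl
      intro m hm
      rw [Finset.mem_Ioc] at hm
      simp only [hf]
      rw [max_eq_left hm.1.le]
    linarith
  have h4 := mul_le_mul_of_nonneg_left h3 (show 0 ≤ 2 * C by positivity)
  linarith

/-- the variance sum -/
lemma u_var {u : ℕ → ℝ} {C : ℝ} (hC : 0 ≤ C)
    (h : ∀ X : ℕ, 1 ≤ X → ∑ m ∈ Finset.Icc 1 X, u m ≤ C * (X * (1 + Real.log X))) {ρ : ℝ} (hρ : 0 < ρ) (hρ1 : ρ ≤ 1) (N : ℕ) :
    ∑ m ∈ Finset.Icc 1 N, u m * min ((m:ℝ) ^ (-(3/2):ℝ)) (ρ ^ 2 * (m:ℝ) ^ (-(1/2):ℝ)) ≤ 200 * C * (ρ * (1 + Real.log (1 / ρ))) := by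
  set f : ℕ → ℝ := fun m => min ((m:ℝ) ^ (-(3/2):ℝ)) (ρ ^ 2 * (m:ℝ) ^ (-(1/2):ℝ)) with hf
  have hf0 : ∀ m, 0 ≤ f m := fun m => by positivity
  have hfa : ∀ m, 1 ≤ m → f (m+1) ≤ f m := by
    intro m hm
    have hm0 : (0:ℝ) < m := by exact_mod_cast hm
    simp only [hf]
    apply min_le_min
    · apply Real.rpow_le_rpow_of_nonpos hm0 (by push_cast; linarith) (by norm_num)
    · apply mul_le_mul_of_nonneg_left _ (by positivity)
      apply Real.rpow_le_rpow_of_nonpos hm0 (by push_cast; linarith) (by norm_num)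
  have h1 := dom hC (fun m _ => hf0 m) hfa h N
  set L := ⌊1 / ρ ^ 2⌋₊ with hL
  have hρ2 : ρ ^ 2 ≤ 1 := by nlinarith
  have hL1 : 1 ≤ L := by
    rw [hL, Nat.one_le_floor_iff, one_le_div (by positivity)]; exact hρ2
  have hL1' : (1:ℝ) ≤ L := by exact_mod_cast hL1
  have hL0 : (0:ℝ) < L := by linarith
  have hLu : (L:ℝ) ≤ 1 / ρ ^ 2 := Nat.floor_le (by positivity)
  have hLl : 1 / ρ ^ 2 ≤ 2 * L := by
    have := Nat.lt_floor_add_one (1 / ρ ^ 2)
    rw [← hL] at this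
    linarith
  have hlogρ : 0 ≤ Real.log (1 / ρ) := Real.log_nonneg (by rw [one_le_div hρ]; exact hρ1)
  have hlogL : Real.log L ≤ 2 * Real.log (1 / ρ) := by
    have : 2 * Real.log (1 / ρ) = Real.log (1 / ρ ^ 2) := by
      rw [← Real.log_rpow (by positivity)]
      congr 1
      rw [Real.rpow_two, div_pow, one_pow]
    rw [this]
    exact Real.log_le_log hL0 hLu
  have hlogL0 : 0 ≤ Real.log L := Real.log_nonneg hL1'
  have hLa : (L:ℝ) ^ (1/2:ℝ) ≤ 1 / ρ := by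
    rw [← Real.sqrt_eq_rpow, Real.sqrt_le_left (by positivity), div_pow, one_pow]; exact hLu
  have hLb : (L:ℝ) ^ (-(1/2):ℝ) ≤ 2 * ρ := by
    rw [Real.rpow_neg hL0.le, ← Real.sqrt_eq_rpow]
    apply inv_le_of_inv_le₀ (by positivity)
    apply Real.le_sqrt_of_sq_le
    have : ((2 * ρ)⁻¹) ^ 2 = (1 / ρ ^ 2) / 4 := by field_simp; norm_num
    rw [this]
    linarith
  have hnn : ∀ m : ℕ, 0 ≤ (1 + Real.log m) * f m := by
    intro m
    rcases Nat.eq_zero_or_pos m with rfl | hm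
    · simp only [Nat.cast_zero, Real.log_zero, add_zero, one_mul]; exact hf0 0
    · have : 0 ≤ Real.log m := Real.log_nonneg (by exact_mod_cast hm)
      have := hf0 m
      positivity
  have h3 : ∑ m ∈ Finset.Icc 1 N, (1 + Real.log m) * f m ≤ 100 * (ρ * (1 + Real.log (1 / ρ))) := by
    refine (split_le hnn L N).trans ?_
    have a1 : ∑ m ∈ Finset.Icc 1 L, (1 + Real.log m) * f m ≤ (1 + Real.log L) * (ρ ^ 2 * (2 * (1 / ρ))) := by
      calc ∑ m ∈ Finset.Icc 1 L, (1 + Real.log m) * f m ≤ ∑ m ∈ Finset.Icc 1 L, (1 + Real.log L) * (ρ ^ 2 * (m:ℝ) ^ (-(1/2):ℝ)) := by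
            apply Finset.sum_le_sum
            intro m hm
            rw [Finset.mem_Icc] at hm
            have hm0 : (0:ℝ) < m := by exact_mod_cast hm.1
            have a3 : Real.log m ≤ Real.log L := Real.log_le_log hm0 (by exact_mod_cast hm.2)
            have a4 : f m ≤ ρ ^ 2 * (m:ℝ) ^ (-(1/2):ℝ) := min_le_right _ _
            have a5 := hf0 m
            have a6 : 0 ≤ Real.log m := Real.log_nonneg (by exact_mod_cast hm.1)
            apply mul_le_mul (by linarith) a4 a5 (by linarith)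
        _ = (1 + Real.log L) * (ρ ^ 2 * ∑ m ∈ Finset.Icc 1 L, (m:ℝ) ^ (-(1/2):ℝ)) := by
            rw [Finset.mul_sum, Finset.mul_sum]
        _ ≤ (1 + Real.log L) * (ρ ^ 2 * ((L:ℝ) ^ (1 - 1/2:ℝ) / (1 - 1/2))) := by
            have := head_rpow (s := 1/2) (by norm_num) (by norm_num) L
            gcongr
        _ ≤ _ := by
            have e : (L:ℝ) ^ (1 - 1/2:ℝ) / (1 - 1/2) = 2 * (L:ℝ) ^ (1/2:ℝ) := by norm_num; ring
            rw [e]
            gcongr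
    have a2 : ∑ m ∈ Finset.Ioc L N, (1 + Real.log m) * f m ≤ 18 * ((1 + Real.log L) * (2 * ρ)) := by
      calc ∑ m ∈ Finset.Ioc L N, (1 + Real.log m) * f m ≤ ∑ m ∈ Finset.Ioc L N, (1 + Real.log m) * (m:ℝ) ^ (-(3/2):ℝ) := by
            apply Finset.sum_le_sum
            intro m hm
            rw [Finset.mem_Ioc] at hm
            have a6 : 0 ≤ Real.log m := Real.log_nonneg (by exact_mod_cast (by omega : 1 ≤ m))
            apply mul_le_mul_of_nonneg_left (min_le_left _ _) (by linarith)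
        _ ≤ 18 * ((1 + Real.log L) * (L:ℝ) ^ (-(1/2):ℝ)) := log_tail hL1 N
        _ ≤ _ := by gcongr
    have e1 : (1 + Real.log L) * (ρ ^ 2 * (2 * (1 / ρ))) = 2 * (ρ * (1 + Real.log L)) := by field_simp
    have e2 : 18 * ((1 + Real.log L) * (2 * ρ)) = 36 * (ρ * (1 + Real.log L)) := by ring
    have a7 : ρ * (1 + Real.log L) ≤ 2 * (ρ * (1 + Real.log (1 / ρ))) := by nlinarith
    rw [e1] at a1
    rw [e2] at a2
    have : 0 ≤ ρ * (1 + Real.log (1 / ρ)) := by positivity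
    linarith
  have h4 := mul_le_mul_of_nonneg_left h3 (show 0 ≤ 2 * C by positivity)
  linarith

end Pool.Agent.N48.Ann
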