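import Mathlib
import Pool.Agent.H383.GaussW
import Pool.Agent.N48.Ann.NT7

open MeasureTheory Filter Topology
open Pool.Agent.H383 Pool.Agent.H383.AP Pool.Agent.H383.Gauss Pool.Agent.H383.Gen Pool.Agent.H383.GW

namespace Pool.Agent.N48.Ann

variable {a : ℕ → ℝ} {φ : ℝ} {w : ℝ → ℂ} {E : ℝ → ℝ}

/-- low frequencies, quantified -/
lemma WS_low' (ha : Bd a) (φ : ℝ) (hw : Wt w) (κ : ℝ) : ∃ K : ℝ, 0 < K ∧ ∀ M : ℕ, 1 ≤ M → ∀ R δ : ℝ, 0 < δ →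
    |∑ m ∈ Finset.Icc 1 (M^2), GW.wt a φ w (R + κ * δ) δ m - U a φ R M| ≤ K * (M:ℝ)^2 * δ := by
  have hpi := Real.pi_pos
  obtain ⟨Cl, hCl, hl⟩ := hw.lip
  obtain ⟨Ca, hCa, haC⟩ := ha
  refine ⟨Ca * (Cl + 2 * Real.pi * |κ|), by positivity, ?_⟩
  intro M hM R δ hδ
  have h0 : ∑ m ∈ Finset.Icc 1 (M^2), |a m| * ((Cl + 2 * Real.pi * |κ|) * √(m:ℝ)) ≤ Ca * (Cl + 2 * Real.pi * |κ|) * (M:ℝ)^2 := by
    calc ∑ m ∈ Finset.Icc 1 (M^2), |a m| * ((Cl + 2 * Real.pi * |κ|) * √(m:ℝ)) ≤ ∑ m ∈ Finset.Icc 1 (M^2), Ca * (Cl + 2 * Real.pi * |κ|) := by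
          apply Finset.sum_le_sum
          intro m hm
          rw [Finset.mem_Icc] at hm
          have hm1 : (1:ℝ) ≤ m := by exact_mod_cast hm.1
          have hs : 1 ≤ √(m:ℝ) := by rw [Real.one_le_sqrt]; exact hm1
          have hs0 : 0 < √(m:ℝ) := by linarith
          have h1 := haC m hm.1
          have h2 : |a m| * √(m:ℝ) ≤ Ca := by
            calc |a m| * √(m:ℝ) ≤ Ca * (√(m:ℝ)) ^ (-(37/25):ℝ) * √(m:ℝ) := by gcongr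
              _ = Ca * ((√(m:ℝ)) ^ (-(37/25):ℝ) * (√(m:ℝ)) ^ (1:ℝ)) := by rw [Real.rpow_one]; ring
              _ = Ca * ((√(m:ℝ)) ^ (-(12/25):ℝ)) := by rw [← Real.rpow_add hs0]; norm_num
              _ ≤ Ca * 1 := by
                  gcongr
                  exact Real.rpow_le_one_of_one_le_of_nonpos hs (by norm_num)
              _ = Ca := mul_one _
          calc |a m| * ((Cl + 2 * Real.pi * |κ|) * √(m:ℝ)) = (|a m| * √(m:ℝ)) * (Cl + 2 * Real.pi * |κ|) := by ring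
            _ ≤ _ := mul_le_mul_of_nonneg_right h2 (by positivity)
      _ = _ := by
          rw [Finset.sum_const, Nat.card_Icc, Nat.add_sub_cancel, nsmul_eq_mul]; push_cast; ring
  refine le_trans ?_ (mul_le_mul_of_nonneg_right h0 hδ.le)
  unfold U
  rw [← Finset.sum_sub_distrib]
  refine (Finset.abs_sum_le_sum_abs _ _).trans ?_
  rw [Finset.sum_mul]
  apply Finset.sum_le_sum
  intro m hm
  rw [Finset.mem_Icc] at hm
  have hm0 : (0:ℝ) < m := by exact_mod_cast hm.1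
  have hs : 0 < √(m:ℝ) := Real.sqrt_pos.mpr hm0
  unfold GW.wt
  rw [← mul_sub, abs_mul, mul_assoc |a m|]
  apply mul_le_mul_of_nonneg_left _ (abs_nonneg _)
  set θ' : ℝ := 2 * Real.pi * ((R + κ * δ) * √(m:ℝ)) - φ with hθ'
  set θ : ℝ := 2 * Real.pi * (R * √(m:ℝ)) - φ with hθ
  have h1 : (Complex.exp ((θ' : ℂ) * Complex.I) * w (√(m:ℝ) * δ)).re - Real.cos θ =
      (Complex.exp ((θ' : ℂ) * Complex.I) * (w (√(m:ℝ) * δ) - 1)).re + (Real.cos θ' - Real.cos θ) := by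
    rw [mul_sub, Complex.sub_re, mul_one, Complex.exp_ofReal_mul_I_re]; ring
  rw [h1]
  have h2 : |(Complex.exp ((θ' : ℂ) * Complex.I) * (w (√(m:ℝ) * δ) - 1)).re| ≤ Cl * (√(m:ℝ) * δ) := by
    refine (Complex.abs_re_le_norm _).trans ?_
    rw [norm_mul, Complex.norm_exp_ofReal_mul_I, one_mul]
    exact hl _ (by positivity)
  have h5 : |Real.cos θ' - Real.cos θ| ≤ 2 * Real.pi * |κ| * (√(m:ℝ) * δ) := by
    refine (Real.abs_cos_sub_cos_le θ' θ).trans ?_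
    have e : θ' - θ = (2 * Real.pi * √(m:ℝ) * δ) * κ := by rw [hθ', hθ]; ring
    rw [e, abs_mul, abs_of_pos (by positivity : 0 < 2 * Real.pi * √(m:ℝ) * δ)]
    apply le_of_eq; ring
  calc _ ≤ _ + _ := abs_add_le _ _
    _ ≤ Cl * (√(m:ℝ) * δ) + 2 * Real.pi * |κ| * (√(m:ℝ) * δ) := add_le_add h2 h5
    _ = _ := by ring

/-- **quantitative mean-square approximation at the points `X + n`** -/
theorem ap_quant (ha : Bd a) (ha0 : a 0 = 0) (hw : Wt w) {κ₁ κ₂ C0 : ℝ} (hC0 : 0 < C0)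
    (hS : Sand E a φ w κ₁ κ₂ C0) : ∃ C : ℝ, 0 < C ∧ ∃ N0 : ℕ, ∀ X : ℝ, 4 ≤ X → X ≤ 6 →
    ∀ M : ℕ, 1 ≤ M → ∀ N : ℕ, N0 ≤ N → 4 * (M + 1) ≤ N →
    ∑ n ∈ Finset.range N, (E (X + n) - U a φ (X + n) M)^2 ≤ C * (Tl M + (M:ℝ)^4 * (N:ℝ) ^ (-(13/600):ℝ)) * N := by
  obtain ⟨K₁, hK₁, hlow₁⟩ := WS_low' ha φ hw κ₁
  obtain ⟨K₂, hK₂, hlow₂⟩ := WS_low' ha φ hw κ₂
  obtain ⟨Ct, hCt, htail⟩ := WS_tail (a := a) (φ := φ) (w := w) ha ha0 hw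
  obtain ⟨Ca, hCa, haC⟩ := ha
  obtain ⟨Cw, hCw, hwd⟩ := hw.dec
  obtain ⟨C1, hC1, N1, hD⟩ := D_ms_gen (α := 1) one_pos (show 0 < Ca * (Cw + 1) by positivity)
  set H : ℝ := (K₁ + K₂) + 2 * Ct * (1/4:ℝ) ^ (-(24/25):ℝ) + C0 * (7:ℝ) ^ (51/100:ℝ) + C0 with hH
  have hH0 : 0 < H := by positivity
  refine ⟨8 * C1 + 4 * H^2 + 100 * C0^2, by positivity, max N1 4, ?_⟩
  intro X hX hX6 M hM N hN hMN
  have hNN1 : N1 ≤ N := by omega
  have hN4 : 4 ≤ N := by omega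
  have hN4' : (4:ℝ) ≤ N := by exact_mod_cast hN4
  have hN0 : (0:ℝ) < N := by linarith
  have hN1' : (1:ℝ) ≤ N := by linarith
  have hM' : (1:ℝ) ≤ M := by exact_mod_cast hM
  have hMN' : 4 * ((M:ℝ)+1) ≤ N := by exact_mod_cast hMN
  set δ : ℝ := (N:ℝ) ^ (-(25/48):ℝ) with hδ
  have hδ0 : 0 < δ := by positivity
  have hδ1 : δ ≤ 1/2 := by
    have h1 : δ ≤ (4:ℝ) ^ (-(25/48):ℝ) := Real.rpow_le_rpow_of_nonpos (by norm_num) hN4' (by norm_num)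
    have h2 : (4:ℝ) ^ (-(25/48):ℝ) ≤ (4:ℝ) ^ (-(1/2):ℝ) := Real.rpow_le_rpow_of_exponent_le (by norm_num) (by norm_num)
    have h3 : (4:ℝ) ^ (-(1/2):ℝ) = 1/2 := by
      rw [Real.rpow_neg (by norm_num), ← Real.sqrt_eq_rpow, show (4:ℝ) = 2^2 by norm_num, Real.sqrt_sq (by norm_num)]
      norm_num
    linarith
  set Y : ℕ := ⌊(N:ℝ) / 2⌋₊ with hY
  have hY2 : 2 * (Y:ℝ) ≤ 1 * N := by
    have := Nat.floor_le (by positivity : 0 ≤ (N:ℝ) / 2)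
    linarith
  have hY4 : (1/4) * (N:ℝ) ≤ Y := by
    have := Nat.lt_floor_add_one ((N:ℝ) / 2)
    rw [← hY] at this
    linarith
  have hMY : M ≤ Y := by
    have : (M:ℝ) ≤ Y := by linarith
    exact_mod_cast this
  have hY1 : 1 ≤ Y := by omega
  have hτ : Ct * δ ^ (-(3/2):ℝ) * (Y:ℝ) ^ (-(24/25):ℝ) ≤ Ct * (1/4:ℝ) ^ (-(24/25):ℝ) * (N:ℝ) ^ (-(143/800):ℝ) := by
    have e1 : δ ^ (-(3/2):ℝ) = (N:ℝ) ^ (25/32:ℝ) := by
      rw [hδ, ← Real.rpow_mul hN0.le]; norm_num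
    have e2 : (Y:ℝ) ^ (-(24/25):ℝ) ≤ (1/4:ℝ) ^ (-(24/25):ℝ) * (N:ℝ) ^ (-(24/25):ℝ) := by
      rw [← Real.mul_rpow (by positivity) hN0.le]
      apply Real.rpow_le_rpow_of_nonpos (by positivity) _ (by norm_num)
      linarith
    calc Ct * δ ^ (-(3/2):ℝ) * (Y:ℝ) ^ (-(24/25):ℝ) ≤ Ct * (N:ℝ) ^ (25/32:ℝ) * ((1/4:ℝ) ^ (-(24/25):ℝ) * (N:ℝ) ^ (-(24/25):ℝ)) := by
          rw [e1]; exact mul_le_mul_of_nonneg_left e2 (by positivity)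
      _ = Ct * (1/4:ℝ) ^ (-(24/25):ℝ) * ((N:ℝ) ^ (25/32:ℝ) * (N:ℝ) ^ (-(24/25):ℝ)) := by ring
      _ = _ := by rw [← Real.rpow_add hN0]; norm_num
  -- the middle range
  set mid : ℝ → ℕ → ℝ := fun X' n => ∑ m ∈ Finset.Ioc (M^2) (Y^2), GW.wt a φ w (X' + n) δ m with hmid
  have hmidb : ∀ X' : ℝ, ∑ n ∈ Finset.range N, (mid X' n)^2 ≤ C1 * N * Tl M := by
    intro X'
    set b : ℕ → ℂ := fun m => ac a φ X' m * w (√(m:ℝ) * δ) with hb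
    have h1 := hD N b M Y hNN1 hM hY2 (by
      intro m hm
      have hm0 : (0:ℝ) < m := by exact_mod_cast hm
      have hs : 0 < √(m:ℝ) := Real.sqrt_pos.mpr hm0
      rw [← hδ]
      simp only [hb]
      rw [norm_mul, norm_ac]
      unfold hf
      have h2 := haC m hm
      have h3 := hw.one (√(m:ℝ) * δ) (by positivity)
      have h4 := hwd (√(m:ℝ) * δ) (by positivity)
      set y := √(m:ℝ) * δ with hy
      have hy0 : 0 < y := by positivity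
      rw [show δ * √(m:ℝ) = y by rw [hy]; ring]
      have h5 : ‖w y‖ ≤ (Cw + 1) * min 1 (y ^ (-(3/2):ℝ)) := by
        rcases min_choice (1:ℝ) (y ^ (-(3/2):ℝ)) with hc | hc
        · rw [hc]; linarith
        · rw [hc]
          have : 0 ≤ y ^ (-(3/2):ℝ) := by positivity
          linarith
      calc |a m| * ‖w y‖ ≤ (Ca * (√(m:ℝ)) ^ (-(37/25):ℝ)) * ((Cw + 1) * min 1 (y ^ (-(3/2):ℝ))) :=
            mul_le_mul h2 h5 (norm_nonneg _) (by positivity)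
        _ = _ := by ring)
    refine le_trans ?_ h1
    apply Finset.sum_le_sum
    intro n _
    have h2 : mid X' n = (∑ m ∈ Finset.Ioc (M^2) (Y^2), b m *
      Complex.exp (((2 * Real.pi * (n * (1 * √(m:ℝ))) : ℝ) : ℂ) * Complex.I)).re := by
      simp only [hmid, hb]
      rw [Complex.re_sum]
      apply Finset.sum_congr rfl
      intro m _
      unfold GW.wt
      rw [← Complex.re_ofReal_mul]
      congr 1
      have h3 := ac_shift a φ X' 1 m n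
      unfold chr at h3
      rw [mul_one] at h3
      have h4 : ac a φ X' m * w (√(m:ℝ) * δ) * Complex.exp (((2 * Real.pi * (n * (1 * √(m:ℝ))) : ℝ) : ℂ) * Complex.I) =
          ac a φ (X' + n) m * w (√(m:ℝ) * δ) := by rw [h3]; ring
      rw [h4]
      unfold ac
      ring
    rw [h2, ← sq_abs]
    exact pow_le_pow_left₀ (abs_nonneg _) (Complex.abs_re_le_norm _) 2
  -- pointwise bound
  set G : ℝ := H * (M:ℝ)^2 * (N:ℝ) ^ (-(13/1200):ℝ) with hG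
  have hpt : ∀ n ∈ Finset.range N, (E (X + n) - U a φ (X + n) M)^2 ≤
      4 * (G^2 + C0^2 * (((N:ℝ) ^ (25/48:ℝ)) ^ (26/25:ℝ) * ((n:ℝ) + 1) ^ (-(24/25):ℝ)) +
        (mid (X + κ₁ * δ) n)^2 + (mid (X + κ₂ * δ) n)^2) := by
    intro n hn
    rw [Finset.mem_range] at hn
    have hn' : (n:ℝ) ≤ N := by exact_mod_cast hn.le
    set R : ℝ := X + n with hR
    have hn0 : (0:ℝ) ≤ n := Nat.cast_nonneg n
    have hR2 : 4 ≤ R := by rw [hR]; linarith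
    have hR0 : 0 < R := by linarith
    have hRn : (n:ℝ) + 1 ≤ R := by rw [hR]; linarith
    have h1 := hS.up R R δ hR2 hδ0 hδ1 (by rw [sub_self, abs_zero]; exact hδ0.le)
    have h2 := hS.lo R R δ hR2 hδ0 hδ1 (by rw [sub_self, abs_zero]; exact hδ0.le)
    -- decomposition of WS
    have hdec : ∀ (κ K : ℝ), |∑ m ∈ Finset.Icc 1 (M^2), GW.wt a φ w (R + κ * δ) δ m - U a φ R M| ≤ K * (M:ℝ)^2 * δ →
        |GW.WS a φ w (R + κ * δ) δ - U a φ R M| ≤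
        K * (M:ℝ)^2 * δ + |mid (X + κ * δ) n| + Ct * δ ^ (-(3/2):ℝ) * (Y:ℝ) ^ (-(24/25):ℝ) := by
      intro κ K hK
      have t1 := htail δ hδ0 (R + κ * δ) Y hY1
      have e3 : X + κ * δ + n = R + κ * δ := by rw [hR]; ring
      have hsplit : ∑ m ∈ Finset.Icc 1 (Y^2), GW.wt a φ w (R + κ * δ) δ m =
          ∑ m ∈ Finset.Icc 1 (M^2), GW.wt a φ w (R + κ * δ) δ m + mid (X + κ * δ) n := by
        simp only [hmid]
        rw [e3, ← Finset.sum_union]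
        · apply Finset.sum_congr _ (fun _ _ => rfl)
          have : M^2 ≤ Y^2 := Nat.pow_le_pow_left hMY 2
          ext m
          simp only [Finset.mem_union, Finset.mem_Icc, Finset.mem_Ioc]
          omega
        · rw [Finset.disjoint_left]
          intro m hm1 hm2
          rw [Finset.mem_Icc] at hm1
          rw [Finset.mem_Ioc] at hm2
          omega
      rw [hsplit] at t1
      set L := ∑ m ∈ Finset.Icc 1 (M^2), GW.wt a φ w (R + κ * δ) δ m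
      have e : GW.WS a φ w (R + κ * δ) δ - U a φ R M =
          (GW.WS a φ w (R + κ * δ) δ - (L + mid (X + κ * δ) n)) + (L - U a φ R M) + mid (X + κ * δ) n := by ring
      rw [e]
      calc _ ≤ |(GW.WS a φ w (R + κ * δ) δ - (L + mid (X + κ * δ) n)) + (L - U a φ R M)| + |mid (X + κ * δ) n| := abs_add_le _ _
        _ ≤ |GW.WS a φ w (R + κ * δ) δ - (L + mid (X + κ * δ) n)| + |L - U a φ R M| + |mid (X + κ * δ) n| := by
            gcongr; exact abs_add_le _ _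
        _ ≤ _ := by linarith
    have d1 := hdec κ₁ K₁ (hlow₁ M hM R δ hδ0)
    have d2 := hdec κ₂ K₂ (hlow₂ M hM R δ hδ0)
    have d1' := abs_le.mp d1
    have d2' := abs_le.mp d2
    have hm1 := abs_nonneg (mid (X + κ₁ * δ) n)
    have hm2 := abs_nonneg (mid (X + κ₂ * δ) n)
    have hM2 : (1:ℝ) ≤ (M:ℝ)^2 := by nlinarith
    have hKδ : 0 < K₁ * (M:ℝ)^2 * δ := by positivity
    have hKδ2 : 0 < K₂ * (M:ℝ)^2 * δ := by positivity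
    have hτ0 : 0 ≤ Ct * δ ^ (-(3/2):ℝ) * (Y:ℝ) ^ (-(24/25):ℝ) := by positivity
    -- the error
    have her1 : C0 * (δ * R ^ (51/100:ℝ)) ≤ C0 * (7:ℝ) ^ (51/100:ℝ) * (N:ℝ) ^ (-(13/1200):ℝ) := by
      have g1 : R ≤ 7 * N := by
        rw [hR]; nlinarith
      have g2 : R ^ (51/100:ℝ) ≤ (7:ℝ) ^ (51/100:ℝ) * (N:ℝ) ^ (51/100:ℝ) := by
        rw [← Real.mul_rpow (by positivity) hN0.le]
        exact Real.rpow_le_rpow hR0.le g1 (by norm_num)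
      calc C0 * (δ * R ^ (51/100:ℝ)) ≤ C0 * (δ * ((7:ℝ) ^ (51/100:ℝ) * (N:ℝ) ^ (51/100:ℝ))) := by gcongr
        _ = C0 * (7:ℝ) ^ (51/100:ℝ) * ((N:ℝ) ^ (-(25/48):ℝ) * (N:ℝ) ^ (51/100:ℝ)) := by rw [hδ]; ring
        _ = _ := by rw [← Real.rpow_add hN0]; norm_num
    have her3 : C0 * δ ^ (2/5:ℝ) = C0 * (N:ℝ) ^ (-(5/24):ℝ) := by
      rw [hδ, ← Real.rpow_mul hN0.le]; norm_num
    set er2 : ℝ := C0 * (R ^ (-(12/25):ℝ) * δ ^ (-(13/25):ℝ)) with her2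
    have her20 : 0 ≤ er2 := by positivity
    have her2sq : er2^2 ≤ C0^2 * (((N:ℝ) ^ (25/48:ℝ)) ^ (26/25:ℝ) * ((n:ℝ)+1) ^ (-(24/25):ℝ)) := by
      rw [her2, mul_pow, mul_pow]
      have i1 : (R ^ (-(12/25):ℝ))^2 ≤ ((n:ℝ)+1) ^ (-(24/25):ℝ) := by
        rw [← Real.rpow_natCast, ← Real.rpow_mul hR0.le]
        have : (-(12/25):ℝ) * ((2:ℕ):ℝ) = -(24/25) := by norm_num
        rw [this]
        exact Real.rpow_le_rpow_of_nonpos (by positivity) hRn (by norm_num)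
      have i2 : (δ ^ (-(13/25):ℝ))^2 = ((N:ℝ) ^ (25/48:ℝ)) ^ (26/25:ℝ) := by
        rw [hδ, ← Real.rpow_natCast, ← Real.rpow_mul (by positivity), ← Real.rpow_mul hN0.le, ← Real.rpow_mul hN0.le]
        norm_num
      rw [i2]
      calc C0 ^ 2 * ((R ^ (-(12/25):ℝ))^2 * ((N:ℝ) ^ (25/48:ℝ)) ^ (26/25:ℝ)) ≤
          C0 ^ 2 * (((n:ℝ)+1) ^ (-(24/25):ℝ) * ((N:ℝ) ^ (25/48:ℝ)) ^ (26/25:ℝ)) := by gcongr
        _ = _ := by ring
    have hG0 : (K₁ + K₂) * (M:ℝ)^2 * δ + 2 * (Ct * δ ^ (-(3/2):ℝ) * (Y:ℝ) ^ (-(24/25):ℝ)) + C0 * (δ * R ^ (51/100:ℝ)) +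
        C0 * δ ^ (2/5:ℝ) ≤ G := by
      have p0 : 0 < (N:ℝ) ^ (-(13/1200):ℝ) := by positivity
      have p1 : δ ≤ (N:ℝ) ^ (-(13/1200):ℝ) := Real.rpow_le_rpow_of_exponent_le hN1' (by norm_num)
      have p2 : (N:ℝ) ^ (-(143/800):ℝ) ≤ (N:ℝ) ^ (-(13/1200):ℝ) := Real.rpow_le_rpow_of_exponent_le hN1' (by norm_num)
      have p3 : (N:ℝ) ^ (-(5/24):ℝ) ≤ (N:ℝ) ^ (-(13/1200):ℝ) := Real.rpow_le_rpow_of_exponent_le hN1' (by norm_num)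
      rw [her3]
      set q := (N:ℝ) ^ (-(13/1200):ℝ) with hq
      have hMq : q ≤ (M:ℝ)^2 * q := by nlinarith
      have q1 : (K₁ + K₂) * (M:ℝ)^2 * δ ≤ (K₁ + K₂) * ((M:ℝ)^2 * q) := by
        rw [mul_assoc]; gcongr
      have q2 : Ct * δ ^ (-(3/2):ℝ) * (Y:ℝ) ^ (-(24/25):ℝ) ≤ Ct * (1/4:ℝ) ^ (-(24/25):ℝ) * ((M:ℝ)^2 * q) := by
        refine hτ.trans ?_
        apply mul_le_mul_of_nonneg_left (p2.trans hMq) (by positivity)
      have q3 : C0 * (δ * R ^ (51/100:ℝ)) ≤ C0 * (7:ℝ) ^ (51/100:ℝ) * ((M:ℝ)^2 * q) :=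
        her1.trans (mul_le_mul_of_nonneg_left hMq (by positivity))
      have q4 : C0 * (N:ℝ) ^ (-(5/24):ℝ) ≤ C0 * ((M:ℝ)^2 * q) := mul_le_mul_of_nonneg_left (p3.trans hMq) hC0.le
      have e : G = (K₁ + K₂) * ((M:ℝ)^2 * q) + 2 * (Ct * (1/4:ℝ) ^ (-(24/25):ℝ) * ((M:ℝ)^2 * q)) +
        C0 * (7:ℝ) ^ (51/100:ℝ) * ((M:ℝ)^2 * q) + C0 * ((M:ℝ)^2 * q) := by rw [hG, hH]; ring
      rw [e]; linarith
    have hera : C0 * er R δ = C0 * (δ * R ^ (51/100:ℝ)) + er2 + C0 * δ ^ (2/5:ℝ) := by rw [er, her2]; ring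
    rw [hera] at h1 h2
    have hp1 : 0 ≤ C0 * (δ * R ^ (51/100:ℝ)) := by positivity
    have hp2 : 0 ≤ C0 * δ ^ (2/5:ℝ) := by positivity
    have htot : |E R - U a φ R M| ≤ G + er2 + |mid (X + κ₁ * δ) n| + |mid (X + κ₂ * δ) n| := by
      rw [abs_le]
      constructor
      · linarith
      · linarith
    have hGG : 0 ≤ G := by positivity
    calc (E R - U a φ R M)^2 = |E R - U a φ R M|^2 := (sq_abs _).symm
      _ ≤ (G + er2 + |mid (X + κ₁ * δ) n| + |mid (X + κ₂ * δ) n|)^2 := pow_le_pow_left₀ (abs_nonneg _) htot 2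
      _ ≤ 4 * (G^2 + er2^2 + |mid (X + κ₁ * δ) n|^2 + |mid (X + κ₂ * δ) n|^2) := lip_sum_four _ _ _ _
      _ ≤ _ := by rw [sq_abs, sq_abs]; linarith
  -- summing
  have hs1 := hmidb (X + κ₁ * δ)
  have hs2 := hmidb (X + κ₂ * δ)
  have hTl := Tl_nonneg M
  have hsum24 : ∑ n ∈ Finset.range N, ((n:ℝ) + 1) ^ (-(24/25):ℝ) ≤ 25 * (N:ℝ) ^ (1/25:ℝ) := by
    have e : ∑ n ∈ Finset.range N, ((n:ℝ) + 1) ^ (-(24/25):ℝ) = ∑ m ∈ Finset.Icc 1 N, (m:ℝ) ^ (-(24/25):ℝ) := by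
      rw [Finset.range_eq_Ico]
      symm
      rw [Finset.sum_bij (fun k _ => k - 1)]
      · intro k hk; rw [Finset.mem_Icc] at hk; rw [Finset.mem_Ico]; omega
      · intro a ha b hb h; rw [Finset.mem_Icc] at ha hb; omega
      · intro k hk
        rw [Finset.mem_Ico] at hk
        exact ⟨k + 1, by rw [Finset.mem_Icc]; omega, by omega⟩
      · intro k hk
        rw [Finset.mem_Icc] at hk
        congr 1
        rw [Nat.cast_sub hk.1]; push_cast; ring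
    rw [e]
    refine (head_rpow (s := 24/25) (by norm_num) (by norm_num) N).trans (le_of_eq ?_)
    norm_num
    ring
  have hE2 : ((N:ℝ) ^ (25/48:ℝ)) ^ (26/25:ℝ) * (25 * (N:ℝ) ^ (1/25:ℝ)) ≤ 25 * ((M:ℝ)^4 * (N:ℝ) ^ (-(13/600):ℝ) * N) := by
    have e1 : ((N:ℝ) ^ (25/48:ℝ)) ^ (26/25:ℝ) = (N:ℝ) ^ (13/24:ℝ) := by rw [← Real.rpow_mul hN0.le]; norm_num
    have e2 : (N:ℝ) ^ (13/24:ℝ) * (N:ℝ) ^ (1/25:ℝ) = (N:ℝ) ^ (13/24 + 1/25:ℝ) := by rw [← Real.rpow_add hN0]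
    have e3 : (N:ℝ) ^ (-(13/600):ℝ) * N = (N:ℝ) ^ (-(13/600) + 1:ℝ) := by
      nth_rewrite 2 [← Real.rpow_one (N:ℝ)]
      rw [← Real.rpow_add hN0]
    have e4 : (N:ℝ) ^ (13/24 + 1/25:ℝ) ≤ (N:ℝ) ^ (-(13/600) + 1:ℝ) := Real.rpow_le_rpow_of_exponent_le hN1' (by norm_num)
    have e5 : (1:ℝ) ≤ (M:ℝ)^4 := one_le_pow₀ hM'
    calc ((N:ℝ) ^ (25/48:ℝ)) ^ (26/25:ℝ) * (25 * (N:ℝ) ^ (1/25:ℝ)) = 25 * ((N:ℝ) ^ (13/24:ℝ) * (N:ℝ) ^ (1/25:ℝ)) := by rw [e1]; ring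
      _ ≤ 25 * (N:ℝ) ^ (-(13/600) + 1:ℝ) := by rw [e2]; gcongr
      _ = 25 * (1 * ((N:ℝ) ^ (-(13/600):ℝ) * N)) := by rw [e3]; ring
      _ ≤ 25 * ((M:ℝ)^4 * ((N:ℝ) ^ (-(13/600):ℝ) * N)) := by gcongr
      _ = _ := by ring
  have hG2 : G^2 * N = H^2 * ((M:ℝ)^4 * (N:ℝ) ^ (-(13/600):ℝ) * N) := by
    have : ((N:ℝ) ^ (-(13/1200):ℝ))^2 = (N:ℝ) ^ (-(13/600):ℝ) := by
      rw [← Real.rpow_natCast, ← Real.rpow_mul hN0.le]; norm_num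
    rw [hG, mul_pow, mul_pow, this]; ring
  calc ∑ n ∈ Finset.range N, (E (X + n) - U a φ (X + n) M)^2
      ≤ ∑ n ∈ Finset.range N, 4 * (G^2 + C0^2 * (((N:ℝ) ^ (25/48:ℝ)) ^ (26/25:ℝ) * ((n:ℝ) + 1) ^ (-(24/25):ℝ)) +
        (mid (X + κ₁ * δ) n)^2 + (mid (X + κ₂ * δ) n)^2) := Finset.sum_le_sum hpt
    _ = 4 * (G^2 * N + C0^2 * (((N:ℝ) ^ (25/48:ℝ)) ^ (26/25:ℝ) * ∑ n ∈ Finset.range N, ((n:ℝ) + 1) ^ (-(24/25):ℝ)) +
        ∑ n ∈ Finset.range N, (mid (X + κ₁ * δ) n)^2 + ∑ n ∈ Finset.range N, (mid (X + κ₂ * δ) n)^2) := by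
          rw [← Finset.mul_sum]
          congr 1
          simp only [Finset.sum_add_distrib]
          rw [Finset.sum_const, Finset.card_range, nsmul_eq_mul, ← Finset.mul_sum, ← Finset.mul_sum, mul_comm (N:ℝ)]
    _ ≤ 4 * (H^2 * ((M:ℝ)^4 * (N:ℝ) ^ (-(13/600):ℝ) * N) + C0^2 * (25 * ((M:ℝ)^4 * (N:ℝ) ^ (-(13/600):ℝ) * N)) +
          C1 * N * Tl M + C1 * N * Tl M) := by
          have h3 : ((N:ℝ) ^ (25/48:ℝ)) ^ (26/25:ℝ) * ∑ n ∈ Finset.range N, ((n:ℝ) + 1) ^ (-(24/25):ℝ) ≤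
              25 * ((M:ℝ)^4 * (N:ℝ) ^ (-(13/600):ℝ) * N) := by
            refine le_trans ?_ hE2
            exact mul_le_mul_of_nonneg_left hsum24 (by positivity)
          have h4 := mul_le_mul_of_nonneg_left h3 (sq_nonneg C0)
          linarith
    _ = (8 * C1 * Tl M + (4 * H^2 + 100 * C0^2) * ((M:ℝ)^4 * (N:ℝ) ^ (-(13/600):ℝ))) * N := by ring
    _ ≤ _ := by
          apply mul_le_mul_of_nonneg_right _ hN0.le
          have p1 : 0 ≤ (M:ℝ)^4 * (N:ℝ) ^ (-(13/600):ℝ) := by positivity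
          have p2 : 0 ≤ (4 * H^2 + 100 * C0^2) * Tl M := by positivity
          have p3 : 0 ≤ 8 * C1 * ((M:ℝ)^4 * (N:ℝ) ^ (-(13/600):ℝ)) := by positivity
          nlinarith

end Pool.Agent.N48.Ann
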