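import Mathlib

open MeasureTheory Set Filter Topology

namespace Pool.Agent.N48.Ann

/-- points of the open quadrant in the disc -/
def Qs (n : ℕ) : Finset (ℕ × ℕ) :=
  ((Finset.Icc 1 n) ×ˢ (Finset.Icc 1 n)).filter (fun p => p.1 ^ 2 + p.2 ^ 2 ≤ n)

lemma mem_Qs {n : ℕ} {p : ℕ × ℕ} : p ∈ Qs n ↔ 1 ≤ p.1 ∧ 1 ≤ p.2 ∧ p.1 ^ 2 + p.2 ^ 2 ≤ n := by
  unfold Qs
  rw [Finset.mem_filter, Finset.mem_product, Finset.mem_Icc, Finset.mem_Icc]
  constructor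
  · rintro ⟨⟨⟨h1, _⟩, h3, _⟩, h5⟩
    exact ⟨h1, h3, h5⟩
  · rintro ⟨h1, h3, h5⟩
    have a1 : p.1 ≤ p.1 ^ 2 := Nat.le_self_pow (by norm_num) _
    have a2 : p.2 ≤ p.2 ^ 2 := Nat.le_self_pow (by norm_num) _
    exact ⟨⟨⟨h1, by omega⟩, h3, by omega⟩, h5⟩

lemma Qs_card (n : ℕ) : ((Qs n).card : ℝ) = ∑ s ∈ Finset.Icc 1 (Nat.sqrt n), ((Nat.sqrt (n - s ^ 2) : ℕ) : ℝ) := by
  have h : (Qs n).card = ∑ s ∈ Finset.Icc 1 (Nat.sqrt n), Nat.sqrt (n - s ^ 2) := by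
    rw [Finset.card_eq_sum_card_fiberwise (f := fun p => p.1) (t := Finset.Icc 1 (Nat.sqrt n))]
    · apply Finset.sum_congr rfl
      intro s hs
      rw [Finset.mem_Icc] at hs
      have hs2 : s ^ 2 ≤ n := by
        have := Nat.le_sqrt'.mp hs.2
        exact this
      have : (Qs n).filter (fun p => p.1 = s) = (Finset.Icc 1 (Nat.sqrt (n - s ^ 2))).image (fun t => (s, t)) := by
        ext p
        rw [Finset.mem_filter, mem_Qs, Finset.mem_image]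
        constructor
        · rintro ⟨⟨h1, h2, h3⟩, h4⟩
          refine ⟨p.2, ?_, ?_⟩
          · rw [Finset.mem_Icc]
            refine ⟨h2, ?_⟩
            rw [Nat.le_sqrt']
            rw [h4] at h3
            omega
          · rw [← h4]
        · rintro ⟨t, ht, rfl⟩
          rw [Finset.mem_Icc, Nat.le_sqrt'] at ht
          refine ⟨⟨hs.1, ht.1, ?_⟩, rfl⟩
          simp only
          omega
      rw [this, Finset.card_image_of_injective _ (fun a b h => by simpa using h), Nat.card_Icc]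
      omega
    · intro p hp
      rw [Finset.mem_coe, mem_Qs] at hp
      rw [Finset.mem_coe, Finset.mem_Icc]
      refine ⟨hp.1, ?_⟩
      rw [Nat.le_sqrt']
      have := hp.2.2
      have : 0 ≤ p.2 ^ 2 := Nat.zero_le _
      show p.1 ^ 2 ≤ n
      omega
  rw [h]
  push_cast
  rfl

lemma integral_quarter {X : ℝ} (hX : 0 ≤ X) : ∫ x in (0:ℝ)..X, √(X ^ 2 - x ^ 2) = Real.pi / 4 * X ^ 2 := by
  rcases hX.eq_or_lt with rfl | hX
  · simp
  have h1 : ∫ x in (-1:ℝ)..1, √(1 - x ^ 2) = Real.pi / 2 := integral_sqrt_one_sub_sq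
  have h2 : ∫ x in (-1:ℝ)..1, √(1 - x ^ 2) = 2 * ∫ x in (0:ℝ)..1, √(1 - x ^ 2) := by
    have hc : Continuous (fun x : ℝ => √(1 - x ^ 2)) := by fun_prop
    rw [← intervalIntegral.integral_add_adjacent_intervals (a := (-1:ℝ)) (b := 0) (c := 1)
      (hc.intervalIntegrable _ _) (hc.intervalIntegrable _ _)]
    have h3 : ∫ x in (-1:ℝ)..0, √(1 - x ^ 2) = ∫ x in (0:ℝ)..1, √(1 - x ^ 2) := by
      have := intervalIntegral.integral_comp_neg (a := (0:ℝ)) (b := 1) (fun x : ℝ => √(1 - x ^ 2))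
      simp only [neg_zero, even_two.neg_pow] at this
      rw [← this]
    rw [h3]; ring
  have h3 : ∫ x in (0:ℝ)..1, √(1 - x ^ 2) = Real.pi / 4 := by linarith
  have h4 : ∫ x in (0:ℝ)..X, √(X ^ 2 - x ^ 2) = X * ∫ x in (0:ℝ)..1, √(X ^ 2 - (X * x) ^ 2) := by
    have := intervalIntegral.mul_integral_comp_mul_left (a := (0:ℝ)) (b := 1) (f := fun x => √(X ^ 2 - x ^ 2)) X
    rw [mul_zero, mul_one] at this
    rw [← this]
  have h5 : ∫ x in (0:ℝ)..1, √(X ^ 2 - (X * x) ^ 2) = X * ∫ x in (0:ℝ)..1, √(1 - x ^ 2) := by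
    rw [← intervalIntegral.integral_const_mul]
    congr 1
    funext x
    have : X ^ 2 - (X * x) ^ 2 = X ^ 2 * (1 - x ^ 2) := by ring
    rw [this, Real.sqrt_mul (by positivity), Real.sqrt_sq hX.le]
  rw [h4, h5, h3]; ring

lemma Qs_asymp (n : ℕ) : |((Qs n).card : ℝ) - Real.pi / 4 * n| ≤ 4 * √(n:ℝ) := by
  set X : ℝ := √(n:ℝ) with hX
  have hX0 : 0 ≤ X := Real.sqrt_nonneg _
  have hXs : X ^ 2 = n := Real.sq_sqrt (Nat.cast_nonneg n)
  set S : ℕ := Nat.sqrt n with hS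
  have hSX : (S:ℝ) ≤ X := Real.nat_sqrt_le_real_sqrt
  have hXS : X < S + 1 := Real.real_sqrt_lt_nat_sqrt_succ
  set f : ℝ → ℝ := fun x => √(X ^ 2 - x ^ 2) with hf
  have hfc : Continuous f := by simp only [hf]; fun_prop
  have hanti : AntitoneOn f (Icc 0 (0 + (S:ℝ))) := by
    intro x hx y hy hxy
    simp only [hf]
    apply Real.sqrt_le_sqrt
    have : x ^ 2 ≤ y ^ 2 := pow_le_pow_left₀ hx.1 hxy 2
    linarith
  have hf0 : f 0 = X := by simp only [hf]; rw [zero_pow (by norm_num), sub_zero, Real.sqrt_sq hX0]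
  have hfn : ∀ x, 0 ≤ f x := fun x => Real.sqrt_nonneg _
  have hfle : ∀ x, f x ≤ X := by
    intro x
    simp only [hf]
    rw [Real.sqrt_le_left hX0]
    nlinarith [sq_nonneg x]
  have u1 := hanti.sum_le_integral
  have u2 := hanti.integral_le_sum
  simp only [zero_add] at u1 u2
  have hint : ∫ x in (0:ℝ)..X, f x = Real.pi / 4 * n := by
    simp only [hf]; rw [integral_quarter hX0, hXs]
  have hsplit : ∫ x in (0:ℝ)..X, f x = (∫ x in (0:ℝ)..S, f x) + ∫ x in (S:ℝ)..X, f x := by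
    rw [intervalIntegral.integral_add_adjacent_intervals (hfc.intervalIntegrable _ _) (hfc.intervalIntegrable _ _)]
  have hrest0 : 0 ≤ ∫ x in (S:ℝ)..X, f x := intervalIntegral.integral_nonneg hSX (fun x _ => hfn x)
  have hrest1 : ∫ x in (S:ℝ)..X, f x ≤ X := by
    have h1 : ∫ x in (S:ℝ)..X, f x ≤ ∫ x in (S:ℝ)..X, X :=
      intervalIntegral.integral_mono_on hSX (hfc.intervalIntegrable _ _) (by simp) (fun x _ => hfle x)
    rw [intervalIntegral.integral_const, smul_eq_mul] at h1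
    nlinarith
  -- the floor
  have hfl : ∀ s ∈ Finset.Icc 1 S, ((Nat.sqrt (n - s ^ 2) : ℕ) : ℝ) ≤ f s ∧ f s ≤ ((Nat.sqrt (n - s ^ 2) : ℕ) : ℝ) + 1 := by
    intro s hs
    rw [Finset.mem_Icc] at hs
    have hs2 : s ^ 2 ≤ n := Nat.le_sqrt'.mp hs.2
    have e : f s = √((n - s ^ 2 : ℕ) : ℝ) := by
      simp only [hf]
      rw [Nat.cast_sub hs2, hXs]; push_cast; rfl
    rw [e]
    exact ⟨Real.nat_sqrt_le_real_sqrt, Real.real_sqrt_lt_nat_sqrt_succ.le⟩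
  have hsum1 : ∑ s ∈ Finset.Icc 1 S, f s = ∑ i ∈ Finset.range S, f ((i + 1 : ℕ) : ℝ) := by
    rw [Finset.range_eq_Ico, Finset.sum_Ico_add' (fun i : ℕ => f (i:ℝ)) 0 S 1]
    apply Finset.sum_congr _ (fun _ _ => rfl)
    ext k; simp only [Finset.mem_Icc, Finset.mem_Ico]; omega
  have hsum2 : ∑ i ∈ Finset.range S, f (i : ℝ) ≤ X + ∑ i ∈ Finset.range S, f ((i + 1 : ℕ) : ℝ) := by
    have h1 : ∑ i ∈ Finset.range (S + 1), f (i : ℝ) = f ((0:ℕ):ℝ) + ∑ i ∈ Finset.range S, f ((i + 1 : ℕ) : ℝ) := by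
      rw [Finset.sum_range_succ' (fun i : ℕ => f (i:ℝ)), add_comm]
    rw [Finset.sum_range_succ] at h1
    rw [Nat.cast_zero, hf0] at h1
    have := hfn S
    linarith
  have hA : ((Qs n).card : ℝ) ≤ ∑ s ∈ Finset.Icc 1 S, f s := by
    rw [Qs_card]; exact Finset.sum_le_sum (fun s hs => (hfl s hs).1)
  have hB : ∑ s ∈ Finset.Icc 1 S, f s ≤ ((Qs n).card : ℝ) + S := by
    rw [Qs_card]
    calc _ ≤ ∑ s ∈ Finset.Icc 1 S, (((Nat.sqrt (n - s ^ 2) : ℕ) : ℝ) + 1) := Finset.sum_le_sum (fun s hs => (hfl s hs).2)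
      _ = _ := by rw [Finset.sum_add_distrib]; simp [hS]
  rw [abs_le]
  constructor
  · rw [← hsum1] at hsum2; linarith
  · rw [hsum1] at hA; linarith

/-- points of the quadrant in a class modulo 2 -/
def Qc (a b n : ℕ) : Finset (ℕ × ℕ) := (Qs n).filter (fun p => p.1 % 2 = a ∧ p.2 % 2 = b)

lemma mem_Qc {a b n : ℕ} {p : ℕ × ℕ} : p ∈ Qc a b n ↔
    (1 ≤ p.1 ∧ 1 ≤ p.2 ∧ p.1 ^ 2 + p.2 ^ 2 ≤ n) ∧ p.1 % 2 = a ∧ p.2 % 2 = b := by
  unfold Qc
  rw [Finset.mem_filter, mem_Qs]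

lemma Qc_lower {a b : ℕ} (ha : a < 2) (hb : b < 2) (n : ℕ) : (Qs (n / 4)).card ≤ (Qc a b n).card := by
  apply Finset.card_le_card_of_injOn (fun p => (2 * p.1 - a, 2 * p.2 - b))
  · intro p hp
    rw [Finset.mem_coe, mem_Qs] at hp
    rw [Finset.mem_coe, mem_Qc]
    obtain ⟨h1, h2, h3⟩ := hp
    simp only
    have h4 : 4 * (p.1 ^ 2 + p.2 ^ 2) ≤ n := by omega
    refine ⟨⟨by omega, by omega, ?_⟩, by omega, by omega⟩
    have a1 : (2 * p.1 - a) ^ 2 ≤ (2 * p.1) ^ 2 := Nat.pow_le_pow_left (by omega) 2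
    have a2 : (2 * p.2 - b) ^ 2 ≤ (2 * p.2) ^ 2 := Nat.pow_le_pow_left (by omega) 2
    rw [mul_pow] at a1 a2
    omega
  · intro p hp q hq h
    rw [Finset.mem_coe, mem_Qs] at hp hq
    simp only [Prod.mk.injEq] at h
    apply Prod.ext <;> omega

lemma Qc_upper {a b : ℕ} (n : ℕ) : (Qc a b n).card ≤ (Qs (n / 4 + Nat.sqrt n + 1)).card := by
  apply Finset.card_le_card_of_injOn (fun p => ((p.1 + 1) / 2, (p.2 + 1) / 2))
  · intro p hp
    rw [Finset.mem_coe, mem_Qc] at hp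
    rw [Finset.mem_coe, mem_Qs]
    obtain ⟨⟨h1, h2, h3⟩, h4, h5⟩ := hp
    simp only
    refine ⟨by omega, by omega, ?_⟩
    have s1 : p.1 ≤ Nat.sqrt n := by
      rw [Nat.le_sqrt']
      have : 0 ≤ p.2 ^ 2 := Nat.zero_le _
      omega
    have s2 : p.2 ≤ Nat.sqrt n := by
      rw [Nat.le_sqrt']
      have : 0 ≤ p.1 ^ 2 := Nat.zero_le _
      omega
    have t1 : 4 * ((p.1 + 1) / 2) ^ 2 ≤ (p.1 + 1) ^ 2 := by
      have : 2 * ((p.1 + 1) / 2) ≤ p.1 + 1 := by omega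
      calc 4 * ((p.1 + 1) / 2) ^ 2 = (2 * ((p.1 + 1) / 2)) ^ 2 := by ring
        _ ≤ _ := Nat.pow_le_pow_left this 2
    have t2 : 4 * ((p.2 + 1) / 2) ^ 2 ≤ (p.2 + 1) ^ 2 := by
      have : 2 * ((p.2 + 1) / 2) ≤ p.2 + 1 := by omega
      calc 4 * ((p.2 + 1) / 2) ^ 2 = (2 * ((p.2 + 1) / 2)) ^ 2 := by ring
        _ ≤ _ := Nat.pow_le_pow_left this 2
    have t3 : (p.1 + 1) ^ 2 = p.1 ^ 2 + 2 * p.1 + 1 := by ring
    have t4 : (p.2 + 1) ^ 2 = p.2 ^ 2 + 2 * p.2 + 1 := by ring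
    rw [t3] at t1
    rw [t4] at t2
    omega
  · intro p hp q hq h
    rw [Finset.mem_coe, mem_Qc] at hp hq
    simp only [Prod.mk.injEq] at h
    apply Prod.ext <;> omega

lemma Qc_asymp {a b : ℕ} (ha : a < 2) (hb : b < 2) (n : ℕ) : |((Qc a b n).card : ℝ) - Real.pi / 16 * n| ≤ 20 * √(n:ℝ) := by
  rcases Nat.eq_zero_or_pos n with rfl | hn
  · have : Qc a b 0 = ∅ := by
      ext p
      rw [mem_Qc]
      simp only [Finset.notMem_empty, iff_false]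
      rintro ⟨⟨h1, h2, h3⟩, _⟩
      have : 1 ≤ p.1 ^ 2 := Nat.one_le_pow _ _ h1
      omega
    rw [this]; simp
  have hn1 : (1:ℝ) ≤ n := by exact_mod_cast hn
  have hs1 : 1 ≤ √(n:ℝ) := by rw [Real.one_le_sqrt]; exact hn1
  have hpi := Real.pi_pos
  have hpi4 := Real.pi_lt_four
  have l1 : ((Qs (n / 4)).card : ℝ) ≤ ((Qc a b n).card : ℝ) := by exact_mod_cast Qc_lower ha hb n
  have l2 : ((Qc a b n).card : ℝ) ≤ ((Qs (n / 4 + Nat.sqrt n + 1)).card : ℝ) := by exact_mod_cast Qc_upper n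
  have a1 := (abs_le.mp (Qs_asymp (n / 4))).1
  have a2 := (abs_le.mp (Qs_asymp (n / 4 + Nat.sqrt n + 1))).2
  have b1 : (n:ℝ) / 4 - 1 ≤ ((n / 4 : ℕ) : ℝ) := by
    have : n < 4 * (n / 4 + 1) := by omega
    have : (n:ℝ) < 4 * (((n / 4 : ℕ):ℝ) + 1) := by exact_mod_cast this
    linarith
  have b2 : ((n / 4 : ℕ) : ℝ) ≤ n / 4 := Nat.cast_div_le
  have b3 : ((Nat.sqrt n : ℕ) : ℝ) ≤ √(n:ℝ) := Real.nat_sqrt_le_real_sqrt
  have c1 : √((n / 4 : ℕ) : ℝ) ≤ √(n:ℝ) := Real.sqrt_le_sqrt (by linarith)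
  have c2 : √((n / 4 + Nat.sqrt n + 1 : ℕ) : ℝ) ≤ 2 * √(n:ℝ) := by
    rw [Real.sqrt_le_left (by positivity), mul_pow, Real.sq_sqrt (by positivity)]
    push_cast
    have : √(n:ℝ) ≤ n := by
      rw [Real.sqrt_le_left (by positivity)]; nlinarith
    linarith
  push_cast at a2 c2
  rw [abs_le]
  constructor
  · nlinarith
  · nlinarith

end Pool.Agent.N48.Ann
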