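import Mathlib

open MeasureTheory Set Filter Topology ArithmeticFunction

namespace Pool.Agent.N48.Ann

lemma odd_zeta : HasSum (fun n : ℕ => if n % 2 = 1 then 1 / (n:ℝ) ^ 2 else 0) (Real.pi ^ 2 / 8) := by
  have h1 := hasSum_zeta_two
  have h2 : HasSum (fun n : ℕ => if n % 2 = 0 then 1 / (n:ℝ) ^ 2 else 0) (Real.pi ^ 2 / 24) := by
    have hinj : Function.Injective (fun n : ℕ => 2 * n) := fun a b h => by
      simp only at h; omega
    rw [← hinj.hasSum_iff]
    · have h3 := h1.mul_left (1/4 : ℝ)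
      have e : (1/4 : ℝ) * (Real.pi ^ 2 / 6) = Real.pi ^ 2 / 24 := by ring
      rw [e] at h3
      refine h3.congr_fun ?_
      intro n
      simp only [Function.comp_apply]
      rw [if_pos (by omega)]
      push_cast
      rcases Nat.eq_zero_or_pos n with rfl | hn
      · simp
      · have : (n:ℝ) ≠ 0 := by positivity
        field_simp
        ring
    · intro n hn
      rw [if_neg]
      intro h
      exact hn ⟨n / 2, by simp only; omega⟩
  have h3 := h1.sub h2
  have e : Real.pi ^ 2 / 6 - Real.pi ^ 2 / 24 = Real.pi ^ 2 / 8 := by ring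
  rw [e] at h3
  refine h3.congr_fun ?_
  intro n
  rcases Nat.mod_two_eq_zero_or_one n with h | h
  · rw [if_neg (by omega), if_pos h]; ring
  · rw [if_pos h, if_neg (by omega)]; ring

lemma chi_two (n : ℕ) : (1 : DirichletCharacter ℂ 2) (n : ZMod 2) = if n % 2 = 1 then 1 else 0 := by
  by_cases h : n % 2 = 1
  · rw [if_pos h]
    have : (n : ZMod 2) = 1 := by
      rw [← Nat.mod_add_div n 2, h]
      push_cast
      have : (2 : ZMod 2) = 0 := by decide
      rw [this]; ring
    rw [this, MulChar.one_apply isUnit_one]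
  · rw [if_neg h]
    have : (n : ZMod 2) = 0 := by
      rw [← Nat.mod_add_div n 2, show n % 2 = 0 by omega]
      push_cast
      have : (2 : ZMod 2) = 0 := by decide
      rw [this]; ring
    rw [this, MulChar.map_nonunit]
    exact not_isUnit_zero

lemma mu_odd_summable : Summable (fun n : ℕ => if n % 2 = 1 then ((ArithmeticFunction.moebius n : ℤ) : ℝ) / (n:ℝ) ^ 2 else 0) := by
  apply Summable.of_norm_bounded hasSum_zeta_two.summable
  intro n
  split_ifs
  · rw [norm_div, norm_pow, Real.norm_natCast, Real.norm_eq_abs]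
    have : |((ArithmeticFunction.moebius n : ℤ) : ℝ)| ≤ 1 := by
      rw [← Int.cast_abs]
      exact_mod_cast ArithmeticFunction.abs_moebius_le_one
    gcongr
  · simp

theorem mu_odd : HasSum (fun n : ℕ => if n % 2 = 1 then ((ArithmeticFunction.moebius n : ℤ) : ℝ) / (n:ℝ) ^ 2 else 0) (8 / Real.pi ^ 2) := by
  have hs := mu_odd_summable
  have h0 := DirichletCharacter.LSeries.mul_mu_eq_one (1 : DirichletCharacter ℂ 2) (s := 2) (by norm_num)
  have e1 : LSeries (fun n => (1 : DirichletCharacter ℂ 2) (n : ZMod 2)) 2 = ((Real.pi ^ 2 / 8 : ℝ) : ℂ) := by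
    unfold LSeries
    rw [← odd_zeta.tsum_eq, Complex.ofReal_tsum]
    apply tsum_congr
    intro n
    rw [LSeries.term_def]
    rcases Nat.eq_zero_or_pos n with rfl | hn
    · simp
    · rw [if_neg hn.ne', chi_two]
      split_ifs
      · push_cast
        have : ((n:ℂ) ^ (2:ℂ)) = (n:ℂ) ^ 2 := by
          rw [show (2:ℂ) = ((2:ℕ):ℂ) by norm_num, Complex.cpow_natCast]
        rw [this]
      · simp
  have e2 : LSeries (fun n => (1 : DirichletCharacter ℂ 2) (n : ZMod 2) * ((ArithmeticFunction.moebius n : ℤ) : ℂ)) 2 =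
      ((∑' n : ℕ, (if n % 2 = 1 then ((ArithmeticFunction.moebius n : ℤ) : ℝ) / (n:ℝ) ^ 2 else 0) : ℝ) : ℂ) := by
    unfold LSeries
    rw [Complex.ofReal_tsum]
    apply tsum_congr
    intro n
    rw [LSeries.term_def]
    rcases Nat.eq_zero_or_pos n with rfl | hn
    · simp
    · rw [if_neg hn.ne', chi_two]
      split_ifs
      · push_cast
        have : ((n:ℂ) ^ (2:ℂ)) = (n:ℂ) ^ 2 := by
          rw [show (2:ℂ) = ((2:ℕ):ℂ) by norm_num, Complex.cpow_natCast]
        rw [this]; ring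
      · simp
  have h1 : ((Real.pi ^ 2 / 8 : ℝ) : ℂ) *
      ((∑' n : ℕ, (if n % 2 = 1 then ((ArithmeticFunction.moebius n : ℤ) : ℝ) / (n:ℝ) ^ 2 else 0) : ℝ) : ℂ) = 1 := by
    rw [← e1, ← e2]
    exact h0
  have h2 : (Real.pi ^ 2 / 8) * (∑' n : ℕ, (if n % 2 = 1 then ((ArithmeticFunction.moebius n : ℤ) : ℝ) / (n:ℝ) ^ 2 else 0)) = 1 := by
    exact_mod_cast h1
  have hpi := Real.pi_pos
  have h3 : (∑' n : ℕ, (if n % 2 = 1 then ((ArithmeticFunction.moebius n : ℤ) : ℝ) / (n:ℝ) ^ 2 else 0)) = 8 / Real.pi ^ 2 := by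
    rw [eq_div_iff (by positivity)]
    linarith
  rw [← h3]
  exact hs.hasSum

end Pool.Agent.N48.Ann
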