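import Mathlib
import Pool.Agent.N48.Ann.NT1
import Pool.Agent.N48.Ann.NT2

open MeasureTheory Set Filter Topology ArithmeticFunction

namespace Pool.Agent.N48.Ann

lemma sum_inv_sqrt (n : ℕ) : ∑ g ∈ Finset.Icc 1 n, (1:ℝ) / √(g:ℝ) ≤ 2 * √(n:ℝ) := by
  induction n with
  | zero => simp
  | succ n ih =>
    rw [Finset.sum_Icc_succ_top (by omega)]
    have h1 : (0:ℝ) ≤ n := Nat.cast_nonneg n
    set a := √(n:ℝ) with ha
    set b := √((n+1:ℕ):ℝ) with hb
    have ha2 : a ^ 2 = n := Real.sq_sqrt h1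
    have hb2 : b ^ 2 = n + 1 := by rw [hb, Real.sq_sqrt (by positivity)]; push_cast; ring
    have ha0 : 0 ≤ a := Real.sqrt_nonneg _
    have hb0 : 0 < b := Real.sqrt_pos.mpr (by positivity)
    have hab : a ≤ b := Real.sqrt_le_sqrt (by push_cast; linarith)
    have : 1 / b ≤ 2 * (b - a) := by
      rw [div_le_iff₀ hb0]
      nlinarith
    linarith

lemma Qc_div {a b : ℕ} (ha : a < 2) (hb : b < 2) {y d g : ℕ} (hd : 1 ≤ d) (hg : 1 ≤ g) (h : g ≤ y / d) :
    |((Qc a b (y / d / g)).card : ℝ) - Real.pi / 16 * ((y:ℝ) / d * (1 / g))| ≤ 21 * √((y:ℝ) / d) * (1 / √(g:ℝ)) := by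
  have hpi := Real.pi_pos
  have hpi4 := Real.pi_lt_four
  have hd0 : (0:ℝ) < d := by exact_mod_cast hd
  have hg0 : (0:ℝ) < g := by exact_mod_cast hg
  have hdg : g * d ≤ y := by rw [Nat.le_div_iff_mul_le (by omega)] at h; exact h
  set w : ℝ := (y:ℝ) / d * (1 / g) with hw
  have hw' : w = (y:ℝ) / ((d * g : ℕ) : ℝ) := by rw [hw]; push_cast; field_simp
  have hw1 : 1 ≤ w := by
    rw [hw', one_le_div (by positivity)]
    have : d * g ≤ y := by rw [mul_comm]; exact hdg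
    exact_mod_cast this
  have e1 : y / d / g = y / (d * g) := Nat.div_div_eq_div_mul y d g
  have h1 := Qc_asymp ha hb (y / d / g)
  rw [e1] at h1 ⊢
  have f1 : ((y / (d * g) : ℕ) : ℝ) ≤ w := by rw [hw']; exact Nat.cast_div_le
  have f2 : w - 1 ≤ ((y / (d * g) : ℕ) : ℝ) := by
    have : y < (d * g) * (y / (d * g) + 1) := Nat.lt_mul_div_succ y (by positivity)
    have h3 : (y:ℝ) < ((d * g : ℕ):ℝ) * (((y / (d * g) : ℕ):ℝ) + 1) := by exact_mod_cast this
    have h4 : w < ((y / (d * g) : ℕ):ℝ) + 1 := by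
      rw [hw', div_lt_iff₀ (by positivity)]; linarith
    linarith
  have hsw : √((y:ℝ) / d) * (1 / √(g:ℝ)) = √w := by
    rw [hw, Real.sqrt_mul (by positivity), Real.sqrt_div (by norm_num : (0:ℝ) ≤ 1), Real.sqrt_one]
  rw [mul_assoc, hsw]
  have hs1 : 1 ≤ √w := by rw [Real.one_le_sqrt]; exact hw1
  have hs2 : √(((y / (d * g) : ℕ) : ℝ)) ≤ √w := Real.sqrt_le_sqrt f1
  obtain ⟨h1a, h1b⟩ := abs_le.mp h1
  rw [abs_le]
  constructor
  · nlinarith
  · nlinarith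

lemma LQ_asymp {a b : ℕ} (ha : a < 2) (hb : b < 2) {y d : ℕ} (hd : 1 ≤ d) (hdy : d ≤ y) :
    |∑ g ∈ Finset.Icc 1 (y / d), ((Qc a b (y / d / g)).card : ℝ) - Real.pi / 16 * ((y:ℝ) / d) * Real.log ((y:ℝ) / d)| ≤
      43 * ((y:ℝ) / d) := by
  have hpi := Real.pi_pos
  have hpi4 := Real.pi_lt_four
  have hd0 : (0:ℝ) < d := by exact_mod_cast hd
  set w : ℝ := (y:ℝ) / d with hw
  have hw1 : 1 ≤ w := by rw [hw, one_le_div hd0]; exact_mod_cast hdy
  have hfl : ⌊w⌋₊ = y / d := by rw [hw]; exact Nat.floor_div_eq_div y d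
  have h1 : |∑ g ∈ Finset.Icc 1 (y / d), ((Qc a b (y / d / g)).card : ℝ) -
      ∑ g ∈ Finset.Icc 1 (y / d), Real.pi / 16 * (w * (1 / g))| ≤ 42 * w := by
    rw [← Finset.sum_sub_distrib]
    refine (Finset.abs_sum_le_sum_abs _ _).trans ?_
    calc ∑ g ∈ Finset.Icc 1 (y / d), |((Qc a b (y / d / g)).card : ℝ) - Real.pi / 16 * (w * (1 / g))|
        ≤ ∑ g ∈ Finset.Icc 1 (y / d), 21 * √w * (1 / √(g:ℝ)) := by
          apply Finset.sum_le_sum
          intro g hg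
          rw [Finset.mem_Icc] at hg
          exact Qc_div ha hb hd hg.1 hg.2
      _ = 21 * √w * ∑ g ∈ Finset.Icc 1 (y / d), (1 / √(g:ℝ)) := by rw [Finset.mul_sum]
      _ ≤ 21 * √w * (2 * √((y / d : ℕ):ℝ)) := mul_le_mul_of_nonneg_left (sum_inv_sqrt _) (by positivity)
      _ ≤ 21 * √w * (2 * √w) := by
          apply mul_le_mul_of_nonneg_left _ (by positivity)
          have : ((y / d : ℕ):ℝ) ≤ w := by rw [hw]; exact Nat.cast_div_le
          have := Real.sqrt_le_sqrt this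
          linarith
      _ = 42 * (√w * √w) := by ring
      _ = 42 * w := by rw [Real.mul_self_sqrt (by linarith)]
  have h2 : ∑ g ∈ Finset.Icc 1 (y / d), Real.pi / 16 * (w * (1 / (g:ℝ))) = Real.pi / 16 * w * (harmonic ⌊w⌋₊ : ℝ) := by
    rw [hfl, harmonic_eq_sum_Icc]
    push_cast
    rw [Finset.mul_sum]
    apply Finset.sum_congr rfl
    intro g _
    rw [one_div]; ring
  have h3 : (harmonic ⌊w⌋₊ : ℝ) ≤ 1 + Real.log w := harmonic_floor_le_one_add_log w hw1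
  have h4 : Real.log w ≤ (harmonic ⌊w⌋₊ : ℝ) := log_le_harmonic_floor w (by linarith)
  rw [h2] at h1
  obtain ⟨h1a, h1b⟩ := abs_le.mp h1
  rw [abs_le]
  have h5 : Real.pi / 16 * w * (harmonic ⌊w⌋₊ : ℝ) ≤ Real.pi / 16 * w * (1 + Real.log w) :=
    mul_le_mul_of_nonneg_left h3 (by positivity)
  have h6 : Real.pi / 16 * w * Real.log w ≤ Real.pi / 16 * w * (harmonic ⌊w⌋₊ : ℝ) :=
    mul_le_mul_of_nonneg_left h4 (by positivity)
  constructor
  · linarith
  · nlinarith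

/-- coprime points of the class -/
def Qp (a b n : ℕ) : Finset (ℕ × ℕ) := (Qc a b n).filter (fun p => Nat.Coprime p.1 p.2)

lemma Qc_mult {a b : ℕ} (n : ℕ) {e : ℕ} (he : e % 2 = 1) :
    ((Qc a b n).filter (fun p => e ∣ p.1 ∧ e ∣ p.2)).card = (Qc a b (n / e ^ 2)).card := by
  have he0 : 0 < e := by omega
  symm
  apply Finset.card_bij (fun p _ => (e * p.1, e * p.2))
  · intro p hp
    rw [mem_Qc] at hp
    rw [Finset.mem_filter, mem_Qc]
    obtain ⟨⟨h1, h2, h3⟩, h4, h5⟩ := hp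
    rw [Nat.le_div_iff_mul_le (by positivity)] at h3
    refine ⟨⟨⟨?_, ?_, ?_⟩, ?_, ?_⟩, dvd_mul_right _ _, dvd_mul_right _ _⟩
    · simp only; nlinarith
    · simp only; nlinarith
    · simp only; nlinarith
    · simp only; rw [Nat.mul_mod, he, h4]; omega
    · simp only; rw [Nat.mul_mod, he, h5]; omega
  · intro p _ q _ h
    simp only [Prod.mk.injEq] at h
    exact Prod.ext (Nat.eq_of_mul_eq_mul_left he0 h.1) (Nat.eq_of_mul_eq_mul_left he0 h.2)
  · intro p hp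
    rw [Finset.mem_filter, mem_Qc] at hp
    obtain ⟨⟨⟨h1, h2, h3⟩, h4, h5⟩, ⟨s, hs⟩, ⟨t, ht⟩⟩ := hp
    refine ⟨(s, t), ?_, ?_⟩
    · rw [mem_Qc]
      rw [hs, ht] at h3
      rw [hs] at h1 h4
      rw [ht] at h2 h5
      rw [Nat.mul_mod, he] at h4 h5
      refine ⟨⟨?_, ?_, ?_⟩, by simp only; omega, by simp only; omega⟩
      · by_contra hc
        simp only at hc
        have : s = 0 := by omega
        rw [this] at h1; omega
      · by_contra hc
        simp only at hc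
        have : t = 0 := by omega
        rw [this] at h2; omega
      · rw [Nat.le_div_iff_mul_le (by positivity)]
        simp only
        nlinarith
    · exact Prod.ext hs.symm ht.symm

lemma sum_mu (n : ℕ) : ∑ e ∈ n.divisors, (ArithmeticFunction.moebius e : ℤ) = if n = 1 then 1 else 0 := by
  have h := congrArg (fun f => f n) ArithmeticFunction.coe_zeta_mul_moebius
  simp only [ArithmeticFunction.coe_zeta_mul_apply, ArithmeticFunction.one_apply] at h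
  exact h

lemma Qp_sieve {a b : ℕ} (_ha : a < 2) (_hb : b < 2) (hab : a + b ≠ 0) (n : ℕ) {Y : ℕ} (hY : Nat.sqrt n ≤ Y) :
    ((Qp a b n).card : ℝ) = ∑ e ∈ (Finset.Icc 1 Y).filter (fun e => e % 2 = 1),
      ((ArithmeticFunction.moebius e : ℤ) : ℝ) * ((Qc a b (n / e ^ 2)).card : ℝ) := by
  classical
  set T := (Finset.Icc 1 Y).filter (fun e => e % 2 = 1) with hT
  have h1 : ((Qp a b n).card : ℤ) = ∑ p ∈ Qc a b n, ∑ e ∈ T, if (e ∣ p.1 ∧ e ∣ p.2) then (ArithmeticFunction.moebius e : ℤ) else 0 := by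
    unfold Qp
    rw [Finset.card_filter]
    push_cast
    apply Finset.sum_congr rfl
    intro p hp
    rw [mem_Qc] at hp
    obtain ⟨⟨h1, h2, h3⟩, h4, h5⟩ := hp
    rw [← Finset.sum_filter]
    have h6 : T.filter (fun e => e ∣ p.1 ∧ e ∣ p.2) = (Nat.gcd p.1 p.2).divisors := by
      ext e
      rw [Finset.mem_filter, hT, Finset.mem_filter, Finset.mem_Icc, Nat.mem_divisors]
      constructor
      · rintro ⟨_, h7, h8⟩
        exact ⟨Nat.dvd_gcd h7 h8, Nat.gcd_ne_zero_left (by omega)⟩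
      · rintro ⟨h7, h8⟩
        have h9 : e ∣ p.1 := h7.trans (Nat.gcd_dvd_left _ _)
        have h10 : e ∣ p.2 := h7.trans (Nat.gcd_dvd_right _ _)
        have h11 : e ≤ p.1 := Nat.le_of_dvd (by omega) h9
        have h12 : p.1 ≤ Nat.sqrt n := by
          rw [Nat.le_sqrt']
          have : 0 ≤ p.2 ^ 2 := Nat.zero_le _
          omega
        refine ⟨⟨⟨Nat.pos_of_dvd_of_pos h9 (by omega), by omega⟩, ?_⟩, h9, h10⟩
        by_contra hc
        have h13 : 2 ∣ e := by omega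
        have h14 : 2 ∣ p.1 := h13.trans h9
        have h15 : 2 ∣ p.2 := h13.trans h10
        omega
    rw [h6, sum_mu]
  rw [Finset.sum_comm] at h1
  have h2 : ((Qp a b n).card : ℝ) = (((Qp a b n).card : ℤ) : ℝ) := by push_cast; rfl
  rw [h2, h1]
  push_cast
  apply Finset.sum_congr rfl
  intro e he
  rw [hT, Finset.mem_filter] at he
  rw [← Finset.sum_filter, Finset.sum_const, Qc_mult n he.2, nsmul_eq_mul]
  ring

/-- the number of triples -/
def Lp (a b y : ℕ) : ℕ := ∑ g ∈ Finset.Icc 1 y, (Qp a b (y / g)).card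

lemma Lp_eq {a b : ℕ} (ha : a < 2) (hb : b < 2) (hab : a + b ≠ 0) (y : ℕ) :
    (Lp a b y : ℝ) = ∑ e ∈ (Finset.Icc 1 (Nat.sqrt y)).filter (fun e => e % 2 = 1),
      ((ArithmeticFunction.moebius e : ℤ) : ℝ) * ∑ g ∈ Finset.Icc 1 (y / e ^ 2), ((Qc a b (y / e ^ 2 / g)).card : ℝ) := by
  unfold Lp
  push_cast
  have h1 : ∀ g ∈ Finset.Icc 1 y, ((Qp a b (y / g)).card : ℝ) = ∑ e ∈ (Finset.Icc 1 (Nat.sqrt y)).filter (fun e => e % 2 = 1),
      ((ArithmeticFunction.moebius e : ℤ) : ℝ) * ((Qc a b (y / g / e ^ 2)).card : ℝ) := by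
    intro g _
    exact Qp_sieve ha hb hab (y / g) (Nat.sqrt_le_sqrt (Nat.div_le_self y g))
  rw [Finset.sum_congr rfl h1, Finset.sum_comm]
  apply Finset.sum_congr rfl
  intro e he
  rw [Finset.mem_filter, Finset.mem_Icc] at he
  rw [← Finset.mul_sum]
  congr 1
  symm
  have hsub : Finset.Icc 1 (y / e ^ 2) ⊆ Finset.Icc 1 y := Finset.Icc_subset_Icc_right (Nat.div_le_self _ _)
  have h2 : ∀ g, y / g / e ^ 2 = y / e ^ 2 / g := fun g => by
    rw [Nat.div_div_eq_div_mul, Nat.div_div_eq_div_mul, mul_comm]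
  simp only [h2]
  apply Finset.sum_subset hsub
  intro g hg hg2
  rw [Finset.mem_Icc] at hg hg2
  have h3 : y / e ^ 2 / g = 0 := Nat.div_eq_of_lt (by omega)
  rw [h3]
  have : Qc a b 0 = ∅ := by
    ext p
    rw [mem_Qc]
    simp only [Finset.notMem_empty, iff_false]
    rintro ⟨⟨h1, h2, h3⟩, _⟩
    have : 1 ≤ p.1 ^ 2 := Nat.one_le_pow _ _ h1
    omega
  rw [this]; simp

lemma sum_inv_sq_le (n : ℕ) : ∑ e ∈ Finset.Icc 1 n, (1:ℝ) / (e:ℝ) ^ 2 ≤ 2 := by
  have h1 : ∑ e ∈ Finset.Icc 1 n, (1:ℝ) / (e:ℝ) ^ 2 ≤ Real.pi ^ 2 / 6 :=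
    sum_le_hasSum _ (fun e _ => by positivity) hasSum_zeta_two
  have := Real.pi_lt_d2
  have := Real.pi_pos
  nlinarith

lemma tail_inv_sq {E : ℕ} (hE : 1 ≤ E) (N : ℕ) : ∑ n ∈ Finset.range N, (1:ℝ) / ((n + (E + 1) : ℕ) : ℝ) ^ 2 ≤ 1 / (E:ℝ) - 1 / ((N + E : ℕ) : ℝ) := by
  have hE0 : (0:ℝ) < E := by exact_mod_cast hE
  induction N with
  | zero => simp
  | succ N ih =>
    rw [Finset.sum_range_succ]
    have hN : (0:ℝ) ≤ N := Nat.cast_nonneg N
    have h1 : (1:ℝ) / ((N + (E + 1) : ℕ) : ℝ) ^ 2 ≤ 1 / ((N + E : ℕ) : ℝ) - 1 / ((N + 1 + E : ℕ) : ℝ) := by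
      push_cast
      have e1 : (1:ℝ) / (N + E) - 1 / (N + 1 + E) = 1 / ((N + E) * (N + 1 + E)) := by
        field_simp
        ring
      rw [e1]
      apply one_div_le_one_div_of_le (by positivity)
      nlinarith
    linarith

lemma mu_tail {E : ℕ} (hE : 1 ≤ E) : |∑ e ∈ (Finset.Icc 1 E).filter (fun e => e % 2 = 1),
    ((ArithmeticFunction.moebius e : ℤ) : ℝ) / (e:ℝ) ^ 2 - 8 / Real.pi ^ 2| ≤ 1 / (E:ℝ) := by
  set f : ℕ → ℝ := fun n : ℕ => if n % 2 = 1 then ((ArithmeticFunction.moebius n : ℤ) : ℝ) / (n:ℝ) ^ 2 else 0 with hf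
  have h1 : ∑ e ∈ (Finset.Icc 1 E).filter (fun e => e % 2 = 1),
    ((ArithmeticFunction.moebius e : ℤ) : ℝ) / (e:ℝ) ^ 2 = ∑ e ∈ Finset.range (E + 1), f e := by
    rw [Finset.sum_filter]
    have : Finset.range (E + 1) = insert 0 (Finset.Icc 1 E) := by
      ext m; simp only [Finset.mem_range, Finset.mem_insert, Finset.mem_Icc]; omega
    rw [this, Finset.sum_insert (by simp)]
    simp [hf]
  have h2 := mu_odd.summable.sum_add_tsum_nat_add (E + 1)
  rw [mu_odd.tsum_eq] at h2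
  rw [h1]
  have h3 : ∑ e ∈ Finset.range (E + 1), f e - 8 / Real.pi ^ 2 = - ∑' i, f (i + (E + 1)) := by
    rw [← h2]; ring
  rw [h3, abs_neg]
  have hs : Summable (fun i : ℕ => (1:ℝ) / ((i + (E + 1) : ℕ) : ℝ) ^ 2) :=
    (summable_nat_add_iff (f := fun n : ℕ => (1:ℝ) / (n:ℝ) ^ 2) (E + 1)).mpr hasSum_zeta_two.summable
  have hb : ∀ i : ℕ, ‖f (i + (E + 1))‖ ≤ (1:ℝ) / ((i + (E + 1) : ℕ) : ℝ) ^ 2 := by
    intro i
    simp only [hf]
    split_ifs
    · rw [norm_div, norm_pow, Real.norm_natCast, Real.norm_eq_abs]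
      have : |((ArithmeticFunction.moebius (i + (E + 1)) : ℤ) : ℝ)| ≤ 1 := by
        rw [← Int.cast_abs]
        exact_mod_cast ArithmeticFunction.abs_moebius_le_one
      gcongr
    · rw [norm_zero]; positivity
  have h4 := tsum_of_norm_bounded hs.hasSum hb
  rw [Real.norm_eq_abs] at h4
  refine h4.trans ?_
  apply Real.tsum_le_of_sum_range_le (fun n => by positivity)
  intro n
  have h5 := tail_inv_sq hE n
  have : 0 ≤ (1:ℝ) / ((n + E : ℕ) : ℝ) := by positivity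
  linarith

lemma Lp_asymp : ∃ C : ℝ, 0 < C ∧ ∀ a b : ℕ, a < 2 → b < 2 → a + b ≠ 0 → ∀ y : ℕ, 1 ≤ y →
    |(Lp a b y : ℝ) - 1 / (2 * Real.pi) * (y * Real.log y)| ≤ C * y := by
  have hpi := Real.pi_pos
  have hpi4 := Real.pi_lt_four
  have hpi3 := Real.pi_gt_three
  set Z : ℝ := ∑' n : ℕ, (n:ℝ) ^ (-(3/2):ℝ) with hZ
  have hZs : Summable (fun n : ℕ => (n:ℝ) ^ (-(3/2):ℝ)) := by
    rw [Real.summable_nat_rpow]; norm_num
  have hZ0 : 0 ≤ Z := tsum_nonneg (fun n => by positivity)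
  refine ⟨86 + 2 * Z + 8, by positivity, ?_⟩
  intro a b ha hb hab y hy
  have hy0 : (0:ℝ) < y := by exact_mod_cast hy
  have hy1 : (1:ℝ) ≤ y := by exact_mod_cast hy
  set E := Nat.sqrt y with hE
  have hE1 : 1 ≤ E := by rw [hE, Nat.le_sqrt']; omega
  set T := (Finset.Icc 1 E).filter (fun e => e % 2 = 1) with hT
  have hTm : ∀ e ∈ T, 1 ≤ e ∧ e ^ 2 ≤ y := by
    intro e he
    rw [hT, Finset.mem_filter, Finset.mem_Icc] at he
    exact ⟨he.1.1, Nat.le_sqrt'.mp he.1.2⟩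
  have hmu : ∀ e : ℕ, |((ArithmeticFunction.moebius e : ℤ) : ℝ)| ≤ 1 := by
    intro e
    rw [← Int.cast_abs]
    exact_mod_cast ArithmeticFunction.abs_moebius_le_one
  have hT1 : ∑ e ∈ T, (1:ℝ) / (e:ℝ) ^ 2 ≤ 2 := by
    refine le_trans ?_ (sum_inv_sq_le E)
    apply Finset.sum_le_sum_of_subset_of_nonneg (Finset.filter_subset _ _)
    intro _ _ _; positivity
  rw [Lp_eq ha hb hab]
  -- step 1
  have s1 : |∑ e ∈ T, ((ArithmeticFunction.moebius e : ℤ) : ℝ) * ∑ g ∈ Finset.Icc 1 (y / e ^ 2), ((Qc a b (y / e ^ 2 / g)).card : ℝ) -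
      ∑ e ∈ T, ((ArithmeticFunction.moebius e : ℤ) : ℝ) * (Real.pi / 16 * ((y:ℝ) / (e:ℝ) ^ 2) * Real.log ((y:ℝ) / (e:ℝ) ^ 2))| ≤ 86 * y := by
    rw [← Finset.sum_sub_distrib]
    refine (Finset.abs_sum_le_sum_abs _ _).trans ?_
    calc _ ≤ ∑ e ∈ T, (43 * (y:ℝ)) * (1 / (e:ℝ) ^ 2) := by
          apply Finset.sum_le_sum
          intro e he
          obtain ⟨he1, he2⟩ := hTm e he
          rw [← mul_sub, abs_mul]
          have h1 := LQ_asymp ha hb (y := y) (d := e ^ 2) (Nat.one_le_pow _ _ he1) he2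
          rw [Nat.cast_pow] at h1
          calc _ ≤ 1 * (43 * ((y:ℝ) / (e:ℝ) ^ 2)) := mul_le_mul (hmu e) h1 (abs_nonneg _) (by norm_num)
            _ = _ := by ring
      _ = (43 * (y:ℝ)) * ∑ e ∈ T, (1 / (e:ℝ) ^ 2) := by rw [Finset.mul_sum]
      _ ≤ (43 * (y:ℝ)) * 2 := mul_le_mul_of_nonneg_left hT1 (by positivity)
      _ = 86 * y := by ring
  -- step 2
  have s2 : ∑ e ∈ T, ((ArithmeticFunction.moebius e : ℤ) : ℝ) * (Real.pi / 16 * ((y:ℝ) / (e:ℝ) ^ 2) * Real.log ((y:ℝ) / (e:ℝ) ^ 2)) =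
      Real.pi / 16 * y * Real.log y * ∑ e ∈ T, ((ArithmeticFunction.moebius e : ℤ) : ℝ) / (e:ℝ) ^ 2 -
      Real.pi / 8 * y * ∑ e ∈ T, ((ArithmeticFunction.moebius e : ℤ) : ℝ) * (Real.log e / (e:ℝ) ^ 2) := by
    rw [Finset.mul_sum, Finset.mul_sum, ← Finset.sum_sub_distrib]
    apply Finset.sum_congr rfl
    intro e he
    obtain ⟨he1, he2⟩ := hTm e he
    have he0 : (0:ℝ) < e := by exact_mod_cast he1
    rw [Real.log_div hy0.ne' (by positivity), Real.log_pow]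
    push_cast
    ring
  have s3 : |∑ e ∈ T, ((ArithmeticFunction.moebius e : ℤ) : ℝ) * (Real.log e / (e:ℝ) ^ 2)| ≤ 2 * Z := by
    refine (Finset.abs_sum_le_sum_abs _ _).trans ?_
    calc _ ≤ ∑ e ∈ T, 2 * (e:ℝ) ^ (-(3/2):ℝ) := by
          apply Finset.sum_le_sum
          intro e he
          obtain ⟨he1, he2⟩ := hTm e he
          have he0 : (0:ℝ) < e := by exact_mod_cast he1
          have he1' : (1:ℝ) ≤ e := by exact_mod_cast he1
          have hl0 : 0 ≤ Real.log e := Real.log_nonneg he1'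
          rw [abs_mul, abs_of_nonneg (show 0 ≤ Real.log e / (e:ℝ) ^ 2 by positivity)]
          have h1 : Real.log e ≤ 2 * (e:ℝ) ^ (1/2:ℝ) := by
            have := Real.log_le_rpow_div he0.le (show (0:ℝ) < 1/2 by norm_num)
            linarith
          have h2 : (e:ℝ) ^ (1/2:ℝ) / (e:ℝ) ^ 2 = (e:ℝ) ^ (-(3/2):ℝ) := by
            rw [← Real.rpow_natCast, ← Real.rpow_sub he0]; norm_num
          calc |((ArithmeticFunction.moebius e : ℤ) : ℝ)| * (Real.log e / (e:ℝ) ^ 2) ≤ 1 * (2 * (e:ℝ) ^ (1/2:ℝ) / (e:ℝ) ^ 2) := by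
                apply mul_le_mul (hmu e) _ (by positivity) (by norm_num)
                gcongr
            _ = _ := by rw [← h2]; ring
      _ = 2 * ∑ e ∈ T, (e:ℝ) ^ (-(3/2):ℝ) := by rw [Finset.mul_sum]
      _ ≤ 2 * Z := by
          apply mul_le_mul_of_nonneg_left _ (by norm_num)
          exact hZs.sum_le_tsum _ (fun e _ => by positivity)
  have s4 := mu_tail hE1
  rw [← hT] at s4
  rw [s2] at s1
  set A := ∑ e ∈ T, ((ArithmeticFunction.moebius e : ℤ) : ℝ) / (e:ℝ) ^ 2 with hA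
  set B := ∑ e ∈ T, ((ArithmeticFunction.moebius e : ℤ) : ℝ) * (Real.log e / (e:ℝ) ^ 2) with hB
  set L := ∑ e ∈ T, ((ArithmeticFunction.moebius e : ℤ) : ℝ) * ∑ g ∈ Finset.Icc 1 (y / e ^ 2), ((Qc a b (y / e ^ 2 / g)).card : ℝ) with hL
  have s5 : y * Real.log y * (1 / (E:ℝ)) ≤ 4 * y := by
    have hE0 : (0:ℝ) < E := by exact_mod_cast hE1
    have h1 : √(y:ℝ) < E + 1 := Real.real_sqrt_lt_nat_sqrt_succ
    have h2 : √(y:ℝ) ≤ 2 * E := by
      have : (1:ℝ) ≤ E := by exact_mod_cast hE1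
      linarith
    have h3 : Real.log y ≤ 2 * √(y:ℝ) := by
      have := Real.log_le_rpow_div hy0.le (show (0:ℝ) < 1/2 by norm_num)
      rw [← Real.sqrt_eq_rpow] at this
      linarith
    rw [mul_one_div, div_le_iff₀ hE0]
    calc y * Real.log y ≤ y * (2 * (2 * E)) := by gcongr; linarith
      _ = 4 * y * E := by ring
  have hlog : 0 ≤ Real.log y := Real.log_nonneg hy1
  have s6 : |Real.pi / 16 * y * Real.log y * A - 1 / (2 * Real.pi) * (y * Real.log y)| ≤ 4 * y := by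
    have e1 : Real.pi / 16 * y * Real.log y * A - 1 / (2 * Real.pi) * (y * Real.log y) =
        (Real.pi / 16 * (y * Real.log y)) * (A - 8 / Real.pi ^ 2) := by
      field_simp
      ring
    rw [e1, abs_mul, abs_of_nonneg (by positivity)]
    calc Real.pi / 16 * (y * Real.log y) * |A - 8 / Real.pi ^ 2| ≤ Real.pi / 16 * (y * Real.log y) * (1 / (E:ℝ)) := by gcongr
      _ = Real.pi / 16 * (y * Real.log y * (1 / (E:ℝ))) := by ring
      _ ≤ 1 * (4 * y) := by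
          apply mul_le_mul _ s5 (by positivity) (by norm_num)
          linarith
      _ = 4 * y := by ring
  have s7 : |Real.pi / 8 * y * B| ≤ 2 * Z * y := by
    rw [abs_mul, abs_of_nonneg (by positivity)]
    calc Real.pi / 8 * y * |B| ≤ 1 * y * (2 * Z) := by
          apply mul_le_mul _ s3 (abs_nonneg _) (by positivity)
          apply mul_le_mul_of_nonneg_right _ hy0.le
          linarith
      _ = _ := by ring
  obtain ⟨a1, a2⟩ := abs_le.mp s1
  obtain ⟨b1, b2⟩ := abs_le.mp s6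
  obtain ⟨c1, c2⟩ := abs_le.mp s7
  rw [abs_le]
  constructor
  · linarith
  · linarith

end Pool.Agent.N48.Ann
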