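import Mathlib
import Pool.Agent.N48.Ann.NT3

open MeasureTheory Set Filter Topology

namespace Pool.Agent.N48.Ann

/-- the half-lengths -/
def Wk (k : ℕ) : Finset ℕ := (Finset.Icc 1 (2 * k - 1)).filter (fun u => IsSquare (u * (2 * k - u)))

/-- points of the circle of radius `k` -/
noncomputable def Zk (k : ℕ) : Finset (ℤ × ℤ) := ((Finset.Icc (-(k:ℤ)) k) ×ˢ (Finset.Icc (-(k:ℤ)) k)).filter
  (fun p => p.1 ^ 2 + p.2 ^ 2 = (k:ℤ) ^ 2)

lemma mem_Zk {k : ℕ} {p : ℤ × ℤ} : p ∈ Zk k ↔ p.1 ^ 2 + p.2 ^ 2 = (k:ℤ) ^ 2 := by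
  unfold Zk
  rw [Finset.mem_filter, Finset.mem_product, Finset.mem_Icc, Finset.mem_Icc]
  constructor
  · exact fun h => h.2
  · intro h
    have hk : (0:ℤ) ≤ k := Int.natCast_nonneg k
    have h1 : |p.1| ≤ |(k:ℤ)| := sq_le_sq.mp (by nlinarith [sq_nonneg p.2])
    have h2 : |p.2| ≤ |(k:ℤ)| := sq_le_sq.mp (by nlinarith [sq_nonneg p.1])
    rw [abs_of_nonneg hk] at h1 h2
    exact ⟨⟨abs_le.mp h1, abs_le.mp h2⟩, h⟩

lemma card_pos (k : ℕ) : ((Zk k).filter (fun p => 0 < p.2)).card = (Wk k).card := by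
  apply Finset.card_bij (fun p _ => ((k:ℤ) - p.1).toNat)
  · intro p hp
    rw [Finset.mem_filter, mem_Zk] at hp
    obtain ⟨h1, h2⟩ := hp
    have hk : (0:ℤ) ≤ k := Int.natCast_nonneg k
    have h3 : |p.1| < |(k:ℤ)| := sq_lt_sq.mp (by nlinarith)
    rw [abs_of_nonneg hk, abs_lt] at h3
    unfold Wk
    rw [Finset.mem_filter, Finset.mem_Icc]
    have h4 : ((((k:ℤ) - p.1).toNat : ℕ) : ℤ) = k - p.1 := Int.toNat_of_nonneg (by linarith)
    set u := ((k:ℤ) - p.1).toNat with hu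
    refine ⟨⟨by omega, by omega⟩, ⟨p.2.toNat, ?_⟩⟩
    have h5 : ((p.2.toNat : ℕ) : ℤ) = p.2 := Int.toNat_of_nonneg h2.le
    have h6 : ((2 * k - u : ℕ) : ℤ) = k + p.1 := by omega
    have : ((u * (2 * k - u) : ℕ) : ℤ) = ((p.2.toNat * p.2.toNat : ℕ) : ℤ) := by
      push_cast [h4, h5, h6]
      linarith
    exact_mod_cast this
  · intro p hp q hq h
    rw [Finset.mem_filter, mem_Zk] at hp hq
    have hk : (0:ℤ) ≤ k := Int.natCast_nonneg k
    have h3 : |p.1| < |(k:ℤ)| := sq_lt_sq.mp (by nlinarith [hp.1, hp.2])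
    have h3' : |q.1| < |(k:ℤ)| := sq_lt_sq.mp (by nlinarith [hq.1, hq.2])
    rw [abs_of_nonneg hk, abs_lt] at h3 h3'
    have h4 : ((((k:ℤ) - p.1).toNat : ℕ) : ℤ) = k - p.1 := Int.toNat_of_nonneg (by linarith)
    have h5 : ((((k:ℤ) - q.1).toNat : ℕ) : ℤ) = k - q.1 := Int.toNat_of_nonneg (by linarith)
    have h6 : p.1 = q.1 := by rw [h] at h4; omega
    refine Prod.ext h6 ?_
    have h7 : p.2 ^ 2 = q.2 ^ 2 := by have := hp.1; have := hq.1; rw [h6] at *; linarith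
    exact (pow_left_inj₀ hp.2.le hq.2.le (by norm_num)).mp h7
  · intro u hu
    unfold Wk at hu
    rw [Finset.mem_filter, Finset.mem_Icc] at hu
    obtain ⟨⟨h1, h2⟩, b, hb⟩ := hu
    have h6 : ((2 * k - u : ℕ) : ℤ) = 2 * k - u := by omega
    have hb' : (u:ℤ) * (2 * k - u) = b * b := by
      rw [← h6]; exact_mod_cast hb
    have hb0 : 0 < b := by
      rcases Nat.eq_zero_or_pos b with rfl | h
      · exfalso
        have : u * (2 * k - u) = 0 := by rw [hb]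
        rcases Nat.mul_eq_zero.mp this with h | h <;> omega
      · exact h
    refine ⟨((k:ℤ) - u, (b:ℤ)), ?_, ?_⟩
    · rw [Finset.mem_filter, mem_Zk]
      refine ⟨?_, by simp only; exact_mod_cast hb0⟩
      simp only
      linear_combination -hb'
    · simp only
      omega

lemma card_neg (k : ℕ) : ((Zk k).filter (fun p => p.2 < 0)).card = (Wk k).card := by
  rw [← card_pos]
  apply Finset.card_bij (fun p _ => (p.1, -p.2))
  · intro p hp
    rw [Finset.mem_filter, mem_Zk] at hp ⊢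
    simp only [even_two, Even.neg_pow]
    exact ⟨hp.1, by linarith [hp.2]⟩
  · intro p _ q _ h
    simp only [Prod.mk.injEq, neg_inj] at h
    exact Prod.ext h.1 h.2
  · intro p hp
    rw [Finset.mem_filter, mem_Zk] at hp
    refine ⟨(p.1, -p.2), ?_, by simp⟩
    rw [Finset.mem_filter, mem_Zk]
    simp only [even_two, Even.neg_pow]
    exact ⟨hp.1, by linarith [hp.2]⟩

lemma card_zero {k : ℕ} (hk : 1 ≤ k) : ((Zk k).filter (fun p => p.2 = 0)).card = 2 := by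
  have : (Zk k).filter (fun p => p.2 = 0) = {((k:ℤ), 0), (-(k:ℤ), 0)} := by
    ext p
    rw [Finset.mem_filter, mem_Zk, Finset.mem_insert, Finset.mem_singleton]
    constructor
    · rintro ⟨h1, h2⟩
      rw [h2, zero_pow (by norm_num), add_zero] at h1
      rcases sq_eq_sq_iff_eq_or_eq_neg.mp h1 with h | h
      · left; exact Prod.ext h h2
      · right; exact Prod.ext h h2
    · rintro (h | h)
      · rw [h]; simp
      · rw [h]; simp
  rw [this, Finset.card_pair]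
  intro h
  simp only [Prod.mk.injEq, and_true] at h
  omega

lemma card_Zk {k : ℕ} (hk : 1 ≤ k) : (Zk k).card = 2 + 2 * (Wk k).card := by
  have h1 := Finset.card_filter_add_card_filter_not (s := Zk k) (fun p => p.2 = 0)
  have h2 : ((Zk k).filter (fun p => ¬ p.2 = 0)) = ((Zk k).filter (fun p => 0 < p.2)) ∪ ((Zk k).filter (fun p => p.2 < 0)) := by
    ext p
    rw [Finset.mem_union, Finset.mem_filter, Finset.mem_filter, Finset.mem_filter]
    constructor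
    · rintro ⟨h, h'⟩
      rcases lt_or_gt_of_ne h' with h'' | h''
      · exact Or.inr ⟨h, h''⟩
      · exact Or.inl ⟨h, h''⟩
    · rintro (⟨h, h'⟩ | ⟨h, h'⟩)
      · exact ⟨h, h'.ne'⟩
      · exact ⟨h, h'.ne⟩
  rw [h2, Finset.card_union_of_disjoint, card_pos, card_neg, card_zero hk] at h1
  · omega
  · rw [Finset.disjoint_left]
    intro p hp hq
    rw [Finset.mem_filter] at hp hq
    omega

/-- triples -/
def Tr (K : ℕ) : Finset (ℕ × ℕ × ℕ) := ((Finset.Icc 1 (2 * K)) ×ˢ (Qs (2 * K))).filter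
  (fun x => Nat.Coprime x.2.1 x.2.2 ∧ x.1 * (x.2.1 ^ 2 + x.2.2 ^ 2) ≤ 2 * K ∧ 2 ∣ x.1 * (x.2.1 ^ 2 + x.2.2 ^ 2))

lemma mem_Tr {K : ℕ} {x : ℕ × ℕ × ℕ} : x ∈ Tr K ↔ 1 ≤ x.1 ∧ 1 ≤ x.2.1 ∧ 1 ≤ x.2.2 ∧ Nat.Coprime x.2.1 x.2.2 ∧
    x.1 * (x.2.1 ^ 2 + x.2.2 ^ 2) ≤ 2 * K ∧ 2 ∣ x.1 * (x.2.1 ^ 2 + x.2.2 ^ 2) := by
  unfold Tr
  rw [Finset.mem_filter, Finset.mem_product, Finset.mem_Icc, mem_Qs]
  constructor
  · rintro ⟨⟨⟨h1, _⟩, h2, h3, _⟩, h4, h5, h6⟩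
    exact ⟨h1, h2, h3, h4, h5, h6⟩
  · rintro ⟨h1, h2, h3, h4, h5, h6⟩
    have a1 : 1 ≤ x.2.1 ^ 2 := Nat.one_le_pow _ _ h2
    have a2 : 1 ≤ x.2.2 ^ 2 := Nat.one_le_pow _ _ h3
    refine ⟨⟨⟨h1, ?_⟩, h2, h3, ?_⟩, h4, h5, h6⟩
    · nlinarith
    · nlinarith

lemma eq_sq {a b c : ℕ} (h : Nat.Coprime a b) (e : a * b = c ^ 2) : ∃ d, a = d ^ 2 := by
  apply exists_eq_pow_of_mul_eq_pow (b := b) (c := c) _ e
  have : GCDMonoid.gcd a b = Nat.gcd a b := rfl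
  rw [this, h]
  exact isUnit_one

lemma sum_Wk (K : ℕ) : ∑ k ∈ Finset.Icc 1 K, (Wk k).card = (Tr K).card := by
  rw [← Finset.card_sigma]
  symm
  apply Finset.card_bij (fun x _ => (⟨x.1 * (x.2.1 ^ 2 + x.2.2 ^ 2) / 2, x.1 * x.2.1 ^ 2⟩ : Σ _ : ℕ, ℕ))
  · intro x hx
    rw [mem_Tr] at hx
    obtain ⟨h1, h2, h3, h4, h5, m, h6⟩ := hx
    have a1 : 1 ≤ x.2.1 ^ 2 := Nat.one_le_pow _ _ h2
    have a2 : 1 ≤ x.2.2 ^ 2 := Nat.one_le_pow _ _ h3
    rw [Finset.mem_sigma, Finset.mem_Icc]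
    have e : x.1 * (x.2.1 ^ 2 + x.2.2 ^ 2) / 2 = m := by omega
    simp only [e]
    have b1 : 1 ≤ x.1 * x.2.1 ^ 2 := Nat.mul_pos h1 a1
    have b2 : 1 ≤ x.1 * x.2.2 ^ 2 := Nat.mul_pos h1 a2
    rw [mul_add] at h5 h6
    refine ⟨⟨by omega, by omega⟩, ?_⟩
    unfold Wk
    rw [Finset.mem_filter, Finset.mem_Icc]
    refine ⟨⟨by omega, by omega⟩, ?_⟩
    have e2 : 2 * m - x.1 * x.2.1 ^ 2 = x.1 * x.2.2 ^ 2 := by omega
    rw [e2]
    exact ⟨x.1 * x.2.1 * x.2.2, by ring⟩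
  · intro x hx y hy h
    rw [mem_Tr] at hx hy
    obtain ⟨h1, h2, h3, h4, h5, m, h6⟩ := hx
    obtain ⟨k1, k2, k3, k4, k5, n, k6⟩ := hy
    simp only [Sigma.mk.injEq, heq_eq_eq] at h
    obtain ⟨e1, e2⟩ := h
    have e3 : x.1 * x.2.2 ^ 2 = y.1 * y.2.2 ^ 2 := by
      rw [h6, k6] at e1
      have : m = n := by omega
      rw [mul_add] at h6 k6
      omega
    have g1 : Nat.gcd (x.1 * x.2.1 ^ 2) (x.1 * x.2.2 ^ 2) = x.1 := by
      rw [Nat.gcd_mul_left, (Nat.Coprime.pow 2 2 h4), mul_one]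
    have g2 : Nat.gcd (y.1 * y.2.1 ^ 2) (y.1 * y.2.2 ^ 2) = y.1 := by
      rw [Nat.gcd_mul_left, (Nat.Coprime.pow 2 2 k4), mul_one]
    have e4 : x.1 = y.1 := by rw [← g1, ← g2, e2, e3]
    rw [e4] at e2 e3
    have e5 := Nat.eq_of_mul_eq_mul_left (by omega) e2
    have e6 := Nat.eq_of_mul_eq_mul_left (by omega) e3
    have e7 := Nat.pow_left_injective (n := 2) (by norm_num) e5
    have e8 := Nat.pow_left_injective (n := 2) (by norm_num) e6
    exact Prod.ext e4 (Prod.ext e7 e8)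
  · intro s hs
    rw [Finset.mem_sigma, Finset.mem_Icc] at hs
    obtain ⟨k, u⟩ := s
    obtain ⟨⟨hk1, hk2⟩, hu⟩ := hs
    simp only at hk1 hk2 hu
    unfold Wk at hu
    rw [Finset.mem_filter, Finset.mem_Icc] at hu
    obtain ⟨⟨hu1, hu2⟩, b, hb⟩ := hu
    set v := 2 * k - u with hv
    have huv : u + v = 2 * k := by omega
    have hv1 : 1 ≤ v := by omega
    obtain ⟨g, u', v', hg0, hco, hu', hv'⟩ := Nat.exists_coprime' (m := u) (n := v) (Nat.gcd_pos_of_pos_left _ hu1)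
    have hg1 : 1 ≤ g := hg0
    have hgb : g ∣ b := by
      have : g ^ 2 ∣ b ^ 2 := ⟨u' * v', by rw [sq b, ← hb, hu', hv']; ring⟩
      exact (Nat.pow_dvd_pow_iff (by norm_num)).mp this
    obtain ⟨c, hc⟩ := hgb
    have h7 : u' * v' = c ^ 2 := by
      have : g ^ 2 * (u' * v') = g ^ 2 * c ^ 2 := by
        have h8 : u * v = b * b := hb
        rw [hu', hv', hc] at h8
        linarith
      exact Nat.eq_of_mul_eq_mul_left (by positivity) this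
    obtain ⟨s, hs⟩ := eq_sq hco h7
    obtain ⟨t, ht⟩ := eq_sq hco.symm (by rw [mul_comm]; exact h7)
    have hs1 : 1 ≤ s := by
      rcases Nat.eq_zero_or_pos s with rfl | h
      · rw [hs] at hu'; omega
      · exact h
    have ht1 : 1 ≤ t := by
      rcases Nat.eq_zero_or_pos t with rfl | h
      · rw [ht] at hv'; omega
      · exact h
    have e9 : g * (s ^ 2 + t ^ 2) = 2 * k := by
      rw [← huv, hu', hv', hs, ht]; ring
    refine ⟨(g, s, t), ?_, ?_⟩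
    · rw [mem_Tr]
      refine ⟨hg1, hs1, ht1, ?_, ?_, ?_⟩
      · rw [hs, ht] at hco
        exact Nat.Coprime.coprime_dvd_left (Dvd.intro_left _ (by ring : s * s = s ^ 2)) (Nat.Coprime.coprime_dvd_right (Dvd.intro_left _ (by ring : t * t = t ^ 2)) hco)
      · simp only; rw [e9]; omega
      · simp only; rw [e9]; exact ⟨k, rfl⟩
    · simp only [Sigma.mk.injEq, heq_eq_eq]
      refine ⟨by rw [e9]; omega, ?_⟩
      rw [hu', hs]; ring

lemma mem_Qp {a b n : ℕ} {p : ℕ × ℕ} : p ∈ Qp a b n ↔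
    ((1 ≤ p.1 ∧ 1 ≤ p.2 ∧ p.1 ^ 2 + p.2 ^ 2 ≤ n) ∧ p.1 % 2 = a ∧ p.2 % 2 = b) ∧ Nat.Coprime p.1 p.2 := by
  unfold Qp
  rw [Finset.mem_filter, mem_Qc]

lemma Tr_odd (K : ℕ) : ((Tr K).filter (fun x => x.2.1 % 2 = 1 ∧ x.2.2 % 2 = 1)).card = Lp 1 1 (2 * K) := by
  unfold Lp
  rw [← Finset.card_sigma]
  apply Finset.card_bij (fun x _ => (⟨x.1, x.2⟩ : Σ _ : ℕ, ℕ × ℕ))
  · intro x hx
    rw [Finset.mem_filter, mem_Tr] at hx
    obtain ⟨⟨h1, h2, h3, h4, h5, h6⟩, h7, h8⟩ := hx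
    have a1 : 1 ≤ x.2.1 ^ 2 := Nat.one_le_pow _ _ h2
    rw [Finset.mem_sigma, Finset.mem_Icc, mem_Qp, Nat.le_div_iff_mul_le (by simp only; omega)]
    refine ⟨⟨h1, ?_⟩, ⟨⟨h2, h3, ?_⟩, h7, h8⟩, h4⟩
    · simp only; nlinarith
    · simp only; linarith
  · intro x _ y _ h
    simp only [Sigma.mk.injEq, heq_eq_eq] at h
    exact Prod.ext h.1 h.2
  · rintro ⟨g, p⟩ h
    rw [Finset.mem_sigma, Finset.mem_Icc, mem_Qp] at h
    simp only at h
    obtain ⟨⟨h1, h2⟩, ⟨⟨h3, h4, h5⟩, h6, h7⟩, h8⟩ := h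
    rw [Nat.le_div_iff_mul_le (by omega)] at h5
    refine ⟨(g, p), ?_, rfl⟩
    rw [Finset.mem_filter, mem_Tr]
    refine ⟨⟨h1, h3, h4, h8, by simp only; linarith, ?_⟩, h6, h7⟩
    simp only
    apply Dvd.dvd.mul_left
    have e1 : p.1 ^ 2 % 2 = 1 := by rw [Nat.pow_mod, h6]
    have e2 : p.2 ^ 2 % 2 = 1 := by rw [Nat.pow_mod, h7]
    omega

lemma Tr_mixed (K : ℕ) {a b : ℕ} (ha : a < 2) (hb : b < 2) (hab : a + b = 1) :
    ((Tr K).filter (fun x => x.2.1 % 2 = a ∧ x.2.2 % 2 = b)).card = Lp a b K := by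
  unfold Lp
  rw [← Finset.card_sigma]
  have key : ∀ p : ℕ × ℕ, p.1 % 2 = a → p.2 % 2 = b → (p.1 ^ 2 + p.2 ^ 2) % 2 = 1 := by
    intro p h1 h2
    rw [Nat.add_mod, Nat.pow_mod, Nat.pow_mod p.2, h1, h2]
    have : (a = 0 ∧ b = 1) ∨ (a = 1 ∧ b = 0) := by omega
    rcases this with ⟨rfl, rfl⟩ | ⟨rfl, rfl⟩ <;> rfl
  apply Finset.card_bij (fun x _ => (⟨x.1 / 2, x.2⟩ : Σ _ : ℕ, ℕ × ℕ))
  · intro x hx
    rw [Finset.mem_filter, mem_Tr] at hx
    obtain ⟨⟨h1, h2, h3, h4, h5, h6⟩, h7, h8⟩ := hx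
    have a1 : 1 ≤ x.2.1 ^ 2 := Nat.one_le_pow _ _ h2
    have h9 := key x.2 h7 h8
    have h10 : 2 ∣ x.1 := by
      rcases (Nat.prime_two.dvd_mul).mp h6 with h | h
      · exact h
      · omega
    obtain ⟨g, hg⟩ := h10
    have hg2 : x.1 / 2 = g := by omega
    rw [Finset.mem_sigma, Finset.mem_Icc, mem_Qp]
    simp only [hg2]
    rw [Nat.le_div_iff_mul_le (by omega)]
    rw [hg] at h5
    refine ⟨⟨by omega, ?_⟩, ⟨⟨h2, h3, ?_⟩, h7, h8⟩, h4⟩
    · nlinarith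
    · nlinarith
  · intro x hx y hy h
    rw [Finset.mem_filter, mem_Tr] at hx hy
    simp only [Sigma.mk.injEq, heq_eq_eq] at h
    have h9 := key x.2 hx.2.1 hx.2.2
    have h9' := key y.2 hy.2.1 hy.2.2
    have h10 : 2 ∣ x.1 := by
      rcases (Nat.prime_two.dvd_mul).mp hx.1.2.2.2.2.2 with h | h
      · exact h
      · omega
    have h10' : 2 ∣ y.1 := by
      rcases (Nat.prime_two.dvd_mul).mp hy.1.2.2.2.2.2 with h | h
      · exact h
      · omega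
    refine Prod.ext (by omega) h.2
  · rintro ⟨g, p⟩ h
    rw [Finset.mem_sigma, Finset.mem_Icc, mem_Qp] at h
    simp only at h
    obtain ⟨⟨h1, h2⟩, ⟨⟨h3, h4, h5⟩, h6, h7⟩, h8⟩ := h
    rw [Nat.le_div_iff_mul_le (by omega)] at h5
    refine ⟨(2 * g, p), ?_, ?_⟩
    · rw [Finset.mem_filter, mem_Tr]
      refine ⟨⟨by simp only; omega, h3, h4, h8, by simp only; nlinarith, ?_⟩, h6, h7⟩
      simp only
      exact ⟨g * (p.1 ^ 2 + p.2 ^ 2), by ring⟩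
    · simp only [Sigma.mk.injEq, heq_eq_eq, and_true]
      omega

lemma card_Tr (K : ℕ) : (Tr K).card = Lp 1 0 K + Lp 0 1 K + Lp 1 1 (2 * K) := by
  rw [← Tr_mixed K (a := 1) (b := 0) (by norm_num) (by norm_num) rfl,
    ← Tr_mixed K (a := 0) (b := 1) (by norm_num) (by norm_num) rfl, ← Tr_odd,
    ← Finset.card_union_of_disjoint, ← Finset.card_union_of_disjoint]
  · congr 1
    ext x
    simp only [Finset.mem_union, Finset.mem_filter]
    constructor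
    · intro h
      have h4 := (mem_Tr.mp h).2.2.2.1
      have : ¬ (x.2.1 % 2 = 0 ∧ x.2.2 % 2 = 0) := by
        rintro ⟨h5, h6⟩
        have h7 : 2 ∣ Nat.gcd x.2.1 x.2.2 := Nat.dvd_gcd (by omega) (by omega)
        rw [h4] at h7
        omega
      have c1 := Nat.mod_two_eq_zero_or_one x.2.1
      have c2 := Nat.mod_two_eq_zero_or_one x.2.2
      tauto
    · tauto
  · rw [Finset.disjoint_left]
    intro x hx hy
    rw [Finset.mem_union, Finset.mem_filter, Finset.mem_filter] at hx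
    rw [Finset.mem_filter] at hy
    omega
  · rw [Finset.disjoint_left]
    intro x hx hy
    rw [Finset.mem_filter] at hx hy
    omega

lemma sum_Zk (K : ℕ) : ∑ k ∈ Finset.Icc 1 K, (Zk k).card = 2 * K + 2 * (Lp 1 0 K + Lp 0 1 K + Lp 1 1 (2 * K)) := by
  have h : ∀ k ∈ Finset.Icc 1 K, (Zk k).card = 2 + 2 * (Wk k).card := by
    intro k hk
    rw [Finset.mem_Icc] at hk
    exact card_Zk hk.1
  rw [Finset.sum_congr rfl h, Finset.sum_add_distrib, ← Finset.mul_sum, sum_Wk, card_Tr]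
  simp
  ring

theorem sum_Zk_asymp : ∃ C : ℝ, 0 < C ∧ ∀ K : ℕ, 1 ≤ K →
    |((∑ k ∈ Finset.Icc 1 K, (Zk k).card : ℕ) : ℝ) - 4 / Real.pi * (K * Real.log K)| ≤ C * K := by
  obtain ⟨C, hC, h⟩ := Lp_asymp
  have hpi := Real.pi_pos
  have hpi3 := Real.pi_gt_three
  refine ⟨2 + 2 * (4 * C) + 2, by positivity, ?_⟩
  intro K hK
  have hK0 : (0:ℝ) < K := by exact_mod_cast hK
  rw [sum_Zk]
  have h1 := abs_le.mp (h 1 0 (by norm_num) (by norm_num) (by norm_num) K hK)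
  have h2 := abs_le.mp (h 0 1 (by norm_num) (by norm_num) (by norm_num) K hK)
  have h3 := abs_le.mp (h 1 1 (by norm_num) (by norm_num) (by norm_num) (2 * K) (by omega))
  push_cast at h3 ⊢
  rw [Real.log_mul (by norm_num) hK0.ne'] at h3
  have hl2 : 0 < Real.log 2 := Real.log_pos (by norm_num)
  have hl2' : Real.log 2 < 1 := by have := Real.log_two_lt_d9; linarith
  have e : 4 / Real.pi * ((K:ℝ) * Real.log K) = 2 * (1 / (2 * Real.pi) * (K * Real.log K) + 1 / (2 * Real.pi) * (K * Real.log K) +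
      1 / (2 * Real.pi) * (2 * K * (Real.log 2 + Real.log K))) - 2 / Real.pi * K * Real.log 2 := by
    field_simp
    ring
  have e2 : 0 ≤ 2 / Real.pi * K * Real.log 2 := by positivity
  have e3 : 2 / Real.pi * K * Real.log 2 ≤ 2 * K := by
    have : 2 / Real.pi ≤ 2 := by
      rw [div_le_iff₀ hpi]; nlinarith
    calc 2 / Real.pi * K * Real.log 2 ≤ 2 * K * 1 := by gcongr
      _ = _ := by ring
  rw [abs_le, e]
  obtain ⟨h1a, h1b⟩ := h1
  obtain ⟨h2a, h2b⟩ := h2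
  obtain ⟨h3a, h3b⟩ := h3
  constructor <;> linarith

end Pool.Agent.N48.Ann
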