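import Mathlib

open MeasureTheory Set Filter Topology

namespace Pool.Agent.N48.Ann

lemma one_sub_exp_le {z : ℂ} (hz : z.re ≤ 0) : ‖1 - Complex.exp z‖ ≤ 2 * min 1 ‖z‖ := by
  have h1 : ‖1 - Complex.exp z‖ ≤ 2 := by
    calc ‖1 - Complex.exp z‖ ≤ ‖(1:ℂ)‖ + ‖Complex.exp z‖ := norm_sub_le _ _
      _ ≤ 1 + 1 := by
          rw [norm_one, Complex.norm_exp]
          have := Real.exp_le_one_iff.mpr hz
          linarith
      _ = 2 := by norm_num
  rcases le_total ‖z‖ 1 with h | h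
  · rw [min_eq_right h, norm_sub_rev]
    exact Complex.norm_exp_sub_one_le h
  · rw [min_eq_left h]; linarith

/-- the dominating function -/
noncomputable def dm (B x : ℝ) : ℝ := 2 * min (1 / x ^ 2) B

lemma dm_int {B : ℝ} (hB : 0 ≤ B) : IntegrableOn (dm B) (Ioi 0) := by
  have h1 : IntegrableOn (fun x : ℝ => x ^ (-2:ℝ)) (Ioi 1) := integrableOn_Ioi_rpow_of_lt (by norm_num) one_pos
  have hmeas : Measurable (dm B) := by unfold dm; fun_prop
  have h2 : IntegrableOn (dm B) (Ioc 0 1) := by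
    apply Integrable.mono' (g := fun _ => 2 * B) (integrableOn_const (by simp))
    · exact hmeas.aestronglyMeasurable
    · refine ae_of_all _ (fun x => ?_)
      unfold dm
      rw [Real.norm_eq_abs, abs_of_nonneg (by positivity)]
      have := min_le_right (1 / x ^ 2) B
      linarith
  have h3 : IntegrableOn (dm B) (Ioi 1) := by
    apply Integrable.mono' (g := fun x => 2 * x ^ (-2:ℝ)) (h1.const_mul 2)
    · exact hmeas.aestronglyMeasurable
    · rw [ae_restrict_iff' measurableSet_Ioi]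
      refine ae_of_all _ (fun x hx => ?_)
      have hx0 : (0:ℝ) < x := lt_trans one_pos hx
      unfold dm
      rw [Real.norm_eq_abs, abs_of_nonneg (by positivity)]
      have := min_le_left (1 / x ^ 2) B
      have e : x ^ (-2:ℝ) = 1 / x ^ 2 := by
        rw [Real.rpow_neg hx0.le, one_div]; norm_cast
      rw [e]
      linarith
  have := h2.union h3
  rwa [Ioc_union_Ioi_eq_Ioi zero_le_one] at this

/-- the integrand -/
noncomputable def Kf (b : ℂ) (x : ℝ) : ℂ := (1 / (x:ℂ) ^ 2) * (1 - Complex.exp (-b * (x:ℂ) ^ 2))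

lemma Kf_le {b : ℂ} (hb : 0 ≤ b.re) {x : ℝ} (hx : 0 < x) {B : ℝ} (hB : ‖b‖ ≤ B) : ‖Kf b x‖ ≤ dm B x := by
  unfold Kf dm
  have hre : (-b * (x:ℂ) ^ 2).re ≤ 0 := by
    have : (-b * (x:ℂ) ^ 2).re = -(b.re * x ^ 2) := by
      rw [← Complex.ofReal_pow, Complex.mul_re, Complex.ofReal_re, Complex.ofReal_im, Complex.neg_re]
      ring
    rw [this]
    have : 0 ≤ b.re * x ^ 2 := by positivity
    linarith
  have h1 := one_sub_exp_le hre
  have hn : ‖-b * (x:ℂ) ^ 2‖ = ‖b‖ * x ^ 2 := by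
    rw [norm_mul, norm_neg, norm_pow, Complex.norm_real, Real.norm_eq_abs, abs_of_pos hx]
  rw [hn] at h1
  rw [norm_mul, norm_div, norm_one, norm_pow, Complex.norm_real, Real.norm_eq_abs, abs_of_pos hx]
  calc 1 / x ^ 2 * ‖1 - Complex.exp (-b * (x:ℂ) ^ 2)‖ ≤ 1 / x ^ 2 * (2 * min 1 (‖b‖ * x ^ 2)) := by gcongr
    _ = 2 * (1 / x ^ 2 * min 1 (‖b‖ * x ^ 2)) := by ring
    _ = 2 * min (1 / x ^ 2) ‖b‖ := by
        rw [mul_min_of_nonneg _ _ (by positivity)]
        congr 2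
        · ring
        · field_simp
    _ ≤ _ := by
        have := min_le_min_left (1 / x ^ 2) hB
        linarith

lemma Kf_meas (b : ℂ) : Measurable (Kf b) := by
  unfold Kf; fun_prop

lemma Kf_int {b : ℂ} (hb : 0 ≤ b.re) : IntegrableOn (Kf b) (Ioi 0) := by
  apply Integrable.mono' (dm_int (norm_nonneg b))
  · exact (Kf_meas b).aestronglyMeasurable
  · rw [ae_restrict_iff' measurableSet_Ioi]
    exact ae_of_all _ (fun x hx => Kf_le hb hx le_rfl)

lemma K1 {b : ℂ} (hb : 0 < b.re) : ∫ x in Ioi (0:ℝ), Kf b x = b * (Real.pi / b) ^ (1/2:ℂ) := by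
  have hg := integral_gaussian_complex_Ioi hb
  have hgi : IntegrableOn (fun x : ℝ => Complex.exp (-b * (x:ℂ) ^ 2)) (Ioi 0) := (integrable_cexp_neg_mul_sq hb).integrableOn
  set u : ℝ → ℂ := fun x => -1 / (x:ℂ) with hu
  set u' : ℝ → ℂ := fun x => 1 / (x:ℂ) ^ 2 with hu'
  set v : ℝ → ℂ := fun x => 1 - Complex.exp (-b * (x:ℂ) ^ 2) with hv
  set v' : ℝ → ℂ := fun x => 2 * b * x * Complex.exp (-b * (x:ℂ) ^ 2) with hv'
  have du : ∀ x ∈ Ioi (0:ℝ), HasDerivAt u (u' x) x := by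
    intro x hx
    have hx0 : (x:ℂ) ≠ 0 := by exact_mod_cast (ne_of_gt hx)
    have h1 : HasDerivAt (fun z : ℂ => -1 / z) (1 / (x:ℂ) ^ 2) (x:ℂ) := by
      have := (hasDerivAt_inv hx0).const_mul (-1)
      have e1 : (fun z : ℂ => -1 / z) = fun y => -1 * y⁻¹ := by funext z; rw [div_eq_mul_inv]
      have e2 : (1 / (x:ℂ) ^ 2) = -1 * -((x:ℂ) ^ 2)⁻¹ := by rw [one_div]; ring
      rw [e1, e2]
      exact this
    exact h1.comp_ofReal
  have dv : ∀ x ∈ Ioi (0:ℝ), HasDerivAt v (v' x) x := by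
    intro x _
    have h1 : HasDerivAt (fun z : ℂ => 1 - Complex.exp (-b * z ^ 2)) (2 * b * x * Complex.exp (-b * (x:ℂ) ^ 2)) (x:ℂ) := by
      have h2 : HasDerivAt (fun z : ℂ => -b * z ^ 2) (-b * (2 * (x:ℂ))) (x:ℂ) := by
        have := (hasDerivAt_pow 2 (x:ℂ)).const_mul (-b)
        simpa using this
      have h3 := (h2.cexp).const_sub 1
      have e1 : 2 * b * x * Complex.exp (-b * (x:ℂ) ^ 2) = -(Complex.exp (-b * (x:ℂ) ^ 2) * (-b * (2 * (x:ℂ)))) := by ring
      rw [e1]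
      exact h3
    exact h1.comp_ofReal
  have huv' : IntegrableOn (u * v') (Ioi 0) := by
    have : IntegrableOn (fun x : ℝ => (-2 * b) * Complex.exp (-b * (x:ℂ) ^ 2)) (Ioi 0) := hgi.const_mul _
    refine this.congr_fun ?_ measurableSet_Ioi
    intro x hx
    have hx0 : (x:ℂ) ≠ 0 := by exact_mod_cast (ne_of_gt hx)
    simp only [hu, hv', Pi.mul_apply]
    field_simp
  have hu'v : IntegrableOn (u' * v) (Ioi 0) := Kf_int hb.le
  have hnb : ∀ x : ℝ, 0 < x → ‖(u * v) x‖ ≤ 2 * min (1 / x) (‖b‖ * x) := by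
    intro x hx
    have h1 := Kf_le hb.le hx le_rfl
    unfold Kf dm at h1
    have e : (u * v) x = -(x:ℂ) * ((1 / (x:ℂ) ^ 2) * (1 - Complex.exp (-b * (x:ℂ) ^ 2))) := by
      have hx0 : (x:ℂ) ≠ 0 := by exact_mod_cast (ne_of_gt hx)
      simp only [hu, hv, Pi.mul_apply]
      field_simp
    rw [e, norm_mul, norm_neg, Complex.norm_real, Real.norm_eq_abs, abs_of_pos hx]
    calc x * _ ≤ x * (2 * min (1 / x ^ 2) ‖b‖) := mul_le_mul_of_nonneg_left h1 hx.le
      _ = 2 * (x * min (1 / x ^ 2) ‖b‖) := by ring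
      _ = _ := by
        rw [mul_min_of_nonneg _ _ hx.le]
        congr 2
        · field_simp
        · ring
  have h_zero : Tendsto (u * v) (𝓝[>] 0) (𝓝 0) := by
    apply squeeze_zero_norm' (a := fun x : ℝ => 2 * (‖b‖ * x))
    · filter_upwards [self_mem_nhdsWithin] with x hx
      refine (hnb x hx).trans ?_
      have := min_le_right (1 / x) (‖b‖ * x)
      linarith
    · have : Tendsto (fun x : ℝ => 2 * (‖b‖ * x)) (𝓝 0) (𝓝 (2 * (‖b‖ * 0))) := by
        apply Continuous.tendsto; fun_prop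
      simp only [mul_zero] at this
      exact this.mono_left nhdsWithin_le_nhds
  have h_infty : Tendsto (u * v) atTop (𝓝 0) := by
    apply squeeze_zero_norm' (a := fun x : ℝ => 2 * (1 / x))
    · filter_upwards [eventually_gt_atTop 0] with x hx
      refine (hnb x hx).trans ?_
      have := min_le_left (1 / x) (‖b‖ * x)
      linarith
    · have : Tendsto (fun x : ℝ => 1 / x) atTop (𝓝 0) := by
        simp only [one_div]; exact tendsto_inv_atTop_zero
      have := this.const_mul 2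
      simpa using this
  have h := integral_Ioi_mul_deriv_eq_deriv_mul du dv huv' hu'v h_zero h_infty
  have e1 : ∫ x in Ioi (0:ℝ), u x * v' x = (-2 * b) * ∫ x in Ioi (0:ℝ), Complex.exp (-b * (x:ℂ) ^ 2) := by
    rw [← integral_const_mul]
    apply setIntegral_congr_fun measurableSet_Ioi
    intro x hx
    have hx0 : (x:ℂ) ≠ 0 := by exact_mod_cast (ne_of_gt hx)
    simp only [hu, hv']
    field_simp
  have e2 : ∫ x in Ioi (0:ℝ), u' x * v x = ∫ x in Ioi (0:ℝ), Kf b x := rfl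
  rw [e1, e2, hg] at h
  linear_combination h

lemma K2 {t : ℝ} (ht : 0 < t) : ∫ x in Ioi (0:ℝ), Kf (-(t:ℂ) * Complex.I) x = (-(t:ℂ) * Complex.I) * (Real.pi / (-(t:ℂ) * Complex.I)) ^ (1/2:ℂ) := by
  set b0 : ℂ := -(t:ℂ) * Complex.I with hb0
  set bn : ℕ → ℂ := fun n => b0 + ((1 / ((n:ℝ) + 1) : ℝ) : ℂ) with hbn
  have hbre : ∀ n, 0 < (bn n).re := by
    intro n
    simp only [hbn, hb0]
    rw [Complex.add_re, Complex.ofReal_re, Complex.mul_I_re, Complex.neg_im, Complex.ofReal_im]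
    have : 0 < 1 / ((n:ℝ) + 1) := by positivity
    linarith
  have hblim : Tendsto bn atTop (𝓝 b0) := by
    have h1 : Tendsto (fun n : ℕ => 1 / ((n:ℝ) + 1)) atTop (𝓝 0) := tendsto_one_div_add_atTop_nhds_zero_nat
    have h2 := (Complex.continuous_ofReal.tendsto 0).comp h1
    have h3 := h2.const_add b0
    rw [Complex.ofReal_zero, add_zero] at h3
    exact h3
  have hnorm : ∀ n, ‖bn n‖ ≤ t + 1 := by
    intro n
    simp only [hbn, hb0]
    refine (norm_add_le _ _).trans ?_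
    rw [norm_mul, norm_neg, Complex.norm_I, mul_one, Complex.norm_real, Complex.norm_real, Real.norm_eq_abs, Real.norm_eq_abs,
      abs_of_pos ht, abs_of_pos (by positivity)]
    have : 1 / ((n:ℝ) + 1) ≤ 1 := by
      rw [div_le_one (by positivity)]
      have : (0:ℝ) ≤ n := Nat.cast_nonneg n
      linarith
    linarith
  have hL : Tendsto (fun n => ∫ x in Ioi (0:ℝ), Kf (bn n) x) atTop (𝓝 (∫ x in Ioi (0:ℝ), Kf b0 x)) := by
    apply tendsto_integral_of_dominated_convergence (dm (t + 1))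
    · intro n; exact (Kf_meas _).aestronglyMeasurable
    · exact dm_int (by linarith)
    · intro n
      rw [ae_restrict_iff' measurableSet_Ioi]
      exact ae_of_all _ (fun x hx => Kf_le (hbre n).le hx (hnorm n))
    · refine ae_of_all _ (fun x => ?_)
      unfold Kf
      have hc : Continuous (fun b : ℂ => (1 / (x:ℂ) ^ 2) * (1 - Complex.exp (-b * (x:ℂ) ^ 2))) := by fun_prop
      exact (hc.tendsto b0).comp hblim
  have hR : Tendsto (fun n => bn n * (Real.pi / bn n) ^ (1/2:ℂ)) atTop (𝓝 (b0 * (Real.pi / b0) ^ (1/2:ℂ))) := by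
    have hb0' : b0 ≠ 0 := by
      rw [hb0]
      simp [ht.ne']
    have hq : (Real.pi / b0 : ℂ) = ((Real.pi / t : ℝ) : ℂ) * Complex.I := by
      rw [hb0]
      have ht' : (t:ℂ) ≠ 0 := by exact_mod_cast ht.ne'
      rw [div_eq_iff (by simp [ht.ne'])]
      push_cast
      have : (Real.pi:ℂ) / t * Complex.I * (-t * Complex.I) = -(Real.pi / t * t) * (Complex.I * Complex.I) := by ring
      rw [this, Complex.I_mul_I, div_mul_cancel₀ _ ht']
      ring
    have hsl : (Real.pi / b0 : ℂ) ∈ Complex.slitPlane := by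
      rw [hq, Complex.mem_slitPlane_iff]
      right
      rw [Complex.mul_I_im, Complex.ofReal_re]
      positivity
    have h1 : Tendsto (fun n => (Real.pi / bn n : ℂ)) atTop (𝓝 (Real.pi / b0)) :=
      Tendsto.div tendsto_const_nhds hblim hb0'
    have h2 : ContinuousAt (fun z : ℂ => z ^ (1/2:ℂ)) (Real.pi / b0) := continuousAt_id.cpow continuousAt_const hsl
    exact hblim.mul (h2.tendsto.comp h1)
  have heq : (fun n => ∫ x in Ioi (0:ℝ), Kf (bn n) x) = fun n => bn n * (Real.pi / bn n) ^ (1/2:ℂ) := by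
    funext n; exact K1 (hbre n)
  rw [heq] at hL
  exact tendsto_nhds_unique hL hR

lemma K3 {t : ℝ} (ht : 0 < t) : (-(t:ℂ) * Complex.I) * (Real.pi / (-(t:ℂ) * Complex.I)) ^ (1/2:ℂ) =
    ((√(Real.pi * t) : ℝ) : ℂ) * Complex.exp (((-(Real.pi / 4) : ℝ) : ℂ) * Complex.I) := by
  have hpi := Real.pi_pos
  have ht' : (t:ℂ) ≠ 0 := by exact_mod_cast ht.ne'
  have hq : (Real.pi / (-(t:ℂ) * Complex.I) : ℂ) = ((Real.pi / t : ℝ) : ℂ) * Complex.I := by
    rw [div_eq_iff (by simp [ht.ne'])]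
    push_cast
    have : (Real.pi:ℂ) / t * Complex.I * (-t * Complex.I) = -(Real.pi / t * t) * (Complex.I * Complex.I) := by ring
    rw [this, Complex.I_mul_I, div_mul_cancel₀ _ ht']
    ring
  have hr : 0 < Real.pi / t := by positivity
  have h1 : (((Real.pi / t : ℝ) : ℂ) * Complex.I) ^ (1/2:ℂ) = ((√(Real.pi / t) : ℝ) : ℂ) * Complex.exp (((Real.pi / 4 : ℝ) : ℂ) * Complex.I) := by
    rw [Complex.cpow_def_of_ne_zero (mul_ne_zero (by exact_mod_cast hr.ne') Complex.I_ne_zero), Complex.log_ofReal_mul hr Complex.I_ne_zero, Complex.log_I]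
    have : (((Real.log (Real.pi / t) : ℝ) : ℂ) + (Real.pi:ℂ) / 2 * Complex.I) * (1/2) = ((Real.log (Real.pi / t) * (1/2) : ℝ) : ℂ) + ((Real.pi / 4 : ℝ) : ℂ) * Complex.I := by
      push_cast; ring
    rw [this, Complex.exp_add, ← Complex.ofReal_exp]
    congr 2
    rw [Real.sqrt_eq_rpow, Real.rpow_def_of_pos hr]
  rw [hq, h1]
  have e1 : Complex.exp (((-(Real.pi / 4) : ℝ) : ℂ) * Complex.I) = -Complex.I * Complex.exp (((Real.pi / 4 : ℝ) : ℂ) * Complex.I) := by
    have h2 : -Complex.I = Complex.exp (((-(Real.pi / 2) : ℝ) : ℂ) * Complex.I) := by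
      rw [Complex.exp_ofReal_mul_I, Real.cos_neg, Real.sin_neg, Real.cos_pi_div_two, Real.sin_pi_div_two]
      simp
    rw [h2, ← Complex.exp_add]
    congr 1
    push_cast; ring
  have e2 : √(Real.pi * t) = t * √(Real.pi / t) := by
    rw [show Real.pi * t = t ^ 2 * (Real.pi / t) by field_simp, Real.sqrt_mul (by positivity), Real.sqrt_sq ht.le]
  rw [e1, e2]
  push_cast
  ring

/-- the integral -/
theorem osc_int {t : ℝ} (ht : 0 < t) (φ : ℝ) : ∫ x in Ioi (0:ℝ), x ^ (-(3/2):ℝ) * (Real.cos φ - Real.cos (x * t - φ)) =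
    2 * √(Real.pi * t) * Real.cos (φ + Real.pi / 4) := by
  have h1 := integral_comp_rpow_Ioi_of_pos (g := fun x : ℝ => x ^ (-(3/2):ℝ) * (Real.cos φ - Real.cos (x * t - φ))) (p := 2) (by norm_num)
  rw [← h1]
  have h2 : ∀ x ∈ Ioi (0:ℝ), (2 * x ^ ((2:ℝ) - 1)) • ((x ^ (2:ℝ)) ^ (-(3/2):ℝ) * (Real.cos φ - Real.cos (x ^ (2:ℝ) * t - φ))) =
      2 * (Complex.exp (((-φ : ℝ) : ℂ) * Complex.I) * Kf (-(t:ℂ) * Complex.I) x).re := by
    intro x hx
    have hx0 : (0:ℝ) < x := hx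
    rw [← Real.rpow_mul hx0.le, smul_eq_mul]
    have e1 : x ^ ((2:ℝ) - 1) * x ^ ((2:ℝ) * (-(3/2))) = 1 / x ^ 2 := by
      rw [← Real.rpow_add hx0, one_div, ← Real.rpow_natCast, ← Real.rpow_neg hx0.le]
      norm_num
    have e2 : x ^ (2:ℝ) = x ^ 2 := by norm_cast
    rw [e2]
    have e3 : Complex.exp (((-φ : ℝ) : ℂ) * Complex.I) * Kf (-(t:ℂ) * Complex.I) x =
        ((1 / x ^ 2 : ℝ) : ℂ) * (Complex.exp (((-φ : ℝ) : ℂ) * Complex.I) - Complex.exp (((x ^ 2 * t - φ : ℝ) : ℂ) * Complex.I)) := by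
      unfold Kf
      have : Complex.exp (((x ^ 2 * t - φ : ℝ) : ℂ) * Complex.I) = Complex.exp (((-φ : ℝ) : ℂ) * Complex.I) *
          Complex.exp (-(-(t:ℂ) * Complex.I) * (x:ℂ) ^ 2) := by
        rw [← Complex.exp_add]
        congr 1
        push_cast; ring
      rw [this]
      push_cast
      ring
    rw [e3, Complex.re_ofReal_mul, Complex.sub_re, Complex.exp_ofReal_mul_I_re, Complex.exp_ofReal_mul_I_re, Real.cos_neg]
    calc 2 * x ^ ((2:ℝ) - 1) * (x ^ ((2:ℝ) * (-(3/2))) * (Real.cos φ - Real.cos (x ^ 2 * t - φ)))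
        = 2 * (x ^ ((2:ℝ) - 1) * x ^ ((2:ℝ) * (-(3/2)))) * (Real.cos φ - Real.cos (x ^ 2 * t - φ)) := by ring
      _ = _ := by rw [e1]; ring
  rw [setIntegral_congr_fun measurableSet_Ioi h2, integral_const_mul]
  have h3 : ∫ x in Ioi (0:ℝ), (Complex.exp (((-φ : ℝ) : ℂ) * Complex.I) * Kf (-(t:ℂ) * Complex.I) x).re =
      (∫ x in Ioi (0:ℝ), Complex.exp (((-φ : ℝ) : ℂ) * Complex.I) * Kf (-(t:ℂ) * Complex.I) x).re := by
    have hi : IntegrableOn (fun x => Complex.exp (((-φ : ℝ) : ℂ) * Complex.I) * Kf (-(t:ℂ) * Complex.I) x) (Ioi 0) := by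
      apply Integrable.const_mul
      apply Kf_int
      rw [Complex.mul_I_re, Complex.neg_im, Complex.ofReal_im]
      simp
    exact integral_re hi
  rw [h3, integral_const_mul, K2 ht, K3 ht, mul_left_comm, ← Complex.exp_add, Complex.re_ofReal_mul]
  have e4 : ((-φ : ℝ) : ℂ) * Complex.I + ((-(Real.pi / 4) : ℝ) : ℂ) * Complex.I = ((-(φ + Real.pi / 4) : ℝ) : ℂ) * Complex.I := by
    push_cast; ring
  rw [e4, Complex.exp_ofReal_mul_I_re, Real.cos_neg]
  ring

end Pool.Agent.N48.Ann
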