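import Mathlib
import Pool.Agent.N48.Ann.NT4
import Pool.Agent.N48.Ann.NT7
import Pool.Agent.N48.Ann.NT8

open MeasureTheory Set Filter Topology

namespace Pool.Agent.N48.Ann

/-- the oscillating factor -/
noncomputable def ψ (φ v : ℝ) : ℝ := Real.cos φ - Real.cos (v - φ)

lemma ψ_two (φ v : ℝ) : |ψ φ v| ≤ 2 := by
  unfold ψ
  have h1 := Real.abs_cos_le_one φ
  have h2 := Real.abs_cos_le_one (v - φ)
  exact (abs_sub _ _).trans (by linarith)

lemma ψ_lip (φ u v : ℝ) : |ψ φ u - ψ φ v| ≤ |u - v| := by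
  unfold ψ
  have e : Real.cos φ - Real.cos (u - φ) - (Real.cos φ - Real.cos (v - φ)) = Real.cos (v - φ) - Real.cos (u - φ) := by ring
  rw [e, abs_sub_comm]
  refine (Real.abs_cos_sub_cos_le _ _).trans (le_of_eq ?_)
  congr 1; ring

lemma ψ_le (φ v : ℝ) : |ψ φ v| ≤ |v| := by
  have h := ψ_lip φ v 0
  have h0 : ψ φ 0 = 0 := by unfold ψ; rw [zero_sub, Real.cos_neg, sub_self]
  rwa [h0, sub_zero, sub_zero] at h

/-- the weight -/
noncomputable def ff (φ t x : ℝ) : ℝ := x ^ (-(3/2):ℝ) * ψ φ (x * t)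

lemma pow_diff {k x : ℝ} (hk : 1 ≤ k) (hx : k ≤ x) (hx1 : x ≤ k + 1) :
    0 ≤ k ^ (-(3/2):ℝ) - x ^ (-(3/2):ℝ) ∧ k ^ (-(3/2):ℝ) - x ^ (-(3/2):ℝ) ≤ (3/2) * (k ^ (-(3/2):ℝ) / k) := by
  have hk0 : 0 < k := by linarith
  have hx0 : 0 < x := by linarith
  constructor
  · have := Real.rpow_le_rpow_of_nonpos hk0 hx (show (-(3/2):ℝ) ≤ 0 by norm_num)
    linarith
  · have e1 : x = k * (1 + (x - k) / k) := by field_simp; ring
    have hy : 0 ≤ (x - k) / k := by apply div_nonneg; linarith; linarith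
    have hy1 : (x - k) / k ≤ 1 / k := by gcongr; linarith
    have h2 : 1 - (3/2) * ((x - k) / k) ≤ (1 + (x - k) / k) ^ (-(3/2):ℝ) := by
      rw [Real.rpow_def_of_pos (by linarith)]
      have h3 := Real.add_one_le_exp (Real.log (1 + (x - k) / k) * (-(3/2)))
      have h4 : Real.log (1 + (x - k) / k) ≤ (x - k) / k := by
        have := Real.log_le_sub_one_of_pos (show 0 < 1 + (x - k) / k by linarith)
        linarith
      linarith
    have h5 : k ^ (-(3/2):ℝ) * (1 - (3/2) * ((x - k) / k)) ≤ x ^ (-(3/2):ℝ) := by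
      rw [e1, Real.mul_rpow hk0.le (by linarith)]
      have e2 : (k * (1 + (x - k) / k) - k) / k = (x - k) / k := by field_simp; ring
      rw [e2]
      exact mul_le_mul_of_nonneg_left h2 (by positivity)
    have h6 : k ^ (-(3/2):ℝ) * ((3/2) * ((x - k) / k)) ≤ k ^ (-(3/2):ℝ) * ((3/2) * (1 / k)) := by gcongr
    have e3 : (3/2) * (k ^ (-(3/2):ℝ) / k) = k ^ (-(3/2):ℝ) * ((3/2) * (1 / k)) := by ring
    rw [e3]
    linarith

lemma ff_diff (φ : ℝ) {t k x : ℝ} (ht : 0 < t) (hk : 1 ≤ k) (hx : k ≤ x) (hx1 : x ≤ k + 1) :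
    |ff φ t k - ff φ t x| ≤ (5/2) * t * k ^ (-(3/2):ℝ) := by
  have hk0 : 0 < k := by linarith
  have hx0 : 0 < x := by linarith
  obtain ⟨h1, h2⟩ := pow_diff hk hx hx1
  unfold ff
  have e : k ^ (-(3/2):ℝ) * ψ φ (k * t) - x ^ (-(3/2):ℝ) * ψ φ (x * t) =
      (k ^ (-(3/2):ℝ) - x ^ (-(3/2):ℝ)) * ψ φ (k * t) + x ^ (-(3/2):ℝ) * (ψ φ (k * t) - ψ φ (x * t)) := by ring
  rw [e]
  refine (abs_add_le _ _).trans ?_
  rw [abs_mul, abs_mul, abs_of_nonneg h1, abs_of_pos (show 0 < x ^ (-(3/2):ℝ) by positivity)]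
  have h3 : |ψ φ (k * t)| ≤ k * t := by
    have := ψ_le φ (k * t)
    rwa [abs_of_pos (show 0 < k * t by positivity)] at this
  have h4 : |ψ φ (k * t) - ψ φ (x * t)| ≤ t := by
    refine (ψ_lip φ _ _).trans ?_
    have : k * t - x * t = -((x - k) * t) := by ring
    rw [this, abs_neg, abs_mul, abs_of_pos ht, abs_of_nonneg (by linarith)]
    nlinarith
  have h5 : (k ^ (-(3/2):ℝ) - x ^ (-(3/2):ℝ)) * |ψ φ (k * t)| ≤ (3/2) * (k ^ (-(3/2):ℝ) / k) * (k * t) :=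
    mul_le_mul h2 h3 (abs_nonneg _) (by positivity)
  have h6 : x ^ (-(3/2):ℝ) * |ψ φ (k * t) - ψ φ (x * t)| ≤ k ^ (-(3/2):ℝ) * t := by
    apply mul_le_mul (by linarith) h4 (abs_nonneg _) (by positivity)
  have e2 : (3/2) * (k ^ (-(3/2):ℝ) / k) * (k * t) = (3/2) * (k ^ (-(3/2):ℝ) * t) := by field_simp
  rw [e2] at h5
  linarith

lemma ff_cont (φ t : ℝ) : ContinuousOn (ff φ t) (Ioi 0) := by
  unfold ff ψ
  apply ContinuousOn.mul
  · apply ContinuousOn.rpow_const continuousOn_id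
    intro x hx
    left
    exact ne_of_gt hx
  · fun_prop

lemma ff_meas (φ t : ℝ) : Measurable (ff φ t) := by
  unfold ff ψ; fun_prop

lemma ff_le1 (φ : ℝ) {t x : ℝ} (ht : 0 < t) (hx : 0 < x) : |ff φ t x| ≤ t * x ^ (-(1/2):ℝ) := by
  unfold ff
  rw [abs_mul, abs_of_pos (show 0 < x ^ (-(3/2):ℝ) by positivity)]
  have h3 : |ψ φ (x * t)| ≤ x * t := by
    have := ψ_le φ (x * t)
    rwa [abs_of_pos (show 0 < x * t by positivity)] at this
  calc x ^ (-(3/2):ℝ) * |ψ φ (x * t)| ≤ x ^ (-(3/2):ℝ) * (x * t) := by gcongr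
    _ = t * (x ^ (-(3/2):ℝ) * x ^ (1:ℝ)) := by rw [Real.rpow_one]; ring
    _ = _ := by rw [← Real.rpow_add hx]; norm_num

lemma ff_le2 (φ : ℝ) {t x : ℝ} (hx : 0 < x) : |ff φ t x| ≤ 2 * x ^ (-(3/2):ℝ) := by
  unfold ff
  rw [abs_mul, abs_of_pos (show 0 < x ^ (-(3/2):ℝ) by positivity), mul_comm]
  have := ψ_two φ (x * t)
  gcongr

lemma ff_int1 (φ : ℝ) {t : ℝ} (ht : 0 < t) : IntegrableOn (ff φ t) (Ioc 0 1) ∧ |∫ x in Ioc (0:ℝ) 1, ff φ t x| ≤ 2 * t := by
  have h0 : IntervalIntegrable (fun x : ℝ => x ^ (-(1/2):ℝ)) volume 0 1 := intervalIntegral.intervalIntegrable_rpow' (by norm_num)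
  have h1 : IntegrableOn (fun x : ℝ => t * x ^ (-(1/2):ℝ)) (Ioc 0 1) := by
    have := (intervalIntegrable_iff_integrableOn_Ioc_of_le zero_le_one).mp h0
    exact this.const_mul t
  have hb : ∀ᵐ x ∂(volume.restrict (Ioc (0:ℝ) 1)), ‖ff φ t x‖ ≤ t * x ^ (-(1/2):ℝ) := by
    rw [ae_restrict_iff' measurableSet_Ioc]
    refine ae_of_all _ (fun x hx => ?_)
    rw [Real.norm_eq_abs]
    exact ff_le1 φ ht hx.1
  refine ⟨Integrable.mono' h1 (ff_meas φ t).aestronglyMeasurable hb, ?_⟩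
  have h2 := norm_integral_le_of_norm_le h1 hb
  rw [Real.norm_eq_abs] at h2
  refine h2.trans (le_of_eq ?_)
  rw [← intervalIntegral.integral_of_le zero_le_one, intervalIntegral.integral_const_mul, integral_rpow (Or.inl (by norm_num))]
  norm_num
  ring

lemma ff_int2 (φ : ℝ) {t a : ℝ} (ha : 0 < a) : IntegrableOn (ff φ t) (Ioi a) ∧ |∫ x in Ioi a, ff φ t x| ≤ 4 * a ^ (-(1/2):ℝ) := by
  have h1 : IntegrableOn (fun x : ℝ => 2 * x ^ (-(3/2):ℝ)) (Ioi a) := (integrableOn_Ioi_rpow_of_lt (by norm_num) ha).const_mul 2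
  have hb : ∀ᵐ x ∂(volume.restrict (Ioi a)), ‖ff φ t x‖ ≤ 2 * x ^ (-(3/2):ℝ) := by
    rw [ae_restrict_iff' measurableSet_Ioi]
    refine ae_of_all _ (fun x hx => ?_)
    rw [Real.norm_eq_abs]
    exact ff_le2 φ (lt_trans ha hx)
  refine ⟨Integrable.mono' h1 (ff_meas φ t).aestronglyMeasurable hb, ?_⟩
  have h2 := norm_integral_le_of_norm_le h1 hb
  rw [Real.norm_eq_abs] at h2
  refine h2.trans (le_of_eq ?_)
  rw [integral_const_mul, integral_Ioi_rpow_of_lt (by norm_num) ha]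
  norm_num
  ring

/-- sum versus integral -/
lemma sum_ff (φ : ℝ) {t : ℝ} (ht : 0 < t) {K : ℕ} (hK : 1 ≤ K) :
    |∑ k ∈ Finset.Icc 1 K, ff φ t k - 2 * √(Real.pi * t) * Real.cos (φ + Real.pi / 4)| ≤ 10 * t + 4 * (K:ℝ) ^ (-(1/2):ℝ) := by
  have hK0 : (0:ℝ) < K := by exact_mod_cast hK
  rw [← osc_int ht φ]
  have hI : ∫ x in Ioi (0:ℝ), x ^ (-(3/2):ℝ) * (Real.cos φ - Real.cos (x * t - φ)) = ∫ x in Ioi (0:ℝ), ff φ t x := rfl
  rw [hI]
  obtain ⟨i1, b1⟩ := ff_int1 φ ht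
  obtain ⟨i2, -⟩ := ff_int2 φ (t := t) one_pos
  obtain ⟨i3, b3⟩ := ff_int2 φ (t := t) (a := (K:ℝ) + 1) (by positivity)
  have hs1 : ∫ x in Ioi (0:ℝ), ff φ t x = (∫ x in Ioc (0:ℝ) 1, ff φ t x) + ∫ x in Ioi (1:ℝ), ff φ t x := by
    rw [← Ioc_union_Ioi_eq_Ioi zero_le_one, setIntegral_union (Ioc_disjoint_Ioi le_rfl) measurableSet_Ioi i1 i2]
  have hs2 : ∫ x in Ioi (1:ℝ), ff φ t x = (∫ x in (1:ℝ)..((K:ℝ)+1), ff φ t x) + ∫ x in Ioi ((K:ℝ)+1), ff φ t x := by
    rw [intervalIntegral.integral_of_le (by linarith), ← Ioc_union_Ioi_eq_Ioi (show (1:ℝ) ≤ K + 1 by linarith),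
      setIntegral_union (Ioc_disjoint_Ioi le_rfl) measurableSet_Ioi (i2.mono_set Ioc_subset_Ioi_self) i3]
  have hii : ∀ a b : ℝ, 1 ≤ a → a ≤ b → IntervalIntegrable (ff φ t) volume a b := by
    intro a b ha hab
    rw [intervalIntegrable_iff_integrableOn_Ioc_of_le hab]
    apply i2.mono_set
    intro x hx
    exact lt_of_le_of_lt ha hx.1
  have hs3 : ∫ x in (1:ℝ)..((K:ℝ)+1), ff φ t x = ∑ k ∈ Finset.range K, ∫ x in ((k:ℝ)+1)..((k:ℝ)+1+1), ff φ t x := by
    have := intervalIntegral.sum_integral_adjacent_intervals (μ := volume) (f := ff φ t) (a := fun k : ℕ => (k:ℝ) + 1) (n := K) (by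
      intro k _
      apply hii
      · have : (0:ℝ) ≤ k := Nat.cast_nonneg k
        linarith
      · push_cast; linarith)
    simp only [Nat.cast_zero, zero_add, Nat.cast_add, Nat.cast_one] at this
    rw [this]
  have hs4 : ∑ k ∈ Finset.Icc 1 K, ff φ t k = ∑ k ∈ Finset.range K, ff φ t ((k:ℝ) + 1) := by
    rw [Finset.range_eq_Ico, Finset.sum_bij (fun k _ => k - 1)]
    · intro k hk; rw [Finset.mem_Icc] at hk; rw [Finset.mem_Ico]; omega
    · intro a ha b hb h; rw [Finset.mem_Icc] at ha hb; omega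
    · intro k hk
      rw [Finset.mem_Ico] at hk
      exact ⟨k + 1, by rw [Finset.mem_Icc]; omega, by omega⟩
    · intro k hk
      rw [Finset.mem_Icc] at hk
      congr 1
      rw [Nat.cast_sub hk.1]; push_cast; ring
  have hdiff : |∑ k ∈ Finset.Icc 1 K, ff φ t k - ∫ x in (1:ℝ)..((K:ℝ)+1), ff φ t x| ≤ (5/2) * t * 3 := by
    rw [hs3, hs4, ← Finset.sum_sub_distrib]
    refine (Finset.abs_sum_le_sum_abs _ _).trans ?_
    calc ∑ k ∈ Finset.range K, |ff φ t ((k:ℝ)+1) - ∫ x in ((k:ℝ)+1)..((k:ℝ)+1+1), ff φ t x|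
        ≤ ∑ k ∈ Finset.range K, (5/2) * t * ((k:ℝ)+1) ^ (-(3/2):ℝ) := by
          apply Finset.sum_le_sum
          intro k _
          have hk : (0:ℝ) ≤ k := Nat.cast_nonneg k
          have e1 : ff φ t ((k:ℝ)+1) = ∫ x in ((k:ℝ)+1)..((k:ℝ)+1+1), ff φ t ((k:ℝ)+1) := by
            rw [intervalIntegral.integral_const]; simp
          rw [e1, ← intervalIntegral.integral_sub (by simp) (hii _ _ (by linarith) (by linarith))]
          have h2 := intervalIntegral.norm_integral_le_of_norm_le_const (a := (k:ℝ)+1) (b := (k:ℝ)+1+1)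
            (f := fun x => ff φ t ((k:ℝ)+1) - ff φ t x) (C := (5/2) * t * ((k:ℝ)+1) ^ (-(3/2):ℝ)) (by
              intro x hx
              rw [uIoc_of_le (by linarith)] at hx
              rw [Real.norm_eq_abs]
              exact ff_diff φ ht (by linarith) hx.1.le hx.2)
          rw [Real.norm_eq_abs] at h2
          refine h2.trans (le_of_eq ?_)
          rw [show (k:ℝ) + 1 + 1 - (k + 1) = 1 by ring, abs_one, mul_one]
      _ = (5/2) * t * ∑ k ∈ Finset.range K, ((k:ℝ)+1) ^ (-(3/2):ℝ) := by rw [Finset.mul_sum]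
      _ ≤ (5/2) * t * 3 := by
          apply mul_le_mul_of_nonneg_left _ (by positivity)
          have e : ∑ k ∈ Finset.range K, ((k:ℝ)+1) ^ (-(3/2):ℝ) = 1 + ∑ k ∈ Finset.Ioc 1 K, (k:ℝ) ^ (-(3/2):ℝ) := by
            have e1 : ∑ k ∈ Finset.range K, ((k:ℝ)+1) ^ (-(3/2):ℝ) = ∑ k ∈ Finset.Icc 1 K, (k:ℝ) ^ (-(3/2):ℝ) := by
              rw [Finset.range_eq_Ico]
              symm
              rw [Finset.sum_bij (fun k _ => k - 1)]
              · intro k hk; rw [Finset.mem_Icc] at hk; rw [Finset.mem_Ico]; omega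
              · intro a ha b hb h; rw [Finset.mem_Icc] at ha hb; omega
              · intro k hk
                rw [Finset.mem_Ico] at hk
                exact ⟨k + 1, by rw [Finset.mem_Icc]; omega, by omega⟩
              · intro k hk
                rw [Finset.mem_Icc] at hk
                congr 1
                rw [Nat.cast_sub hk.1]; push_cast; ring
            have e2 : Finset.Icc 1 K = insert 1 (Finset.Ioc 1 K) := by
              ext m; simp only [Finset.mem_Icc, Finset.mem_insert, Finset.mem_Ioc]; omega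
            rw [e1, e2, Finset.sum_insert (by simp)]
            simp
          rw [e]
          have := tail_rpow (s := 3/2) (by norm_num) (le_refl 1) K
          norm_num at this ⊢
          linarith
  have hKK : ((K:ℝ)+1) ^ (-(1/2):ℝ) ≤ (K:ℝ) ^ (-(1/2):ℝ) := Real.rpow_le_rpow_of_nonpos hK0 (by linarith) (by norm_num)
  rw [hs1, hs2]
  obtain ⟨c1, c2⟩ := abs_le.mp hdiff
  obtain ⟨c3, c4⟩ := abs_le.mp b1
  obtain ⟨c5, c6⟩ := abs_le.mp b3
  rw [abs_le]
  constructor <;> linarith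

lemma abel_abs {D f : ℕ → ℝ} {C : ℝ} (hP : ∀ X : ℕ, 1 ≤ X → |∑ k ∈ Finset.Icc 1 X, D k| ≤ C * X) {K : ℕ} (hK : 1 ≤ K) :
    |∑ k ∈ Finset.Icc 1 K, D k * f k| ≤ C * K * |f K| + ∑ k ∈ Finset.Icc 1 (K-1), C * k * |f k - f (k+1)| := by
  have key : ∀ K : ℕ, 1 ≤ K → ∑ k ∈ Finset.Icc 1 K, D k * f k = (∑ k ∈ Finset.Icc 1 K, D k) * f K +
      ∑ k ∈ Finset.Icc 1 (K-1), (∑ j ∈ Finset.Icc 1 k, D j) * (f k - f (k+1)) := by
    intro K hK
    induction K, hK using Nat.le_induction with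
    | base => simp
    | succ n hn ih =>
      rw [Finset.sum_Icc_succ_top (by omega), Finset.sum_Icc_succ_top (by omega), ih]
      have e : Finset.Icc 1 (n + 1 - 1) = Finset.Icc 1 ((n - 1) + 1) := by congr 1; omega
      rw [e, Finset.sum_Icc_succ_top (by omega)]
      have e2 : n - 1 + 1 = n := by omega
      rw [e2]
      ring
  rw [key K hK]
  refine (abs_add_le _ _).trans ?_
  apply add_le_add
  · rw [abs_mul]
    exact mul_le_mul_of_nonneg_right (hP K hK) (abs_nonneg _)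
  · refine (Finset.abs_sum_le_sum_abs _ _).trans ?_
    apply Finset.sum_le_sum
    intro k hk
    rw [Finset.mem_Icc] at hk
    rw [abs_mul]
    exact mul_le_mul_of_nonneg_right (hP k hk.1) (abs_nonneg _)

end Pool.Agent.N48.Ann
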