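import Mathlib
import Pool.Agent.N48.Ann.NT9

open MeasureTheory Set Filter Topology

namespace Pool.Agent.N48.Ann

/-- number of points of the circle of radius `k` -/
noncomputable def gz (k : ℕ) : ℝ := ((Zk k).card : ℝ)

lemma gz_nonneg (k : ℕ) : 0 ≤ gz k := Nat.cast_nonneg _

lemma sum_log (X : ℕ) (hX : 1 ≤ X) : |∑ k ∈ Finset.Icc 1 X, Real.log k - X * Real.log X| ≤ X := by
  have h : ∀ n : ℕ, 1 ≤ n → (n:ℝ) * Real.log n ≤ ∑ m ∈ Finset.Icc 1 n, (1 + Real.log m) := by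
    intro n hn
    induction n, hn using Nat.le_induction with
    | base => simp
    | succ n hn ih =>
      rw [Finset.sum_Icc_succ_top (by omega)]
      have hn0 : (0:ℝ) < n := by exact_mod_cast hn
      have h1 : Real.log ((n+1:ℕ):ℝ) ≤ Real.log n + 1 / n := by
        have e : ((n+1:ℕ):ℝ) = n * (1 + 1 / n) := by push_cast; field_simp
        rw [e, Real.log_mul hn0.ne' (by positivity)]
        have := Real.log_le_sub_one_of_pos (show (0:ℝ) < 1 + 1 / n by positivity)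
        linarith
      have h2 : (n:ℝ) * Real.log ((n+1:ℕ):ℝ) ≤ n * Real.log n + 1 := by
        calc _ ≤ (n:ℝ) * (Real.log n + 1 / n) := mul_le_mul_of_nonneg_left h1 hn0.le
          _ = _ := by field_simp
      have e : ((n+1:ℕ):ℝ) * Real.log ((n+1:ℕ):ℝ) = n * Real.log ((n+1:ℕ):ℝ) + Real.log ((n+1:ℕ):ℝ) := by push_cast; ring
      rw [e]
      linarith
  have h1 := h X hX
  rw [Finset.sum_add_distrib] at h1
  simp only [Finset.sum_const, Nat.card_Icc, Nat.add_sub_cancel, nsmul_eq_mul, mul_one] at h1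
  have h2 : ∑ k ∈ Finset.Icc 1 X, Real.log k ≤ X * Real.log X := by
    calc ∑ k ∈ Finset.Icc 1 X, Real.log k ≤ ∑ k ∈ Finset.Icc 1 X, Real.log X := by
          apply Finset.sum_le_sum
          intro k hk
          rw [Finset.mem_Icc] at hk
          exact Real.log_le_log (by exact_mod_cast hk.1) (by exact_mod_cast hk.2)
      _ = _ := by simp
  rw [abs_le]
  constructor
  · linarith
  · have : (0:ℝ) ≤ X := Nat.cast_nonneg X
    linarith

lemma gz_asymp : ∃ C : ℝ, 0 < C ∧ ∀ K : ℕ, 1 ≤ K → |∑ k ∈ Finset.Icc 1 K, gz k - 4 / Real.pi * (K * Real.log K)| ≤ C * K := by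
  obtain ⟨C, hC, h⟩ := sum_Zk_asymp
  refine ⟨C, hC, ?_⟩
  intro K hK
  have := h K hK
  push_cast at this
  exact this

lemma gz_D : ∃ C : ℝ, 0 < C ∧ ∀ K : ℕ, 1 ≤ K → |∑ k ∈ Finset.Icc 1 K, (gz k - 4 / Real.pi * Real.log k)| ≤ C * K := by
  obtain ⟨C, hC, h⟩ := gz_asymp
  have hpi := Real.pi_gt_three
  refine ⟨C + 4, by positivity, ?_⟩
  intro K hK
  have h1 := h K hK
  have h2 := sum_log K hK
  have e : ∑ k ∈ Finset.Icc 1 K, (gz k - 4 / Real.pi * Real.log k) = (∑ k ∈ Finset.Icc 1 K, gz k - 4 / Real.pi * (K * Real.log K)) -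
      4 / Real.pi * (∑ k ∈ Finset.Icc 1 K, Real.log k - K * Real.log K) := by
    rw [Finset.sum_sub_distrib, ← Finset.mul_sum]; ring
  rw [e]
  refine (abs_sub _ _).trans ?_
  rw [abs_mul, abs_of_pos (show 0 < 4 / Real.pi by positivity)]
  have h3 : 4 / Real.pi ≤ 4 := by
    rw [div_le_iff₀ (by positivity)]; nlinarith
  have h4 : 4 / Real.pi * |∑ k ∈ Finset.Icc 1 K, Real.log k - K * Real.log K| ≤ 4 * K :=
    mul_le_mul h3 h2 (abs_nonneg _) (by norm_num)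
  linarith

lemma gz_sum_le : ∃ C : ℝ, 0 < C ∧ ∀ K : ℕ, 1 ≤ K → ∑ k ∈ Finset.Icc 1 K, gz k ≤ C * (K * (1 + Real.log K)) := by
  obtain ⟨C, hC, h⟩ := gz_asymp
  have hpi := Real.pi_gt_three
  refine ⟨C + 4, by positivity, ?_⟩
  intro K hK
  have h1 := (abs_le.mp (h K hK)).2
  have h3 : 4 / Real.pi ≤ 4 := by
    rw [div_le_iff₀ (by positivity)]; nlinarith
  have hK0 : (1:ℝ) ≤ K := by exact_mod_cast hK
  have hl : 0 ≤ Real.log K := Real.log_nonneg hK0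
  have h4 : 4 / Real.pi * (K * Real.log K) ≤ 4 * (K * Real.log K) := by gcongr
  have h5 : 0 ≤ C * (K * Real.log K) := by positivity
  nlinarith

lemma ff_mix (φ : ℝ) {t : ℝ} (ht : 0 < t) {k : ℕ} (hk : 1 ≤ k) :
    |ff φ t k| ≤ 2 * ((k:ℝ) ^ (-(3/2):ℝ) * min (((k:ℝ) * t) ^ (3/4:ℝ)) (((k:ℝ) * t) ^ (1/4:ℝ))) ∧
    |Real.log ((k:ℝ) * t) * ff φ t k| ≤ 8 * ((k:ℝ) ^ (-(3/2):ℝ) * min (((k:ℝ) * t) ^ (3/4:ℝ)) (((k:ℝ) * t) ^ (1/4:ℝ))) := by
  have hk0 : (0:ℝ) < k := by exact_mod_cast hk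
  set v : ℝ := (k:ℝ) * t with hv
  have hv0 : 0 < v := by positivity
  have hp : 0 < (k:ℝ) ^ (-(3/2):ℝ) := by positivity
  have e1 : |ff φ t k| = (k:ℝ) ^ (-(3/2):ℝ) * |ψ φ v| := by
    unfold ff
    rw [abs_mul, abs_of_pos hp]
  have h1 := ψ_two φ v
  have h2 := ψ_le φ v
  rw [abs_of_pos hv0] at h2
  rw [abs_mul, e1]
  rcases le_total v 1 with h | h
  · have hm : min (v ^ (3/4:ℝ)) (v ^ (1/4:ℝ)) = v ^ (3/4:ℝ) :=
      min_eq_left (Real.rpow_le_rpow_of_exponent_ge hv0 h (by norm_num))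
    rw [hm]
    have h3 : v ≤ v ^ (3/4:ℝ) := by
      nth_rewrite 1 [← Real.rpow_one v]
      exact Real.rpow_le_rpow_of_exponent_ge hv0 h (by norm_num)
    have h4 : |Real.log v| ≤ 4 * v ^ (-(1/4):ℝ) := by
      rw [abs_of_nonpos (Real.log_nonpos hv0.le h), ← Real.log_inv]
      have := Real.log_le_rpow_div (show 0 ≤ v⁻¹ by positivity) (show (0:ℝ) < 1/4 by norm_num)
      rw [Real.inv_rpow hv0.le, ← Real.rpow_neg hv0.le] at this
      linarith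
    have h5 : v ^ (-(1/4):ℝ) * v = v ^ (3/4:ℝ) := by
      nth_rewrite 2 [← Real.rpow_one v]
      rw [← Real.rpow_add hv0]; norm_num
    constructor
    · nlinarith
    · have h6 : |Real.log v| * |ψ φ v| ≤ 4 * v ^ (3/4:ℝ) := by
        calc |Real.log v| * |ψ φ v| ≤ (4 * v ^ (-(1/4):ℝ)) * v := mul_le_mul h4 h2 (abs_nonneg _) (by positivity)
          _ = _ := by rw [← h5]; ring
      have h7 : 0 ≤ v ^ (3/4:ℝ) := by positivity
      calc |Real.log v| * ((k:ℝ) ^ (-(3/2):ℝ) * |ψ φ v|) = (k:ℝ) ^ (-(3/2):ℝ) * (|Real.log v| * |ψ φ v|) := by ring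
        _ ≤ (k:ℝ) ^ (-(3/2):ℝ) * (8 * v ^ (3/4:ℝ)) := mul_le_mul_of_nonneg_left (by linarith) hp.le
        _ = _ := by ring
  · have hm : min (v ^ (3/4:ℝ)) (v ^ (1/4:ℝ)) = v ^ (1/4:ℝ) :=
      min_eq_right (Real.rpow_le_rpow_of_exponent_le h (by norm_num))
    rw [hm]
    have h3 : 1 ≤ v ^ (1/4:ℝ) := Real.one_le_rpow h (by norm_num)
    have h4 : |Real.log v| ≤ 4 * v ^ (1/4:ℝ) := by
      rw [abs_of_nonneg (Real.log_nonneg h)]
      have := Real.log_le_rpow_div hv0.le (show (0:ℝ) < 1/4 by norm_num)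
      linarith
    constructor
    · nlinarith
    · calc |Real.log v| * ((k:ℝ) ^ (-(3/2):ℝ) * |ψ φ v|) = (k:ℝ) ^ (-(3/2):ℝ) * (|Real.log v| * |ψ φ v|) := by ring
        _ ≤ (k:ℝ) ^ (-(3/2):ℝ) * ((4 * v ^ (1/4:ℝ)) * 2) := by gcongr
        _ = _ := by ring

/-- **the resonant sum**: `∑ g(k) k^{-3/2} (cos φ - cos (k t - φ)) = (8/√π) cos(φ+π/4) √t log (1/t) + O(√(t log))`,
where `g(k)` is the number of integer points on the circle of radius `k` -/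
theorem B_asymp : ∃ C : ℝ, 0 < C ∧ ∀ φ t : ℝ, 0 < t → t ≤ 1 → ∀ N : ℕ, (1 + Real.log (1 / t)) / t ≤ N →
    |∑ k ∈ Finset.Icc 1 N, gz k * ff φ t k - 4 / Real.pi * Real.log (1 / t) * (2 * √(Real.pi * t) * Real.cos (φ + Real.pi / 4))| ≤
      C * √(t * (1 + Real.log (1 / t))) := by
  obtain ⟨C1, hC1, hD⟩ := gz_D
  obtain ⟨C2, hC2, hS⟩ := gz_sum_le
  have hpi := Real.pi_gt_three
  have hpi4 := Real.pi_lt_four
  refine ⟨9 * C1 + 192 + 36 + 304 * C2, by positivity, ?_⟩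
  intro φ t ht ht1 N hN
  set ℓ : ℝ := 1 + Real.log (1 / t) with hℓ
  have hlt : 0 ≤ Real.log (1 / t) := Real.log_nonneg (by rw [one_le_div ht]; exact ht1)
  have hℓ1 : 1 ≤ ℓ := by linarith
  have hℓ0 : 0 < ℓ := by linarith
  set K := ⌊ℓ / t⌋₊ with hK
  have hq1 : 1 ≤ ℓ / t := by rw [one_le_div ht]; linarith
  have hK1 : 1 ≤ K := by rw [hK, Nat.one_le_floor_iff]; exact hq1
  have hK1' : (1:ℝ) ≤ K := by exact_mod_cast hK1
  have hK0 : (0:ℝ) < K := by linarith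
  have hKu : (K:ℝ) ≤ ℓ / t := Nat.floor_le (by positivity)
  have hKl : ℓ / t ≤ 2 * K := by
    have := Nat.lt_floor_add_one (ℓ / t)
    rw [← hK] at this
    linarith
  have hKN : K ≤ N := by
    have : (K:ℝ) ≤ N := hKu.trans hN
    exact_mod_cast this
  set S : ℝ := √(t * ℓ) with hS'
  have hS0 : 0 ≤ S := Real.sqrt_nonneg _
  -- √K t ≤ S
  have hKa : t * (K:ℝ) ^ (1/2:ℝ) ≤ S := by
    rw [hS', ← Real.sqrt_eq_rpow]
    apply Real.le_sqrt_of_sq_le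
    rw [mul_pow, Real.sq_sqrt hK0.le]
    calc t ^ 2 * K ≤ t ^ 2 * (ℓ / t) := by gcongr
      _ = t * ℓ := by field_simp
  -- K^{-1/2} ≤ 2 S / ℓ
  have hKb : (K:ℝ) ^ (-(1/2):ℝ) ≤ 2 * (S / ℓ) := by
    rw [Real.rpow_neg hK0.le, ← Real.sqrt_eq_rpow]
    have h1 : S / ℓ = √(t / ℓ) := by
      rw [hS', div_eq_iff hℓ0.ne']
      have : t * ℓ = (t / ℓ) * ℓ ^ 2 := by field_simp
      rw [this, Real.sqrt_mul (by positivity), Real.sqrt_sq hℓ0.le]
    rw [h1]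
    have h2 : √(t / ℓ) = (√(ℓ / t))⁻¹ := by
      rw [← Real.sqrt_inv, inv_div]
    rw [h2]
    have h3 : √(ℓ / t) ≤ 2 * √K := by
      rw [Real.sqrt_le_left (by positivity), mul_pow, Real.sq_sqrt hK0.le]
      linarith
    have h4 : 0 < √(ℓ / t) := Real.sqrt_pos.mpr (by positivity)
    have h5 : 0 < √(K:ℝ) := Real.sqrt_pos.mpr hK0
    rw [← div_eq_mul_inv, inv_eq_one_div, div_le_div_iff₀ h5 h4]
    linarith
  have hKc : (K:ℝ) ^ (-(1/2):ℝ) ≤ 2 * S := by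
    refine hKb.trans ?_
    have : S / ℓ ≤ S := div_le_self hS0 hℓ1
    linarith
  have hst : √t ≤ S := Real.sqrt_le_sqrt (by nlinarith)
  have htℓ1 : t * ℓ ≤ 1 := by
    have h1 : Real.log (1 / t) ≤ 1 / t - 1 := Real.log_le_sub_one_of_pos (by positivity)
    have h2 : ℓ ≤ 1 / t := by linarith
    calc t * ℓ ≤ t * (1 / t) := by gcongr
      _ = 1 := by field_simp
  have htℓS : t * ℓ ≤ S := by
    rw [hS']
    apply Real.le_sqrt_of_sq_le
    have : 0 ≤ t * ℓ := by positivity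
    nlinarith
  have hA0 : 0 < 4 / Real.pi := by positivity
  have hA2 : 4 / Real.pi ≤ 2 := by
    rw [div_le_iff₀ (by positivity)]; nlinarith
  -- step 1
  have s1 : |∑ k ∈ Finset.Icc 1 K, (gz k - 4 / Real.pi * Real.log k) * ff φ t k| ≤ 9 * C1 * S := by
    refine (abel_abs (D := fun k => gz k - 4 / Real.pi * Real.log k) (f := fun k => ff φ t k) hD hK1).trans ?_
    have a1 : C1 * K * |ff φ t K| ≤ 4 * C1 * S := by
      have := ff_le2 φ (t := t) hK0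
      calc C1 * K * |ff φ t K| ≤ C1 * K * (2 * (K:ℝ) ^ (-(3/2):ℝ)) := by gcongr
        _ = 2 * C1 * ((K:ℝ) ^ (1:ℝ) * (K:ℝ) ^ (-(3/2):ℝ)) := by rw [Real.rpow_one]; ring
        _ = 2 * C1 * (K:ℝ) ^ (-(1/2):ℝ) := by rw [← Real.rpow_add hK0]; norm_num
        _ ≤ 2 * C1 * (2 * S) := by gcongr
        _ = _ := by ring
    have a2 : ∑ k ∈ Finset.Icc 1 (K-1), C1 * k * |ff φ t k - ff φ t ((k+1 : ℕ):ℝ)| ≤ 5 * C1 * S := by
      calc ∑ k ∈ Finset.Icc 1 (K-1), C1 * k * |ff φ t k - ff φ t ((k+1 : ℕ):ℝ)|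
          ≤ ∑ k ∈ Finset.Icc 1 (K-1), C1 * ((5/2) * t) * (k:ℝ) ^ (-(1/2):ℝ) := by
            apply Finset.sum_le_sum
            intro k hk
            rw [Finset.mem_Icc] at hk
            have hk1 : (1:ℝ) ≤ k := by exact_mod_cast hk.1
            have hk0 : (0:ℝ) < k := by linarith
            have h1 := ff_diff φ ht hk1 (x := ((k+1 : ℕ):ℝ)) (by push_cast; linarith) (by push_cast; linarith)
            calc C1 * k * |ff φ t k - ff φ t ((k+1 : ℕ):ℝ)| ≤ C1 * k * ((5/2) * t * (k:ℝ) ^ (-(3/2):ℝ)) := by gcongr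
              _ = C1 * ((5/2) * t) * ((k:ℝ) ^ (1:ℝ) * (k:ℝ) ^ (-(3/2):ℝ)) := by rw [Real.rpow_one]; ring
              _ = _ := by rw [← Real.rpow_add hk0]; norm_num
        _ = C1 * ((5/2) * t) * ∑ k ∈ Finset.Icc 1 (K-1), (k:ℝ) ^ (-(1/2):ℝ) := by rw [Finset.mul_sum]
        _ ≤ C1 * ((5/2) * t) * (2 * (K:ℝ) ^ (1/2:ℝ)) := by
            have h1 := head_rpow (s := 1/2) (by norm_num) (by norm_num) (K-1)
            have h2 : ((K-1 : ℕ):ℝ) ^ (1 - 1/2:ℝ) / (1 - 1/2) ≤ 2 * (K:ℝ) ^ (1/2:ℝ) := by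
              have h3 : ((K-1 : ℕ):ℝ) ^ (1/2:ℝ) ≤ (K:ℝ) ^ (1/2:ℝ) := by
                apply Real.rpow_le_rpow (Nat.cast_nonneg _) _ (by norm_num)
                exact_mod_cast Nat.sub_le K 1
              have h4 : ((K-1 : ℕ):ℝ) ^ (1 - 1/2:ℝ) / (1 - 1/2) = 2 * ((K-1 : ℕ):ℝ) ^ (1/2:ℝ) := by norm_num; ring
              rw [h4]; linarith
            exact mul_le_mul_of_nonneg_left (h1.trans h2) (by positivity)
        _ = 5 * C1 * (t * (K:ℝ) ^ (1/2:ℝ)) := by ring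
        _ ≤ 5 * C1 * S := by gcongr
    linarith
  -- step 2
  have s2 : |∑ k ∈ Finset.Icc 1 K, Real.log ((k:ℝ) * t) * ff φ t k| ≤ 96 * S := by
    refine (Finset.abs_sum_le_sum_abs _ _).trans ?_
    calc ∑ k ∈ Finset.Icc 1 K, |Real.log ((k:ℝ) * t) * ff φ t k|
        ≤ ∑ k ∈ Finset.Icc 1 K, 8 * ((k:ℝ) ^ (-(3/2):ℝ) * min (((k:ℝ) * t) ^ (3/4:ℝ)) (((k:ℝ) * t) ^ (1/4:ℝ))) := by
          apply Finset.sum_le_sum
          intro k hk
          rw [Finset.mem_Icc] at hk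
          exact (ff_mix φ ht hk.1).2
      _ = 8 * ∑ k ∈ Finset.Icc 1 K, ((k:ℝ) ^ (-(3/2):ℝ) * min (((k:ℝ) * t) ^ (3/4:ℝ)) (((k:ℝ) * t) ^ (1/4:ℝ))) := by rw [Finset.mul_sum]
      _ ≤ 8 * (12 * √t) := mul_le_mul_of_nonneg_left (mix_sum ht ht1 K) (by norm_num)
      _ ≤ 96 * S := by linarith
  -- step 3
  have s3 := sum_ff φ ht hK1
  set I : ℝ := 2 * √(Real.pi * t) * Real.cos (φ + Real.pi / 4) with hI
  have s3' : |Real.log (1 / t) * (∑ k ∈ Finset.Icc 1 K, ff φ t k - I)| ≤ 18 * S := by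
    rw [abs_mul, abs_of_nonneg hlt]
    calc Real.log (1 / t) * |∑ k ∈ Finset.Icc 1 K, ff φ t k - I| ≤ ℓ * (10 * t + 4 * (K:ℝ) ^ (-(1/2):ℝ)) := by
          apply mul_le_mul (by linarith) s3 (abs_nonneg _) hℓ0.le
      _ ≤ ℓ * (10 * t + 4 * (2 * (S / ℓ))) := by gcongr
      _ = 10 * (t * ℓ) + 8 * S := by field_simp; ring
      _ ≤ _ := by linarith
  -- step 4
  have s4 : |∑ k ∈ Finset.Ioc K N, gz k * ff φ t k| ≤ 304 * C2 * S := by
    refine (Finset.abs_sum_le_sum_abs _ _).trans ?_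
    calc ∑ k ∈ Finset.Ioc K N, |gz k * ff φ t k| ≤ ∑ k ∈ Finset.Ioc K N, 2 * (gz k * (k:ℝ) ^ (-(3/2):ℝ)) := by
          apply Finset.sum_le_sum
          intro k hk
          rw [Finset.mem_Ioc] at hk
          have hk0 : (0:ℝ) < k := by exact_mod_cast (by omega : 0 < k)
          have h1 := ff_le2 φ (t := t) hk0
          have h2 := gz_nonneg k
          rw [abs_mul, abs_of_nonneg h2]
          calc gz k * |ff φ t k| ≤ gz k * (2 * (k:ℝ) ^ (-(3/2):ℝ)) := by gcongr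
            _ = _ := by ring
      _ = 2 * ∑ k ∈ Finset.Ioc K N, (gz k * (k:ℝ) ^ (-(3/2):ℝ)) := by rw [Finset.mul_sum]
      _ ≤ 2 * (38 * C2 * ((1 + Real.log K) * (K:ℝ) ^ (-(1/2):ℝ))) :=
          mul_le_mul_of_nonneg_left (u_tail gz_nonneg hC2.le hS hK1 N) (by norm_num)
      _ ≤ 2 * (38 * C2 * ((2 * ℓ) * (2 * (S / ℓ)))) := by
          have h1 : 1 + Real.log K ≤ 2 * ℓ := by
            have h2 : Real.log K ≤ Real.log (ℓ / t) := Real.log_le_log hK0 hKu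
            have h3 : Real.log (ℓ / t) = Real.log ℓ + Real.log (1 / t) := by
              rw [← Real.log_mul hℓ0.ne' (by positivity)]; congr 1; ring
            have h4 : Real.log ℓ ≤ ℓ - 1 := Real.log_le_sub_one_of_pos hℓ0
            linarith
          have h5 : 0 ≤ Real.log K := Real.log_nonneg hK1'
          gcongr
      _ = 304 * C2 * S := by field_simp; ring
  -- assembly
  have hsplit : ∑ k ∈ Finset.Icc 1 N, gz k * ff φ t k = ∑ k ∈ Finset.Icc 1 K, gz k * ff φ t k + ∑ k ∈ Finset.Ioc K N, gz k * ff φ t k := by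
    rw [← Finset.sum_union]
    · apply Finset.sum_congr _ (fun _ _ => rfl)
      ext m
      rw [Finset.mem_union, Finset.mem_Icc, Finset.mem_Icc, Finset.mem_Ioc]; omega
    · rw [Finset.disjoint_left]
      intro m h1 h2
      rw [Finset.mem_Icc] at h1
      rw [Finset.mem_Ioc] at h2
      omega
  have hdec : ∑ k ∈ Finset.Icc 1 K, gz k * ff φ t k = ∑ k ∈ Finset.Icc 1 K, (gz k - 4 / Real.pi * Real.log k) * ff φ t k +
      4 / Real.pi * (Real.log (1 / t) * ∑ k ∈ Finset.Icc 1 K, ff φ t k + ∑ k ∈ Finset.Icc 1 K, Real.log ((k:ℝ) * t) * ff φ t k) := by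
    rw [Finset.mul_sum, ← Finset.sum_add_distrib, Finset.mul_sum, ← Finset.sum_add_distrib]
    apply Finset.sum_congr rfl
    intro k hk
    rw [Finset.mem_Icc] at hk
    have hk0 : (0:ℝ) < k := by exact_mod_cast hk.1
    rw [Real.log_mul hk0.ne' ht.ne', one_div, Real.log_inv]
    ring
  have hfin : ∑ k ∈ Finset.Icc 1 N, gz k * ff φ t k - 4 / Real.pi * Real.log (1 / t) * I =
      ∑ k ∈ Finset.Icc 1 K, (gz k - 4 / Real.pi * Real.log k) * ff φ t k +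
      4 / Real.pi * (Real.log (1 / t) * (∑ k ∈ Finset.Icc 1 K, ff φ t k - I)) +
      4 / Real.pi * (∑ k ∈ Finset.Icc 1 K, Real.log ((k:ℝ) * t) * ff φ t k) + ∑ k ∈ Finset.Ioc K N, gz k * ff φ t k := by
    rw [hsplit, hdec]; ring
  rw [hfin]
  have m1 : |4 / Real.pi * (Real.log (1 / t) * (∑ k ∈ Finset.Icc 1 K, ff φ t k - I))| ≤ 2 * (18 * S) := by
    rw [abs_mul, abs_of_pos hA0]
    exact mul_le_mul hA2 s3' (abs_nonneg _) (by norm_num)
  have m2 : |4 / Real.pi * (∑ k ∈ Finset.Icc 1 K, Real.log ((k:ℝ) * t) * ff φ t k)| ≤ 2 * (96 * S) := by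
    rw [abs_mul, abs_of_pos hA0]
    exact mul_le_mul hA2 s2 (abs_nonneg _) (by norm_num)
  obtain ⟨p1, p2⟩ := abs_le.mp s1
  obtain ⟨p3, p4⟩ := abs_le.mp m1
  obtain ⟨p5, p6⟩ := abs_le.mp m2
  obtain ⟨p7, p8⟩ := abs_le.mp s4
  rw [abs_le]
  constructor <;> linarith

end Pool.Agent.N48.Ann
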