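import Mathlib
import Pool.Agent.H383.Dens
import Pool.Agent.H383.CircD
import Pool.Agent.N48.Ann.AN1
import Pool.Agent.N48.Ann.NT10

open MeasureTheory Filter Topology
open Pool.Agent.H383 Pool.Agent.H383.AP Pool.Agent.H383.Gauss Pool.Agent.H383.Gen Pool.Agent.H383.GW

namespace Pool.Agent.N48.Ann

lemma heron_ne {i j : ℕ} {k : ℤ} (hj : ¬ IsSquare j) (hij : i ≠ j) :
    ((i:ℤ) + j - k^2)^2 - 4 * i * j ≠ 0 := by
  intro h
  by_cases hk : k = 0
  · subst hk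
    have : ((i:ℤ) - j)^2 = 0 := by nlinarith
    have h2 : (i:ℤ) - j = 0 := by
      rcases sq_eq_zero_iff.mp this with h; exact h
    apply hij
    omega
  · have h1 : (2 * k)^2 * (j:ℤ) = (k^2 + j - i)^2 := by linarith [h]
    have h2 : (2 * k)^2 ∣ (k^2 + j - i)^2 := ⟨j, h1.symm⟩
    have h3 : (2 * k) ∣ (k^2 + j - i) := (Int.pow_dvd_pow_iff (by norm_num)).mp h2
    obtain ⟨c, hc⟩ := h3
    have h1' : (2 * k)^2 * (j:ℤ) = (2 * k)^2 * c^2 := by rw [h1, hc]; ring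
    have h4 : (j:ℤ) = c^2 := mul_left_cancel₀ (pow_ne_zero 2 (mul_ne_zero two_ne_zero hk)) h1'
    apply hj
    refine ⟨c.natAbs, ?_⟩
    have : ((j:ℕ):ℤ) = ((c.natAbs * c.natAbs : ℕ) : ℤ) := by
      push_cast
      rw [h4, ← sq_abs c]; ring
    exact_mod_cast this

lemma sep {M N : ℕ} (hM : 1 ≤ M) (hN : 32 * M^3 < N) {i j : ℕ} (hi : i ≤ M^2) (hj : j ≤ M^2) (hjs : ¬ IsSquare j) (hij : i ≠ j) :
    near N (√(i:ℝ) - √(j:ℝ)) = 0 := by
  unfold near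
  rw [if_neg]
  rintro ⟨k, hk⟩
  have hM' : (1:ℝ) ≤ M := by exact_mod_cast hM
  have hN0 : 0 < N := by omega
  have hN' : (1:ℝ) ≤ N := by exact_mod_cast hN0
  set x := √(i:ℝ) with hx
  set y := √(j:ℝ) with hy
  have hx0 : 0 ≤ x := Real.sqrt_nonneg _
  have hy0 : 0 ≤ y := Real.sqrt_nonneg _
  have hx2 : x^2 = i := Real.sq_sqrt (Nat.cast_nonneg i)
  have hy2 : y^2 = j := Real.sq_sqrt (Nat.cast_nonneg j)
  have hxM : x ≤ M := by
    rw [hx, Real.sqrt_le_left (by positivity)]; exact_mod_cast hi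
  have hyM : y ≤ M := by
    rw [hy, Real.sqrt_le_left (by positivity)]; exact_mod_cast hj
  have hhalf : 1 / (2 * (N:ℝ)) ≤ 1/2 := by
    rw [div_le_div_iff₀ (by positivity) (by norm_num)]; linarith
  obtain ⟨hk1, hk2⟩ := abs_le.mp hk
  have hkM : |(k:ℝ)| ≤ M + 1 := by rw [abs_le]; constructor <;> linarith
  obtain ⟨hkM1, hkM2⟩ := abs_le.mp hkM
  have hQ : ((((i:ℤ) + j - k^2)^2 - 4 * i * j : ℤ) : ℝ) = (x + y + k) * (x + y - k) * (x - y + k) * (x - y - k) := by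
    push_cast
    rw [← hx2, ← hy2]; ring
  have hQ1 : (1:ℝ) ≤ |((((i:ℤ) + j - k^2)^2 - 4 * i * j : ℤ) : ℝ)| := by
    rw [← Int.cast_abs]
    exact_mod_cast Int.one_le_abs (heron_ne hjs hij)
  rw [hQ, abs_mul, abs_mul, abs_mul] at hQ1
  have b1 : |x + y + k| ≤ 4 * M := by rw [abs_le]; constructor <;> linarith
  have b2 : |x + y - k| ≤ 4 * M := by rw [abs_le]; constructor <;> linarith
  have b3 : |x - y + k| ≤ 4 * M := by rw [abs_le]; constructor <;> linarith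
  have h3 : |x + y + k| * |x + y - k| * |x - y + k| * |x - y - k| ≤ (4 * M) * (4 * M) * (4 * M) * (1 / (2 * N)) := by
    gcongr
  have h4 : (4 * (M:ℝ)) * (4 * M) * (4 * M) * (1 / (2 * N)) < 1 := by
    rw [mul_one_div, div_lt_one (by positivity)]
    have : (32 * (M:ℝ)^3) < N := by exact_mod_cast hN
    nlinarith
  linarith

/-- the resonant part -/
noncomputable def BM (a : ℕ → ℝ) (φ X X' : ℝ) (M : ℕ) : ℝ :=
  ∑ k ∈ Finset.Icc 1 M, a (k^2) * (Real.cos (2 * Real.pi * (X' * k) - φ) - Real.cos (2 * Real.pi * (X * k) - φ))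

lemma ac_diff (a : ℕ → ℝ) (φ X X' : ℝ) (m : ℕ) : ‖ac a φ X' m - ac a φ X m‖ ≤ |a m| * min 2 (2 * Real.pi * |X' - X| * √(m:ℝ)) := by
  unfold ac
  rw [← mul_sub, norm_mul, Complex.norm_real, Real.norm_eq_abs]
  apply mul_le_mul_of_nonneg_left _ (abs_nonneg _)
  apply le_min
  · refine (norm_sub_le _ _).trans ?_
    rw [Complex.norm_exp_ofReal_mul_I, Complex.norm_exp_ofReal_mul_I]; norm_num
  · have h := Real.norm_exp_I_mul_ofReal_sub_one_le (x := 2 * Real.pi * (X' * √(m:ℝ)) - φ - (2 * Real.pi * (X * √(m:ℝ)) - φ))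
    have e : Complex.exp (((2 * Real.pi * (X' * √(m:ℝ)) - φ : ℝ) : ℂ) * Complex.I) - Complex.exp (((2 * Real.pi * (X * √(m:ℝ)) - φ : ℝ) : ℂ) * Complex.I) =
      Complex.exp (((2 * Real.pi * (X * √(m:ℝ)) - φ : ℝ) : ℂ) * Complex.I) *
        (Complex.exp (Complex.I * ((2 * Real.pi * (X' * √(m:ℝ)) - φ - (2 * Real.pi * (X * √(m:ℝ)) - φ) : ℝ) : ℂ)) - 1) := by
      rw [mul_sub, ← Complex.exp_add, mul_one]
      congr 2
      push_cast; ring
    rw [e, norm_mul, Complex.norm_exp_ofReal_mul_I, one_mul]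
    refine h.trans (le_of_eq ?_)
    rw [Real.norm_eq_abs]
    have e2 : 2 * Real.pi * (X' * √(m:ℝ)) - φ - (2 * Real.pi * (X * √(m:ℝ)) - φ) = (2 * Real.pi * √(m:ℝ)) * (X' - X) := by ring
    rw [e2, abs_mul, abs_of_nonneg (by positivity)]
    ring

lemma U_split (a : ℕ → ℝ) (φ X X' : ℝ) (M n : ℕ) : U a φ (X' + n) M - U a φ (X + n) M - BM a φ X X' M =
    (∑ m ∈ NS M, (ac a φ X' m - ac a φ X m) * Complex.exp (((2 * Real.pi * (n * √(m:ℝ)) : ℝ) : ℂ) * Complex.I)).re := by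
  classical
  have h1 : ∀ Y : ℝ, U a φ (Y + n) M = (∑ m ∈ NS M, ac a φ Y m * Complex.exp (((2 * Real.pi * (n * √(m:ℝ)) : ℝ) : ℂ) * Complex.I)).re +
      ∑ k ∈ Finset.Icc 1 M, a (k^2) * Real.cos (2 * Real.pi * (Y * k) - φ) := by
    intro Y
    have h2 : ∀ m : ℕ, a m * Real.cos (2 * Real.pi * ((Y + n) * √(m:ℝ)) - φ) =
        (ac a φ Y m * Complex.exp (((2 * Real.pi * (n * √(m:ℝ)) : ℝ) : ℂ) * Complex.I)).re := by
      intro m
      have h3 := ac_shift a φ Y 1 m n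
      unfold chr at h3
      rw [mul_one, one_mul] at h3
      rw [← h3, ac_re]
    have h4 : U a φ (Y + n) M = ∑ m ∈ NS M, a m * Real.cos (2 * Real.pi * ((Y + n) * √(m:ℝ)) - φ) +
        ∑ m ∈ SQ M, a m * Real.cos (2 * Real.pi * ((Y + n) * √(m:ℝ)) - φ) := by
      unfold U NS SQ
      refine Eq.trans ?_ (add_comm _ _)
      exact (Finset.sum_filter_add_sum_filter_not _ _ _).symm
    rw [h4]
    congr 1
    · rw [Complex.re_sum]
      apply Finset.sum_congr rfl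
      intro m _
      exact h2 m
    · rw [SQ_eq, Finset.sum_image (fun a _ b _ h => Nat.pow_left_injective (by norm_num) h)]
      apply Finset.sum_congr rfl
      intro k _
      have e : √((k^2 : ℕ):ℝ) = k := by push_cast; exact Real.sqrt_sq (Nat.cast_nonneg k)
      rw [e]
      congr 1
      have e2 : 2 * Real.pi * ((Y + n) * k) - φ = 2 * Real.pi * (Y * k) - φ + ((n * k : ℕ):ℝ) * (2 * Real.pi) := by
        push_cast; ring
      rw [e2, Real.cos_add_nat_mul_two_pi]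
  rw [h1 X', h1 X]
  unfold BM
  simp only [sub_mul, mul_sub, Finset.sum_sub_distrib, Complex.sub_re]
  ring

theorem model_var (a : ℕ → ℝ) (φ X X' : ℝ) {M N : ℕ} (hM : 1 ≤ M) (hN : 32 * M^3 < N) :
    ∑ n ∈ Finset.range N, (U a φ (X' + n) M - U a φ (X + n) M - BM a φ X X' M)^2 ≤
      8 * N * ∑ m ∈ NS M, (|a m| * min 2 (2 * Real.pi * |X' - X| * √(m:ℝ)))^2 := by
  classical
  have hN1 : 1 ≤ N := by omega
  set b : ℕ → ℂ := fun m => ac a φ X' m - ac a φ X m with hb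
  have h := ls (NS M) b (fun m => √(m:ℝ)) hN1
  calc ∑ n ∈ Finset.range N, (U a φ (X' + n) M - U a φ (X + n) M - BM a φ X X' M)^2
      ≤ ∑ n ∈ Finset.range N, ‖∑ m ∈ NS M, b m * Complex.exp (((2 * Real.pi * (n * √(m:ℝ)) : ℝ) : ℂ) * Complex.I)‖^2 := by
        apply Finset.sum_le_sum
        intro n _
        rw [U_split, ← sq_abs]
        exact pow_le_pow_left₀ (abs_nonneg _) (Complex.abs_re_le_norm _) 2
    _ ≤ ∑ n ∈ Finset.range (N+1), ‖∑ m ∈ NS M, b m * Complex.exp (((2 * Real.pi * (n * √(m:ℝ)) : ℝ) : ℂ) * Complex.I)‖^2 := by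
        apply Finset.sum_le_sum_of_subset_of_nonneg
        · exact Finset.range_subset_range.mpr (by omega)
        · intro _ _ _; positivity
    _ ≤ 8 * N * ∑ i ∈ NS M, ∑ j ∈ NS M, ‖b i‖ * ‖b j‖ * near N (√(i:ℝ) - √(j:ℝ)) := h
    _ ≤ _ := by
        apply mul_le_mul_of_nonneg_left _ (by positivity)
        apply Finset.sum_le_sum
        intro i hi
        have h1 : ∑ j ∈ NS M, ‖b i‖ * ‖b j‖ * near N (√(i:ℝ) - √(j:ℝ)) = ‖b i‖ * ‖b i‖ * near N (√(i:ℝ) - √(i:ℝ)) := by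
          apply Finset.sum_eq_single_of_mem i hi
          intro j hj hji
          unfold NS at hi hj
          rw [Finset.mem_filter, Finset.mem_Icc] at hi hj
          rw [sep hM hN hi.1.2 hj.1.2 hj.2 (Ne.symm hji), mul_zero]
        rw [h1]
        have h2 : near N (√(i:ℝ) - √(i:ℝ)) ≤ 1 := by unfold near; split_ifs <;> norm_num
        have h3 : ‖b i‖ ≤ |a i| * min 2 (2 * Real.pi * |X' - X| * √(i:ℝ)) := ac_diff a φ X X' i
        calc ‖b i‖ * ‖b i‖ * near N (√(i:ℝ) - √(i:ℝ)) ≤ ‖b i‖ * ‖b i‖ * 1 := by gcongr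
          _ = ‖b i‖^2 := by ring
          _ ≤ _ := by gcongr

lemma rA_ZN (m : ℕ) : rA m = ((ZN m).card : ℝ) := by
  rw [Circ.rA_card, Nat.subtype_card (ZN m) (fun x => mem_ZN)]

lemma rA_Zk (k : ℕ) : rA (k^2) = gz k := by
  unfold gz
  rw [Circ.rA_card, Nat.subtype_card (Zk k) (fun x => by rw [mem_Zk]; push_cast; rfl)]

lemma ag_sq (k : ℕ) : Circ.ag (k^2) = gz k * (k:ℝ) ^ (-(3/2):ℝ) / Real.pi := by
  unfold Circ.ag
  have e : √((k^2 : ℕ):ℝ) = k := by push_cast; exact Real.sqrt_sq (Nat.cast_nonneg k)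
  rw [e, rA_Zk]; ring

/-- the variance of the model -/
theorem NS_var {ρ : ℝ} (hρ : 0 < ρ) (hρ1 : ρ ≤ 1) (M : ℕ) :
    ∑ m ∈ NS M, (|Circ.ag m| * min 2 (2 * Real.pi * ρ * √(m:ℝ)))^2 ≤ 1000000 * (ρ * (1 + Real.log (1 / ρ))) := by
  classical
  have hpi := Real.pi_gt_three
  have hpi2 := Real.pi_lt_d2
  have hu := u_var (u := fun m => ((ZN m).card : ℝ)^2) (C := 1000) (by norm_num) (by
    intro X hX
    have := sum_r_sq X hX
    linarith) hρ hρ1 (M^2)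
  calc ∑ m ∈ NS M, (|Circ.ag m| * min 2 (2 * Real.pi * ρ * √(m:ℝ)))^2
      ≤ ∑ m ∈ NS M, 5 * (((ZN m).card : ℝ)^2 * min ((m:ℝ) ^ (-(3/2):ℝ)) (ρ ^ 2 * (m:ℝ) ^ (-(1/2):ℝ))) := by
        apply Finset.sum_le_sum
        intro m hm
        unfold NS at hm
        rw [Finset.mem_filter, Finset.mem_Icc] at hm
        have hm0 : (0:ℝ) < m := by exact_mod_cast hm.1.1
        have e1 : Circ.ag m ^ 2 = ((ZN m).card : ℝ)^2 * (m:ℝ) ^ (-(3/2):ℝ) / Real.pi ^ 2 := by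
          unfold Circ.ag
          rw [rA_ZN, mul_pow, div_pow, Real.sqrt_eq_rpow, ← Real.rpow_mul hm0.le, ← Real.rpow_natCast ((m:ℝ) ^ _), ← Real.rpow_mul hm0.le]
          norm_num
          ring
        have e2 : (min 2 (2 * Real.pi * ρ * √(m:ℝ)))^2 ≤ 40 * min 1 (ρ^2 * m) := by
          have s0 : 0 ≤ min 2 (2 * Real.pi * ρ * √(m:ℝ)) := by positivity
          rcases min_choice (1:ℝ) (ρ^2 * m) with hc | hc
          · rw [hc]
            have : min 2 (2 * Real.pi * ρ * √(m:ℝ)) ≤ 2 := min_le_left _ _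
            nlinarith
          · rw [hc]
            have h1 : min 2 (2 * Real.pi * ρ * √(m:ℝ)) ≤ 2 * Real.pi * ρ * √(m:ℝ) := min_le_right _ _
            have h2 : (min 2 (2 * Real.pi * ρ * √(m:ℝ)))^2 ≤ (2 * Real.pi * ρ * √(m:ℝ))^2 := pow_le_pow_left₀ s0 h1 2
            refine h2.trans ?_
            rw [mul_pow, Real.sq_sqrt hm0.le]
            have h3 : (2 * Real.pi * ρ)^2 = 4 * Real.pi^2 * ρ^2 := by ring
            rw [h3]
            have h4 : 4 * Real.pi^2 ≤ 40 := by nlinarith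
            have : 0 ≤ ρ^2 * (m:ℝ) := by positivity
            nlinarith
        have e3 : (m:ℝ) ^ (-(3/2):ℝ) * min 1 (ρ^2 * m) = min ((m:ℝ) ^ (-(3/2):ℝ)) (ρ ^ 2 * (m:ℝ) ^ (-(1/2):ℝ)) := by
          rw [mul_min_of_nonneg _ _ (by positivity), mul_one]
          congr 1
          have : (m:ℝ) ^ (-(1/2):ℝ) = (m:ℝ) ^ (-(3/2):ℝ) * m := by
            nth_rewrite 3 [← Real.rpow_one (m:ℝ)]
            rw [← Real.rpow_add hm0]; norm_num
          rw [this]; ring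
        rw [mul_pow, sq_abs, e1]
        calc ((ZN m).card : ℝ)^2 * (m:ℝ) ^ (-(3/2):ℝ) / Real.pi ^ 2 * (min 2 (2 * Real.pi * ρ * √(m:ℝ)))^2
            ≤ ((ZN m).card : ℝ)^2 * (m:ℝ) ^ (-(3/2):ℝ) / Real.pi ^ 2 * (40 * min 1 (ρ^2 * m)) := by gcongr
          _ = (40 / Real.pi^2) * (((ZN m).card : ℝ)^2 * ((m:ℝ) ^ (-(3/2):ℝ) * min 1 (ρ^2 * m))) := by ring
          _ ≤ 5 * (((ZN m).card : ℝ)^2 * ((m:ℝ) ^ (-(3/2):ℝ) * min 1 (ρ^2 * m))) := by
              apply mul_le_mul_of_nonneg_right _ (by positivity)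
              rw [div_le_iff₀ (by positivity)]; nlinarith
          _ = _ := by rw [e3]
    _ = 5 * ∑ m ∈ NS M, (((ZN m).card : ℝ)^2 * min ((m:ℝ) ^ (-(3/2):ℝ)) (ρ ^ 2 * (m:ℝ) ^ (-(1/2):ℝ))) := by rw [Finset.mul_sum]
    _ ≤ 5 * ∑ m ∈ Finset.Icc 1 (M^2), (((ZN m).card : ℝ)^2 * min ((m:ℝ) ^ (-(3/2):ℝ)) (ρ ^ 2 * (m:ℝ) ^ (-(1/2):ℝ))) := by
        apply mul_le_mul_of_nonneg_left _ (by norm_num)
        unfold NS
        apply Finset.sum_le_sum_of_subset_of_nonneg (Finset.filter_subset _ _)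
        intro _ _ _; positivity
    _ ≤ _ := by linarith

end Pool.Agent.N48.Ann
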