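import Mathlib
import Pool.Agent.N48.Ann.AN2

open MeasureTheory Filter Topology
open Pool.Agent.H383 Pool.Agent.H383.AP Pool.Agent.H383.Gauss Pool.Agent.H383.Gen Pool.Agent.H383.GW

namespace Pool.Agent.N48.Ann

lemma BM_outer (ρ : ℝ) (p M : ℕ) : BM Circ.ag (3 * Real.pi/4) p (p + ρ) M =
    -(1 / Real.pi) * ∑ k ∈ Finset.Icc 1 M, gz k * ff (3 * Real.pi/4) (2 * Real.pi * ρ) k := by
  unfold BM
  rw [Finset.mul_sum]
  apply Finset.sum_congr rfl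
  intro k _
  rw [ag_sq]
  unfold ff ψ
  have e1 : 2 * Real.pi * (((p:ℝ) + ρ) * k) - 3 * Real.pi/4 = (k * (2 * Real.pi * ρ) - 3 * Real.pi/4) + ((p * k : ℕ):ℝ) * (2 * Real.pi) := by
    push_cast; ring
  have e2 : 2 * Real.pi * ((p:ℝ) * k) - 3 * Real.pi/4 = -(3 * Real.pi/4) + ((p * k : ℕ):ℝ) * (2 * Real.pi) := by
    push_cast; ring
  rw [e1, e2, Real.cos_add_nat_mul_two_pi, Real.cos_add_nat_mul_two_pi, Real.cos_neg]
  ring

lemma BM_inner (ρ : ℝ) (p M : ℕ) : BM Circ.ag (3 * Real.pi/4) (p - ρ) p M =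
    (1 / Real.pi) * ∑ k ∈ Finset.Icc 1 M, gz k * ff (-(3 * Real.pi/4)) (2 * Real.pi * ρ) k := by
  unfold BM
  rw [Finset.mul_sum]
  apply Finset.sum_congr rfl
  intro k _
  rw [ag_sq]
  unfold ff ψ
  have e1 : 2 * Real.pi * (((p:ℝ) - ρ) * k) - 3 * Real.pi/4 = -(k * (2 * Real.pi * ρ) - -(3 * Real.pi/4)) + ((p * k : ℕ):ℝ) * (2 * Real.pi) := by
    push_cast; ring
  have e2 : 2 * Real.pi * ((p:ℝ) * k) - 3 * Real.pi/4 = -(3 * Real.pi/4) + ((p * k : ℕ):ℝ) * (2 * Real.pi) := by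
    push_cast; ring
  rw [e1, e2, Real.cos_add_nat_mul_two_pi, Real.cos_add_nat_mul_two_pi, Real.cos_neg (k * (2 * Real.pi * ρ) - -(3 * Real.pi/4))]
  ring

/-- the bias -/
noncomputable def lead (ρ : ℝ) : ℝ := 8 * √2 / Real.pi * √ρ * Real.log (1 / ρ)

theorem BM_asymp : ∃ C : ℝ, 0 < C ∧ ∀ ρ : ℝ, 0 < ρ → ρ ≤ 1/10 → ∀ p M : ℕ, 1 / ρ^2 ≤ M →
    |BM Circ.ag (3 * Real.pi/4) p (p + ρ) M - lead ρ| ≤ C * √(ρ * (1 + Real.log (1 / ρ))) ∧
    |BM Circ.ag (3 * Real.pi/4) (p - ρ) p M| ≤ C * √(ρ * (1 + Real.log (1 / ρ))) := by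
  obtain ⟨C, hC, h⟩ := B_asymp
  have hpi := Real.pi_gt_three
  have hpi2 := Real.pi_lt_d2
  refine ⟨C * 3 + 20, by positivity, ?_⟩
  intro ρ hρ hρ1 p M hM
  set t : ℝ := 2 * Real.pi * ρ with ht
  have ht0 : 0 < t := by positivity
  have ht1 : t ≤ 1 := by rw [ht]; nlinarith
  have hρt : ρ ≤ t := by rw [ht]; nlinarith
  have hlt : 0 ≤ Real.log (1 / t) := Real.log_nonneg (by rw [one_le_div ht0]; exact ht1)
  have hlρ : 0 ≤ Real.log (1 / ρ) := Real.log_nonneg (by rw [one_le_div hρ]; linarith)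
  have hlog : Real.log (1 / t) = Real.log (1 / ρ) - Real.log (2 * Real.pi) := by
    rw [ht, one_div, one_div, Real.log_inv, Real.log_inv, Real.log_mul (by positivity) hρ.ne']; ring
  have hl2pi : 0 ≤ Real.log (2 * Real.pi) := Real.log_nonneg (by linarith)
  have hl2pi' : Real.log (2 * Real.pi) ≤ 2 := by
    rw [Real.log_le_iff_le_exp (by positivity)]
    have h1 : (2.7:ℝ) < Real.exp 1 := by have := Real.exp_one_gt_d9; linarith
    have h2 : Real.exp 2 = Real.exp 1 * Real.exp 1 := by rw [← Real.exp_add]; norm_num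
    rw [h2]; nlinarith
  have hNc : (1 + Real.log (1 / t)) / t ≤ M := by
    refine le_trans ?_ hM
    have h1 : Real.log (1 / t) ≤ 1 / t - 1 := Real.log_le_sub_one_of_pos (by positivity)
    calc (1 + Real.log (1 / t)) / t ≤ (1 / t) / t := by gcongr; linarith
      _ = 1 / t^2 := by field_simp
      _ ≤ 1 / ρ^2 := by gcongr
  have hs : √(t * (1 + Real.log (1 / t))) ≤ 3 * √(ρ * (1 + Real.log (1 / ρ))) := by
    have e : 3 * √(ρ * (1 + Real.log (1 / ρ))) = √(9 * (ρ * (1 + Real.log (1 / ρ)))) := by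
      rw [Real.sqrt_mul (show (0:ℝ) ≤ 9 by norm_num) (ρ * (1 + Real.log (1 / ρ))),
        show √(9:ℝ) = 3 by rw [show (9:ℝ) = 3^2 by norm_num, Real.sqrt_sq (by norm_num)]]
    rw [e]
    apply Real.sqrt_le_sqrt
    have h1 : t ≤ 9 * ρ := by rw [ht]; nlinarith
    have h2 : 1 + Real.log (1 / t) ≤ 1 + Real.log (1 / ρ) := by linarith
    calc t * (1 + Real.log (1 / t)) ≤ (9 * ρ) * (1 + Real.log (1 / ρ)) := by gcongr
      _ = _ := by ring
  have hsρ : √ρ ≤ √(ρ * (1 + Real.log (1 / ρ))) := Real.sqrt_le_sqrt (by nlinarith)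
  set S := √(ρ * (1 + Real.log (1 / ρ))) with hS
  have hS0 : 0 ≤ S := Real.sqrt_nonneg _
  have hCs : C * √(t * (1 + Real.log (1 / t))) ≤ C * (3 * S) := mul_le_mul_of_nonneg_left hs hC.le
  have hinv : |-(1 / Real.pi)| ≤ 1 := by
    rw [abs_neg, abs_of_pos (by positivity), div_le_one (by positivity)]; linarith
  have hinv' : |1 / Real.pi| ≤ 1 := by
    rw [abs_of_pos (by positivity), div_le_one (by positivity)]; linarith
  constructor
  · rw [BM_outer, ← ht]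
    have h1 := h (3 * Real.pi/4) t ht0 ht1 M hNc
    have e1 : 3 * Real.pi/4 + Real.pi/4 = Real.pi := by ring
    rw [e1, Real.cos_pi] at h1
    have e2 : -(1 / Real.pi) * (4 / Real.pi * Real.log (1 / t) * (2 * √(Real.pi * t) * -1)) = 8 * √2 / Real.pi * √ρ * Real.log (1 / t) := by
      have : √(Real.pi * t) = Real.pi * (√2 * √ρ) := by
        rw [ht, show Real.pi * (2 * Real.pi * ρ) = Real.pi^2 * (2 * ρ) by ring, Real.sqrt_mul (by positivity),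
          Real.sqrt_sq (by positivity), Real.sqrt_mul (by norm_num)]
      rw [this]; field_simp; ring
    have e3 : -(1 / Real.pi) * ∑ k ∈ Finset.Icc 1 M, gz k * ff (3 * Real.pi/4) t k - lead ρ =
        -(1 / Real.pi) * (∑ k ∈ Finset.Icc 1 M, gz k * ff (3 * Real.pi/4) t k - 4 / Real.pi * Real.log (1 / t) * (2 * √(Real.pi * t) * -1)) -
        8 * √2 / Real.pi * √ρ * Real.log (2 * Real.pi) := by
      rw [mul_sub, e2, lead, hlog]; ring
    rw [e3]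
    refine (abs_sub _ _).trans ?_
    rw [abs_mul]
    have h2 : |-(1 / Real.pi)| * |∑ k ∈ Finset.Icc 1 M, gz k * ff (3 * Real.pi/4) t k - 4 / Real.pi * Real.log (1 / t) * (2 * √(Real.pi * t) * -1)| ≤
        1 * (C * (3 * S)) := mul_le_mul hinv (h1.trans hCs) (abs_nonneg _) (by norm_num)
    have h3 : |8 * √2 / Real.pi * √ρ * Real.log (2 * Real.pi)| ≤ 20 * S := by
      rw [abs_of_nonneg (by positivity)]
      have hr2 : √2 ≤ 2 := by rw [Real.sqrt_le_left (by norm_num)]; norm_num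
      have h4 : 8 * √2 / Real.pi ≤ 6 := by
        rw [div_le_iff₀ (by positivity)]
        nlinarith
      calc 8 * √2 / Real.pi * √ρ * Real.log (2 * Real.pi) ≤ 6 * S * 2 := by gcongr
        _ ≤ 20 * S := by linarith
    linarith
  · rw [BM_inner, ← ht]
    have h1 := h (-(3 * Real.pi/4)) t ht0 ht1 M hNc
    have e1 : -(3 * Real.pi/4) + Real.pi/4 = -(Real.pi/2) := by ring
    rw [e1, Real.cos_neg, Real.cos_pi_div_two, mul_zero, mul_zero, sub_zero] at h1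
    rw [abs_mul]
    have h2 : |1 / Real.pi| * |∑ k ∈ Finset.Icc 1 M, gz k * ff (-(3 * Real.pi/4)) t k| ≤ 1 * (C * (3 * S)) :=
      mul_le_mul hinv' (h1.trans hCs) (abs_nonneg _) (by norm_num)
    linarith

lemma Tl_le {M : ℕ} (hM : 1 ≤ M) : Tl M ≤ 101 * (M:ℝ) ^ (-(1/100):ℝ) := by
  have hM1 : (1:ℝ) ≤ M := by exact_mod_cast hM
  have hM0 : (0:ℝ) < M := by linarith
  unfold Tl
  apply Real.tsum_le_of_sum_range_le (fun n => by positivity)
  intro n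
  have e : ∑ q ∈ Finset.range n, ((q + M : ℕ) : ℝ) ^ (-(101/100):ℝ) ≤ (M:ℝ) ^ (-(101/100):ℝ) + ∑ m ∈ Finset.Ioc M (M + n), (m:ℝ) ^ (-(101/100):ℝ) := by
    have e1 : ∑ q ∈ Finset.range n, ((q + M : ℕ) : ℝ) ^ (-(101/100):ℝ) = ∑ m ∈ Finset.Ico M (M + n), (m:ℝ) ^ (-(101/100):ℝ) := by
      rw [Finset.sum_Ico_eq_sum_range]
      rw [show M + n - M = n by omega]
      apply Finset.sum_congr rfl
      intro q _
      rw [add_comm]
    rw [e1]
    have hsub : Finset.Ico M (M + n) ⊆ insert M (Finset.Ioc M (M + n)) := by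
      intro m hm
      rw [Finset.mem_Ico] at hm
      rw [Finset.mem_insert, Finset.mem_Ioc]
      omega
    refine (Finset.sum_le_sum_of_subset_of_nonneg hsub (fun _ _ _ => by positivity)).trans ?_
    rw [Finset.sum_insert (by simp)]
  have h1 := tail_rpow (s := 101/100) (by norm_num) hM (M + n)
  have h2 : (M:ℝ) ^ (-(101/100):ℝ) ≤ (M:ℝ) ^ (-(1/100):ℝ) := Real.rpow_le_rpow_of_exponent_le hM1 (by norm_num)
  have e2 : (M:ℝ) ^ (1 - 101/100:ℝ) / (101/100 - 1) = 100 * (M:ℝ) ^ (-(1/100):ℝ) := by norm_num; ring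
  rw [e2] at h1
  linarith

/-- the range of widths -/
def Adm (N : ℕ) (ρ : ℝ) : Prop := (N:ℝ) ^ (-(1/100000):ℝ) ≤ ρ ∧ ρ ≤ 1/10


/-- mean square of the differences of the normalised error, at distance `ρ` -/
theorem diff_ms : ∃ C : ℝ, 0 < C ∧ ∃ N0 : ℕ, ∀ N : ℕ, N0 ≤ N → ∀ ρ : ℝ, Adm N ρ → ∃ M : ℕ, 1 / ρ^2 ≤ M ∧
    ∀ X X' : ℝ, 4 ≤ X → X ≤ 6 → 4 ≤ X' → X' ≤ 6 → |X' - X| = ρ →
    ∑ n ∈ Finset.range N, (En (X' + n) - En (X + n) - BM Circ.ag (3 * Real.pi/4) X X' M)^2 ≤ C * N * (ρ * (1 + Real.log (1 / ρ))) := by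
  obtain ⟨C0, hC0, hS⟩ := Circ.En_Sand
  obtain ⟨C, hC, N1, hA⟩ := ap_quant Circ.ag_Bd Circ.ag_zero Circ.wg_Wt hC0 hS
  obtain ⟨N2, hN2⟩ : ∃ N2 : ℕ, ∀ N : ℕ, N2 ≤ N → 1000 ≤ (N:ℝ) ^ (1/2:ℝ) := by
    have : Tendsto (fun N : ℕ => (N:ℝ) ^ (1/2:ℝ)) atTop atTop :=
      (tendsto_rpow_atTop (by norm_num)).comp tendsto_natCast_atTop_atTop
    exact (eventually_atTop.mp (this.eventually_ge_atTop 1000))
  refine ⟨3 * (2 * (C * (101 + 16)) + 8 * 1000000), by positivity, max (max N1 N2) 1, ?_⟩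
  intro N hN ρ hρ
  obtain ⟨hρl, hρu⟩ := hρ
  have hNN1 : N1 ≤ N := by omega
  have hNN2 : N2 ≤ N := by omega
  have hN1 : 1 ≤ N := by omega
  have hN1' : (1:ℝ) ≤ N := by exact_mod_cast hN1
  have hN0 : (0:ℝ) < N := by linarith
  have hbig := hN2 N hNN2
  have hρ0 : 0 < ρ := lt_of_lt_of_le (by positivity) hρl
  have hlog : 0 ≤ Real.log (1 / ρ) := Real.log_nonneg (by rw [one_le_div hρ0]; linarith)
  set q : ℝ := (N:ℝ) ^ (1/1000:ℝ) with hq
  have hq1 : 1 ≤ q := Real.one_le_rpow hN1' (by norm_num)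
  set M : ℕ := ⌈q⌉₊ with hM
  have hMq : q ≤ M := Nat.le_ceil q
  have hMq2 : (M:ℝ) ≤ 2 * q := by
    have := Nat.ceil_lt_add_one (show 0 ≤ q by linarith)
    rw [← hM] at this
    linarith
  have hM1' : (1:ℝ) ≤ M := hq1.trans hMq
  have hM1 : 1 ≤ M := by exact_mod_cast hM1'
  -- powers
  have hq500 : q ^ 4 ≤ (N:ℝ) ^ (1/250:ℝ) := by
    rw [hq, ← Real.rpow_natCast, ← Real.rpow_mul hN0.le]; norm_num
  have hsmall : (N:ℝ) ^ (1/250:ℝ) ≤ (N:ℝ) ^ (1/2:ℝ) := Real.rpow_le_rpow_of_exponent_le hN1' (by norm_num)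
  have hNN : (N:ℝ) = (N:ℝ) ^ (1/2:ℝ) * (N:ℝ) ^ (1/2:ℝ) := by
    rw [← Real.rpow_add hN0]; norm_num
  have hM4 : (M:ℝ)^4 ≤ 16 * q^4 := by
    calc (M:ℝ)^4 ≤ (2 * q)^4 := by gcongr
      _ = _ := by ring
  have hM3 : 32 * M^3 < N := by
    have h1 : (M:ℝ)^3 ≤ (M:ℝ)^4 := pow_le_pow_right₀ hM1' (by norm_num)
    have h2 : 32 * (M:ℝ)^3 < N := by
      calc 32 * (M:ℝ)^3 ≤ 32 * (16 * (N:ℝ) ^ (1/2:ℝ)) := by
            have := hq500.trans hsmall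
            linarith
        _ < 1000 * (N:ℝ) ^ (1/2:ℝ) := by
            have : 0 < (N:ℝ) ^ (1/2:ℝ) := by positivity
            nlinarith
        _ ≤ (N:ℝ) ^ (1/2:ℝ) * (N:ℝ) ^ (1/2:ℝ) := by gcongr
        _ = N := hNN.symm
    exact_mod_cast h2
  have hMN : 4 * (M + 1) ≤ N := by
    have h1 : M ≤ M^3 := Nat.le_self_pow (by norm_num) M
    have h2 : 1 ≤ M^3 := Nat.one_le_pow _ _ hM1
    omega
  have hρM : 1 / ρ^2 ≤ M := by
    refine le_trans ?_ hMq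
    have h1 : ((N:ℝ) ^ (-(1/100000):ℝ))^2 ≤ ρ^2 := pow_le_pow_left₀ (by positivity) hρl 2
    have h2 : ((N:ℝ) ^ (-(1/100000):ℝ))^2 = (N:ℝ) ^ (-(1/50000):ℝ) := by
      rw [← Real.rpow_natCast, ← Real.rpow_mul hN0.le]; norm_num
    rw [h2] at h1
    calc 1 / ρ^2 ≤ 1 / (N:ℝ) ^ (-(1/50000):ℝ) := by gcongr
      _ = (N:ℝ) ^ (1/50000:ℝ) := by rw [Real.rpow_neg hN0.le, one_div, inv_inv]
      _ ≤ q := Real.rpow_le_rpow_of_exponent_le hN1' (by norm_num)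
  refine ⟨M, hρM, ?_⟩
  intro X X' hX hX6 hX' hX6' hXX
  have hT : Tl M + (M:ℝ)^4 * (N:ℝ) ^ (-(13/600):ℝ) ≤ (101 + 16) * ρ := by
    have h1 : Tl M ≤ 101 * ρ := by
      refine (Tl_le hM1).trans ?_
      have h2 : (M:ℝ) ^ (-(1/100):ℝ) ≤ q ^ (-(1/100):ℝ) := Real.rpow_le_rpow_of_nonpos (by linarith) hMq (by norm_num)
      have h3 : q ^ (-(1/100):ℝ) = (N:ℝ) ^ (-(1/100000):ℝ) := by
        rw [hq, ← Real.rpow_mul hN0.le]; norm_num
      linarith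
    have h2 : (M:ℝ)^4 * (N:ℝ) ^ (-(13/600):ℝ) ≤ 16 * ρ := by
      calc (M:ℝ)^4 * (N:ℝ) ^ (-(13/600):ℝ) ≤ 16 * (N:ℝ) ^ (1/250:ℝ) * (N:ℝ) ^ (-(13/600):ℝ) := by
            gcongr
            linarith
        _ = 16 * (N:ℝ) ^ (1/250 - 13/600:ℝ) := by rw [mul_assoc, ← Real.rpow_add hN0]; rfl
        _ ≤ 16 * (N:ℝ) ^ (-(1/100000):ℝ) :=
            mul_le_mul_of_nonneg_left (Real.rpow_le_rpow_of_exponent_le hN1' (by norm_num)) (by norm_num)
        _ ≤ 16 * ρ := by gcongr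
    linarith
  have a1 := hA X hX hX6 M hM1 N hNN1 hMN
  have a2 := hA X' hX' hX6' M hM1 N hNN1 hMN
  have a3 := model_var Circ.ag (3 * Real.pi/4) X X' hM1 hM3
  rw [hXX] at a3
  have a4 := NS_var hρ0 (by linarith) M
  have b1 : C * (Tl M + (M:ℝ)^4 * (N:ℝ) ^ (-(13/600):ℝ)) * N ≤ C * (101 + 16) * (N * (ρ * (1 + Real.log (1 / ρ)))) := by
    have h1 : C * (Tl M + (M:ℝ)^4 * (N:ℝ) ^ (-(13/600):ℝ)) * N ≤ C * ((101 + 16) * ρ) * N := by gcongr
    have h2 : ρ ≤ ρ * (1 + Real.log (1 / ρ)) := by nlinarith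
    have h3 : C * ((101 + 16) * ρ) * N ≤ C * ((101 + 16) * (ρ * (1 + Real.log (1 / ρ)))) * N := by gcongr
    calc _ ≤ _ := h1
      _ ≤ _ := h3
      _ = _ := by ring
  have b2 : 8 * N * ∑ m ∈ NS M, (|Circ.ag m| * min 2 (2 * Real.pi * ρ * √(m:ℝ)))^2 ≤ 8 * 1000000 * (N * (ρ * (1 + Real.log (1 / ρ)))) := by
    calc 8 * N * ∑ m ∈ NS M, (|Circ.ag m| * min 2 (2 * Real.pi * ρ * √(m:ℝ)))^2 ≤ 8 * N * (1000000 * (ρ * (1 + Real.log (1 / ρ)))) := by gcongr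
      _ = _ := by ring
  calc ∑ n ∈ Finset.range N, (En (X' + n) - En (X + n) - BM Circ.ag (3 * Real.pi/4) X X' M)^2
      ≤ ∑ n ∈ Finset.range N, 3 * ((En (X' + n) - U Circ.ag (3 * Real.pi/4) (X' + n) M)^2 + (En (X + n) - U Circ.ag (3 * Real.pi/4) (X + n) M)^2 +
        (U Circ.ag (3 * Real.pi/4) (X' + n) M - U Circ.ag (3 * Real.pi/4) (X + n) M - BM Circ.ag (3 * Real.pi/4) X X' M)^2) := by
        apply Finset.sum_le_sum
        intro n _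
        set x := En (X' + n) - U Circ.ag (3 * Real.pi/4) (X' + n) M with hx
        set y := En (X + n) - U Circ.ag (3 * Real.pi/4) (X + n) M with hy
        set z := U Circ.ag (3 * Real.pi/4) (X' + n) M - U Circ.ag (3 * Real.pi/4) (X + n) M - BM Circ.ag (3 * Real.pi/4) X X' M with hz
        have e : En (X' + n) - En (X + n) - BM Circ.ag (3 * Real.pi/4) X X' M = x - y + z := by rw [hx, hy, hz]; ring
        rw [e]
        nlinarith [sq_nonneg (x + y), sq_nonneg (x - z), sq_nonneg (y + z)]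
    _ = 3 * (∑ n ∈ Finset.range N, (En (X' + n) - U Circ.ag (3 * Real.pi/4) (X' + n) M)^2 + ∑ n ∈ Finset.range N, (En (X + n) - U Circ.ag (3 * Real.pi/4) (X + n) M)^2 +
        ∑ n ∈ Finset.range N, (U Circ.ag (3 * Real.pi/4) (X' + n) M - U Circ.ag (3 * Real.pi/4) (X + n) M - BM Circ.ag (3 * Real.pi/4) X X' M)^2) := by
        rw [← Finset.mul_sum, Finset.sum_add_distrib, Finset.sum_add_distrib]
    _ ≤ _ := by linarith

end Pool.Agent.N48.Ann
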