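import Mathlib
import Pool.Agent.N48.Ann.AN3
import Pool.Agent.N48.Ann.AN1W
import Pool.Agent.H452R2.Win.V8

open MeasureTheory Filter Topology
open Pool.Agent.H383 Pool.Agent.H383.AP Pool.Agent.H383.Gauss Pool.Agent.H383.Gen Pool.Agent.H383.GW

namespace Pool.Agent.N48.Ann

/-- mean square of the differences of the normalised error, at distance `ρ`, in short windows -/
theorem diff_msW {ε : ℝ} (hε : 0 < ε) : ∃ c : ℝ, 0 < c ∧ c ≤ 1/16 ∧ ∃ C : ℝ, 0 < C ∧ ∃ N0 : ℕ, ∀ N : ℕ, N0 ≤ N →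
    ∀ ρ : ℝ, (N:ℝ) ^ (-c) ≤ ρ → ρ ≤ 1/10 → ∃ M : ℕ, 1 / ρ^2 ≤ M ∧
    ∀ X X' : ℝ, 4 ≤ X → X ^ (1/2 + ε) ≤ N → 4 ≤ X' → X' ^ (1/2 + ε) ≤ N → |X' - X| = ρ →
    ∑ n ∈ Finset.range N, (En (X' + n) - En (X + n) - BM Circ.ag (3 * Real.pi/4) X X' M)^2 ≤
      C * (N * (ρ * (1 + Real.log (1 / ρ)))) := by
  obtain ⟨ω0, hω0, C, hC, N1, hA⟩ := Pool.Agent.N48.AnnW.ap_quantW (E := En) Pool.Agent.H452R2.Win.ag_Bdw Circ.ag_zero Circ.wg_Wt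
    Pool.Agent.H452R2.Win.En_SandW (α := 1) one_pos hε
  obtain ⟨N2, hN2⟩ : ∃ N2 : ℕ, ∀ N : ℕ, N2 ≤ N → 1000 ≤ (N:ℝ) ^ (1/2:ℝ) := by
    have : Tendsto (fun N : ℕ => (N:ℝ) ^ (1/2:ℝ)) atTop atTop :=
      (tendsto_rpow_atTop (by norm_num)).comp tendsto_natCast_atTop_atTop
    exact (eventually_atTop.mp (this.eventually_ge_atTop 1000))
  set ω : ℝ := min ω0 1 with hω
  have hω0' : 0 < ω := by positivity
  have hω1 : ω ≤ 1 := min_le_right _ _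
  have hωω : ω ≤ ω0 := min_le_left _ _
  refine ⟨ω^2/16, by positivity, by nlinarith, 3 * (2 * (C * 17) + 8 * 1000000), by positivity, max (max N1 N2) 1, ?_⟩
  intro N hN ρ hρl hρu
  have hNN1 : N1 ≤ N := by omega
  have hNN2 : N2 ≤ N := by omega
  have hN1 : 1 ≤ N := by omega
  have hN1' : (1:ℝ) ≤ N := by exact_mod_cast hN1
  have hN0 : (0:ℝ) < N := by linarith
  have hbig := hN2 N hNN2
  have hρ0 : 0 < ρ := lt_of_lt_of_le (by positivity) hρl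
  have hlog : 0 ≤ Real.log (1 / ρ) := Real.log_nonneg (by rw [one_le_div hρ0]; linarith)
  set q : ℝ := (N:ℝ) ^ (ω/8) with hq
  have hq1 : 1 ≤ q := Real.one_le_rpow hN1' (by positivity)
  set M : ℕ := ⌈q⌉₊ with hM
  have hMq : q ≤ M := Nat.le_ceil q
  have hMq2 : (M:ℝ) ≤ 2 * q := by
    have := Nat.ceil_lt_add_one (show 0 ≤ q by linarith)
    rw [← hM] at this
    linarith
  have hM1' : (1:ℝ) ≤ M := hq1.trans hMq
  have hM1 : 1 ≤ M := by exact_mod_cast hM1'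
  -- powers
  have hq4 : q ^ 4 = (N:ℝ) ^ (ω/2) := by
    rw [hq, ← Real.rpow_natCast, ← Real.rpow_mul hN0.le]; congr 1; push_cast; ring
  have hsmall : (N:ℝ) ^ (ω/2) ≤ (N:ℝ) ^ (1/2:ℝ) := Real.rpow_le_rpow_of_exponent_le hN1' (by linarith)
  have hNN : (N:ℝ) = (N:ℝ) ^ (1/2:ℝ) * (N:ℝ) ^ (1/2:ℝ) := by
    rw [← Real.rpow_add hN0]; norm_num
  have hM4 : (M:ℝ)^4 ≤ 16 * q^4 := by
    calc (M:ℝ)^4 ≤ (2 * q)^4 := by gcongr
      _ = _ := by ring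
  have hM3 : 32 * M^3 < N := by
    have h1 : (M:ℝ)^3 ≤ (M:ℝ)^4 := pow_le_pow_right₀ hM1' (by norm_num)
    have h2 : 32 * (M:ℝ)^3 < N := by
      calc 32 * (M:ℝ)^3 ≤ 32 * (16 * (N:ℝ) ^ (1/2:ℝ)) := by
            rw [hq4] at hM4
            linarith
        _ < 1000 * (N:ℝ) ^ (1/2:ℝ) := by
            have : 0 < (N:ℝ) ^ (1/2:ℝ) := by positivity
            nlinarith
        _ ≤ (N:ℝ) ^ (1/2:ℝ) * (N:ℝ) ^ (1/2:ℝ) := by gcongr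
        _ = N := hNN.symm
    exact_mod_cast h2
  have hMN : 2 * ((M:ℝ) + 1) ≤ min 1 1 * N := by
    have h1 : M ≤ M^3 := Nat.le_self_pow (by norm_num) M
    have h2 : 1 ≤ M^3 := Nat.one_le_pow _ _ hM1
    have h3 : 2 * (M + 1) ≤ N := by omega
    rw [min_self, one_mul]
    exact_mod_cast h3
  have hρM : 1 / ρ^2 ≤ M := by
    refine le_trans ?_ hMq
    have h1 : ((N:ℝ) ^ (-(ω^2/16)))^2 ≤ ρ^2 := pow_le_pow_left₀ (by positivity) hρl 2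
    have h2 : ((N:ℝ) ^ (-(ω^2/16)))^2 = (N:ℝ) ^ (-(ω^2/8)) := by
      rw [← Real.rpow_natCast, ← Real.rpow_mul hN0.le]; congr 1; push_cast; ring
    rw [h2] at h1
    calc 1 / ρ^2 ≤ 1 / (N:ℝ) ^ (-(ω^2/8)) := by gcongr
      _ = (N:ℝ) ^ (ω^2/8) := by rw [Real.rpow_neg hN0.le, one_div, inv_inv]
      _ ≤ q := Real.rpow_le_rpow_of_exponent_le hN1' (by nlinarith)
  refine ⟨M, hρM, ?_⟩
  intro X X' hX hXN hX' hXN' hXX
  have hT : (M:ℝ) ^ (-ω0) + (M:ℝ)^4 * (N:ℝ) ^ (-ω0) ≤ 17 * ρ := by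
    have h1 : (M:ℝ) ^ (-ω0) ≤ ρ := by
      have h2 : (M:ℝ) ^ (-ω0) ≤ (M:ℝ) ^ (-ω) := Real.rpow_le_rpow_of_exponent_le hM1' (by linarith)
      have h2 : (M:ℝ) ^ (-ω) ≤ q ^ (-ω) := Real.rpow_le_rpow_of_nonpos (by linarith) hMq (by linarith)
      have h3 : q ^ (-ω) = (N:ℝ) ^ (-(ω^2/8)) := by
        rw [hq, ← Real.rpow_mul hN0.le]; congr 1; ring
      have h4 : (N:ℝ) ^ (-(ω^2/8)) ≤ (N:ℝ) ^ (-(ω^2/16)) := Real.rpow_le_rpow_of_exponent_le hN1' (by nlinarith)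
      linarith
    have h2 : (M:ℝ)^4 * (N:ℝ) ^ (-ω0) ≤ 16 * ρ := by
      calc (M:ℝ)^4 * (N:ℝ) ^ (-ω0) ≤ 16 * (N:ℝ) ^ (ω/2) * (N:ℝ) ^ (-ω) := by
            have h5 : (N:ℝ) ^ (-ω0) ≤ (N:ℝ) ^ (-ω) := Real.rpow_le_rpow_of_exponent_le hN1' (by linarith)
            have h6 : (M:ℝ)^4 ≤ 16 * (N:ℝ) ^ (ω/2) := by rw [← hq4]; exact hM4
            gcongr
        _ = 16 * (N:ℝ) ^ (ω/2 + -ω) := by rw [mul_assoc, ← Real.rpow_add hN0]
        _ ≤ 16 * (N:ℝ) ^ (-(ω^2/16)) :=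
            mul_le_mul_of_nonneg_left (Real.rpow_le_rpow_of_exponent_le hN1' (by nlinarith)) (by norm_num)
        _ ≤ 16 * ρ := by gcongr
    linarith
  have a1 := hA M hM1 N hNN1 hMN X hX hXN
  have a2 := hA M hM1 N hNN1 hMN X' hX' hXN'
  simp only [mul_one] at a1 a2
  have a3 := model_var Circ.ag (3 * Real.pi/4) X X' hM1 hM3
  rw [hXX] at a3
  have a4 := NS_var hρ0 (by linarith) M
  have b1 : C * ((M:ℝ) ^ (-ω0) + (M:ℝ)^4 * (N:ℝ) ^ (-ω0)) * N ≤ C * 17 * (N * (ρ * (1 + Real.log (1 / ρ)))) := by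
    have h1 : C * ((M:ℝ) ^ (-ω0) + (M:ℝ)^4 * (N:ℝ) ^ (-ω0)) * N ≤ C * (17 * ρ) * N := by gcongr
    have h2 : ρ ≤ ρ * (1 + Real.log (1 / ρ)) := by nlinarith
    have h3 : C * (17 * ρ) * N ≤ C * (17 * (ρ * (1 + Real.log (1 / ρ)))) * N := by gcongr
    calc _ ≤ _ := h1
      _ ≤ _ := h3
      _ = _ := by ring
  have b2 : 8 * N * ∑ m ∈ NS M, (|Circ.ag m| * min 2 (2 * Real.pi * ρ * √(m:ℝ)))^2 ≤ 8 * 1000000 * (N * (ρ * (1 + Real.log (1 / ρ)))) := by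
    calc 8 * N * ∑ m ∈ NS M, (|Circ.ag m| * min 2 (2 * Real.pi * ρ * √(m:ℝ)))^2 ≤ 8 * N * (1000000 * (ρ * (1 + Real.log (1 / ρ)))) := by gcongr
      _ = _ := by ring
  calc ∑ n ∈ Finset.range N, (En (X' + n) - En (X + n) - BM Circ.ag (3 * Real.pi/4) X X' M)^2
      ≤ ∑ n ∈ Finset.range N, 3 * ((En (X' + n) - U Circ.ag (3 * Real.pi/4) (X' + n) M)^2 + (En (X + n) - U Circ.ag (3 * Real.pi/4) (X + n) M)^2 +
        (U Circ.ag (3 * Real.pi/4) (X' + n) M - U Circ.ag (3 * Real.pi/4) (X + n) M - BM Circ.ag (3 * Real.pi/4) X X' M)^2) := by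
        apply Finset.sum_le_sum
        intro n _
        set x := En (X' + n) - U Circ.ag (3 * Real.pi/4) (X' + n) M with hx
        set y := En (X + n) - U Circ.ag (3 * Real.pi/4) (X + n) M with hy
        set z := U Circ.ag (3 * Real.pi/4) (X' + n) M - U Circ.ag (3 * Real.pi/4) (X + n) M - BM Circ.ag (3 * Real.pi/4) X X' M with hz
        have e : En (X' + n) - En (X + n) - BM Circ.ag (3 * Real.pi/4) X X' M = x - y + z := by rw [hx, hy, hz]; ring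
        rw [e]
        nlinarith [sq_nonneg (x + y), sq_nonneg (x - z), sq_nonneg (y + z)]
    _ = 3 * (∑ n ∈ Finset.range N, (En (X' + n) - U Circ.ag (3 * Real.pi/4) (X' + n) M)^2 + ∑ n ∈ Finset.range N, (En (X + n) - U Circ.ag (3 * Real.pi/4) (X + n) M)^2 +
        ∑ n ∈ Finset.range N, (U Circ.ag (3 * Real.pi/4) (X' + n) M - U Circ.ag (3 * Real.pi/4) (X + n) M - BM Circ.ag (3 * Real.pi/4) X X' M)^2) := by
        rw [← Finset.mul_sum, Finset.sum_add_distrib, Finset.sum_add_distrib]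
    _ ≤ _ := by linarith

end Pool.Agent.N48.Ann
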