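import Mathlib
import Pool.Agent.N48.Ann.AN3W

open MeasureTheory Filter Topology
open Pool.Agent.H383 Pool.Agent.H383.AP Pool.Agent.H383.Gauss Pool.Agent.H383.Gen Pool.Agent.H383.GW

namespace Pool.Agent.N48.Ann

/-- lattice points in the annulus `r < |p| ≤ s`, minus its area -/
noncomputable def sur (r s : ℝ) : ℝ :=
  (Nat.card {p : ℤ × ℤ // r ^ 2 < (p.1 : ℝ) ^ 2 + (p.2 : ℝ) ^ 2 ∧ (p.1 : ℝ) ^ 2 + (p.2 : ℝ) ^ 2 ≤ s ^ 2} : ℝ) -
    Real.pi * (s ^ 2 - r ^ 2)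

lemma sur_eq {r s : ℝ} (hr : 0 ≤ r) (hrs : r ≤ s) : sur r s = (F s - Real.pi * s^2) - (F r - Real.pi * r^2) := by
  have hs : 0 ≤ s := hr.trans hrs
  have e1 : Nat.card {p : ℤ × ℤ // r ^ 2 < (p.1 : ℝ) ^ 2 + (p.2 : ℝ) ^ 2 ∧ (p.1 : ℝ) ^ 2 + (p.2 : ℝ) ^ 2 ≤ s ^ 2} =
      (ballS s \ ballS r).card := by
    apply Nat.subtype_card
    intro p
    rw [Finset.mem_sdiff, mem_ballS hs, mem_ballS hr, not_le, and_comm]
  have e2 : ballS r ⊆ ballS s := by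
    intro p hp
    rw [mem_ballS hr] at hp
    rw [mem_ballS hs]
    exact hp.trans (pow_le_pow_left₀ hr hrs 2)
  have e3 := Finset.card_sdiff_add_card_eq_card e2
  have e4 : ((ballS s \ ballS r).card : ℝ) = F s - F r := by
    rw [F_eq_card hs, F_eq_card hr, ← e3]; push_cast; ring
  unfold sur
  rw [e1, e4]
  ring

lemma sqrt_mul_En {r : ℝ} (hr : 0 < r) : √r * En r = F r - Real.pi * r^2 := by
  unfold En
  have : 0 < √r := Real.sqrt_pos.mpr hr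
  field_simp

lemma En_pt : ∃ C : ℝ, 0 < C ∧ ∀ R : ℝ, 4 ≤ R → |En R| ≤ C * R := by
  obtain ⟨C0, hC0, hS⟩ := Circ.En_Sand
  obtain ⟨C2, hC2, hT⟩ := Circ.WS_triv (φ := 3 * Real.pi/4) Circ.ag_Bd Circ.ag_zero Circ.wg_Wt
  refine ⟨C2 * (1/2:ℝ) ^ (-(3/5):ℝ) + C0 * 4, by positivity, ?_⟩
  intro R hR
  have hR1 : 1 ≤ R := by linarith
  have h1 := hS.up R R (1/2) hR (by norm_num) le_rfl (by rw [sub_self, abs_zero]; norm_num)
  have h2 := hS.lo R R (1/2) hR (by norm_num) le_rfl (by rw [sub_self, abs_zero]; norm_num)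
  have t1 := hT (R + 2 * (1/2)) (1/2) (by norm_num)
  have t2 := hT (R + -2 * (1/2)) (1/2) (by norm_num)
  have he : er R (1/2) ≤ 4 * R := by
    unfold er
    have a1 : R ^ (51/100:ℝ) ≤ R := by
      calc R ^ (51/100:ℝ) ≤ R ^ (1:ℝ) := Real.rpow_le_rpow_of_exponent_le hR1 (by norm_num)
        _ = R := Real.rpow_one R
    have a2 : R ^ (-(12/25):ℝ) ≤ 1 := Real.rpow_le_one_of_one_le_of_nonpos hR1 (by norm_num)
    have a3 : (1/2:ℝ) ^ (-(13/25):ℝ) ≤ 2 := by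
      calc (1/2:ℝ) ^ (-(13/25):ℝ) ≤ (1/2:ℝ) ^ (-1:ℝ) := Real.rpow_le_rpow_of_exponent_ge (by norm_num) (by norm_num) (by norm_num)
        _ = 2 := by rw [Real.rpow_neg_one]; norm_num
    have a4 : (1/2:ℝ) ^ (2/5:ℝ) ≤ 1 := Real.rpow_le_one (by norm_num) (by norm_num) (by norm_num)
    have a5 : R ^ (-(12/25):ℝ) * (1/2:ℝ) ^ (-(13/25):ℝ) ≤ 1 * 2 := mul_le_mul a2 a3 (by positivity) (by norm_num)
    linarith
  have hb : 0 ≤ C2 * (1/2:ℝ) ^ (-(3/5):ℝ) := by positivity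
  have hb2 : C2 * (1/2:ℝ) ^ (-(3/5):ℝ) ≤ C2 * (1/2:ℝ) ^ (-(3/5):ℝ) * R := le_mul_of_one_le_right hb hR1
  have he2 : C0 * er R (1/2) ≤ C0 * (4 * R) := mul_le_mul_of_nonneg_left he hC0.le
  obtain ⟨u1, u2⟩ := abs_le.mp t1
  obtain ⟨v1, v2⟩ := abs_le.mp t2
  rw [abs_le]
  constructor
  · nlinarith
  · nlinarith

lemma sqrt_ratio {n s ρ : ℝ} (hn : 0 < n) (hns : n ≤ s) (hs : s ≤ n + ρ) : |√s / √n - 1| ≤ ρ / n := by
  have hsn : 0 < √n := Real.sqrt_pos.mpr hn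
  have hss : 0 < √s := Real.sqrt_pos.mpr (by linarith)
  have h1 : √n ≤ √s := Real.sqrt_le_sqrt hns
  have h2 : √n * √n = n := Real.mul_self_sqrt hn.le
  have h3 : √s * √s = s := Real.mul_self_sqrt (by linarith)
  have e : √s / √n - 1 = (√s - √n) / √n := by field_simp
  rw [e, abs_of_nonneg (div_nonneg (by linarith) hsn.le), div_le_div_iff₀ hsn hn]
  have h4 : (√s - √n) * (√s + √n) ≤ ρ := by nlinarith
  have h5 : (√s - √n) * √n ≤ ρ := by nlinarith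
  nlinarith

lemma sqrt_ratio' {r n ρ : ℝ} (hr : 0 < r) (hrn : r ≤ n) (hs : n ≤ r + ρ) : |1 - √r / √n| ≤ ρ / n := by
  have hn : 0 < n := by linarith
  have hsn : 0 < √n := Real.sqrt_pos.mpr hn
  have hss : 0 < √r := Real.sqrt_pos.mpr hr
  have h1 : √r ≤ √n := Real.sqrt_le_sqrt hrn
  have h2 : √n * √n = n := Real.mul_self_sqrt hn.le
  have h3 : √r * √r = r := Real.mul_self_sqrt hr.le
  have e : 1 - √r / √n = (√n - √r) / √n := by field_simp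
  rw [e, abs_of_nonneg (div_nonneg (by linarith) hsn.le), div_le_div_iff₀ hsn hn]
  have h4 : (√n - √r) * (√n + √r) ≤ ρ := by nlinarith
  have h5 : (√n - √r) * √n ≤ ρ := by nlinarith
  nlinarith

/-- outer annuli: the surplus in terms of the normalised error -/
lemma sur_outer : ∃ C : ℝ, 0 < C ∧ ∀ n ρ : ℝ, 4 ≤ n → 0 ≤ ρ → ρ ≤ 1 → |sur n (n + ρ) / √n - (En (n + ρ) - En n)| ≤ C * ρ := by
  obtain ⟨C, hC, h⟩ := En_pt
  refine ⟨2 * C, by positivity, ?_⟩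
  intro n ρ hn hρ hρ1
  have hn0 : 0 < n := by linarith
  have hsn : 0 < √n := Real.sqrt_pos.mpr hn0
  rw [sur_eq (by linarith) (by linarith), ← sqrt_mul_En (show 0 < n + ρ by linarith), ← sqrt_mul_En hn0]
  have e : (√(n + ρ) * En (n + ρ) - √n * En n) / √n - (En (n + ρ) - En n) = (√(n + ρ) / √n - 1) * En (n + ρ) := by
    field_simp; ring
  rw [e, abs_mul]
  have h1 := sqrt_ratio hn0 (show n ≤ n + ρ by linarith) le_rfl
  have h2 := h (n + ρ) (by linarith)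
  calc |√(n + ρ) / √n - 1| * |En (n + ρ)| ≤ ρ / n * (C * (n + ρ)) := mul_le_mul h1 h2 (abs_nonneg _) (by positivity)
    _ ≤ ρ / n * (C * (2 * n)) := by gcongr; linarith
    _ = 2 * C * ρ := by field_simp

/-- inner annuli -/
lemma sur_inner : ∃ C : ℝ, 0 < C ∧ ∀ n ρ : ℝ, 5 ≤ n → 0 ≤ ρ → ρ ≤ 1 → |sur (n - ρ) n / √n - (En n - En (n - ρ))| ≤ C * ρ := by
  obtain ⟨C, hC, h⟩ := En_pt
  refine ⟨C, by positivity, ?_⟩
  intro n ρ hn hρ hρ1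
  have hn0 : 0 < n := by linarith
  have hsn : 0 < √n := Real.sqrt_pos.mpr hn0
  rw [sur_eq (by linarith) (by linarith), ← sqrt_mul_En (show 0 < n - ρ by linarith), ← sqrt_mul_En hn0]
  have e : (√n * En n - √(n - ρ) * En (n - ρ)) / √n - (En n - En (n - ρ)) = (1 - √(n - ρ) / √n) * En (n - ρ) := by
    field_simp; ring
  rw [e, abs_mul]
  have h1 := sqrt_ratio' (show 0 < n - ρ by linarith) (show n - ρ ≤ n by linarith) (show n ≤ n - ρ + ρ by linarith)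
  have h2 := h (n - ρ) (by linarith)
  calc |1 - √(n - ρ) / √n| * |En (n - ρ)| ≤ ρ / n * (C * (n - ρ)) := mul_le_mul h1 h2 (abs_nonneg _) (by positivity)
    _ ≤ ρ / n * (C * n) := by gcongr; linarith
    _ = C * ρ := by field_simp

lemma sq3 (a b c : ℝ) : (a + b + c)^2 ≤ 3 * (a^2 + b^2 + c^2) := by
  nlinarith [sq_nonneg (a - b), sq_nonneg (a - c), sq_nonneg (b - c)]

lemma log_ge {ρ : ℝ} (hρ : 0 < ρ) (hρ1 : ρ ≤ 1/10) : 1 ≤ Real.log (1/ρ) := by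
  rw [Real.le_log_iff_exp_le (by positivity)]
  have := Real.exp_one_lt_d9
  have h2 : 10 ≤ 1/ρ := by rw [le_div_iff₀ hρ]; linarith
  linarith

/-- the mean squares, for windows away from zero -/
theorem ms_far {ε : ℝ} (hε : 0 < ε) : ∃ c : ℝ, 0 < c ∧ c ≤ 1/16 ∧ ∃ C : ℝ, 0 < C ∧ ∃ N0 : ℕ, ∀ N : ℕ, N0 ≤ N →
    ∀ k : ℕ, 4 ≤ k → ((k:ℝ) + 2) ^ (1/2 + ε) ≤ N → ∀ ρ : ℝ, (N:ℝ) ^ (-c) ≤ ρ → ρ ≤ 1/10 →
    ∑ n ∈ Finset.Ioc k (k + N), (sur n (n + ρ) / √n - lead ρ)^2 ≤ C * (N * (ρ * Real.log (1 / ρ))) ∧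
    ∑ n ∈ Finset.Ioc k (k + N), (sur (n - ρ) n / √n)^2 ≤ C * (N * (ρ * Real.log (1 / ρ))) := by
  obtain ⟨c, hc, hc1, C, hC, N0, h⟩ := diff_msW hε
  obtain ⟨C1, hC1, hB⟩ := BM_asymp
  obtain ⟨C2, hC2, ho⟩ := sur_outer
  obtain ⟨C3, hC3, hi⟩ := sur_inner
  refine ⟨c, hc, hc1, 3 * (2 * C + 2 * C1^2 + C2^2 + C3^2), by positivity, max N0 1, ?_⟩
  intro N hN k hk hkN ρ hρl hρu
  have hNN0 : N0 ≤ N := by omega
  have hN1 : 1 ≤ N := by omega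
  have hN0 : (0:ℝ) < N := by exact_mod_cast hN1
  have hρ0 : 0 < ρ := lt_of_lt_of_le (by positivity) hρl
  have hlog1 := log_ge hρ0 hρu
  have hk' : (4:ℝ) ≤ k := by exact_mod_cast hk
  obtain ⟨M, hM, hh⟩ := h N hNN0 ρ hρl hρu
  have hshift : ∀ f : ℕ → ℝ, ∑ n ∈ Finset.Ioc k (k + N), f n = ∑ n ∈ Finset.range N, f (k + 1 + n) := by
    intro f
    have h2 : Finset.Ioc k (k + N) = Finset.Ico (k + 1) (k + 1 + N) := by
      ext x; simp only [Finset.mem_Ioc, Finset.mem_Ico]; omega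
    rw [h2, Finset.sum_Ico_eq_sum_range, show k + 1 + N - (k + 1) = N by omega]
  set L := Real.log (1/ρ) with hL
  have hρL : ρ * (1 + L) ≤ 2 * (ρ * L) := by nlinarith
  have hρρ : ρ^2 ≤ ρ * L := by nlinarith
  have hpos : 0 ≤ ρ * (1 + L) := by positivity
  constructor
  · rw [hshift]
    have b := (hB ρ hρ0 hρu (k+1) M hM).1
    rw [show (((k+1:ℕ)):ℝ) = (k:ℝ) + 1 by push_cast; ring] at b
    have b2 : (BM Circ.ag (3 * Real.pi/4) ((k:ℝ)+1) ((k:ℝ)+1+ρ) M - lead ρ)^2 ≤ C1^2 * (ρ * (1 + L)) := by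
      rw [← sq_abs]
      calc |BM Circ.ag (3 * Real.pi/4) ((k:ℝ)+1) ((k:ℝ)+1+ρ) M - lead ρ|^2 ≤ (C1 * √(ρ * (1 + L)))^2 := pow_le_pow_left₀ (abs_nonneg _) b 2
        _ = _ := by rw [mul_pow, Real.sq_sqrt hpos]
    have d := hh ((k:ℝ)+1) ((k:ℝ)+1+ρ) (by linarith)
      ((Real.rpow_le_rpow (by linarith) (by linarith) (by positivity)).trans hkN) (by linarith)
      ((Real.rpow_le_rpow (by linarith) (by linarith) (by positivity)).trans hkN) (by rw [add_sub_cancel_left]; exact abs_of_pos hρ0)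
    set B := BM Circ.ag (3 * Real.pi/4) ((k:ℝ)+1) ((k:ℝ)+1+ρ) M with hBB
    calc ∑ n ∈ Finset.range N, (sur ((k + 1 + n : ℕ):ℝ) (((k + 1 + n : ℕ):ℝ) + ρ) / √((k + 1 + n : ℕ):ℝ) - lead ρ)^2
        ≤ ∑ n ∈ Finset.range N, 3 * ((En ((k:ℝ) + 1 + ρ + n) - En ((k:ℝ) + 1 + n) - B)^2 + C1^2 * (ρ * (1 + L)) + C2^2 * ρ^2) := by
          apply Finset.sum_le_sum
          intro n _
          have e0 : ((k + 1 + n : ℕ):ℝ) = (k:ℝ) + 1 + n := by push_cast; ring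
          rw [e0]
          have hn4 : 4 ≤ (k:ℝ) + 1 + n := by
            have : (0:ℝ) ≤ n := Nat.cast_nonneg n
            linarith
          have h3 := ho ((k:ℝ) + 1 + n) ρ hn4 hρ0.le (by linarith)
          have h4 : (sur ((k:ℝ) + 1 + n) ((k:ℝ) + 1 + n + ρ) / √((k:ℝ) + 1 + n) - (En ((k:ℝ) + 1 + n + ρ) - En ((k:ℝ) + 1 + n)))^2 ≤ C2^2 * ρ^2 := by
            rw [← sq_abs, ← mul_pow]
            exact pow_le_pow_left₀ (abs_nonneg _) h3 2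
          rw [show (k:ℝ) + 1 + ρ + n = (k:ℝ) + 1 + n + ρ by ring]
          have e : sur ((k:ℝ) + 1 + n) ((k:ℝ) + 1 + n + ρ) / √((k:ℝ) + 1 + n) - lead ρ =
            (En ((k:ℝ) + 1 + n + ρ) - En ((k:ℝ) + 1 + n) - B) + (B - lead ρ) +
            (sur ((k:ℝ) + 1 + n) ((k:ℝ) + 1 + n + ρ) / √((k:ℝ) + 1 + n) - (En ((k:ℝ) + 1 + n + ρ) - En ((k:ℝ) + 1 + n))) := by ring
          rw [e]
          refine (sq3 _ _ _).trans ?_
          linarith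
      _ = 3 * (∑ n ∈ Finset.range N, (En ((k:ℝ) + 1 + ρ + n) - En ((k:ℝ) + 1 + n) - B)^2 + N * (C1^2 * (ρ * (1 + L))) + N * (C2^2 * ρ^2)) := by
          rw [← Finset.mul_sum, Finset.sum_add_distrib, Finset.sum_add_distrib]
          simp only [Finset.sum_const, Finset.card_range, nsmul_eq_mul]
      _ ≤ 3 * (C * (N * (2 * (ρ * L))) + N * (C1^2 * (2 * (ρ * L))) + N * (C2^2 * (ρ * L))) := by
          have d' : ∑ n ∈ Finset.range N, (En ((k:ℝ) + 1 + ρ + n) - En ((k:ℝ) + 1 + n) - B)^2 ≤ C * (N * (2 * (ρ * L))) :=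
            d.trans (by gcongr)
          gcongr
      _ = 3 * (2 * C + 2 * C1^2 + C2^2) * (N * (ρ * L)) := by ring
      _ ≤ _ := by
          apply mul_le_mul_of_nonneg_right _ (by positivity)
          nlinarith [sq_nonneg C3]
  · rw [hshift]
    have b := (hB ρ hρ0 hρu (k+1) M hM).2
    rw [show (((k+1:ℕ)):ℝ) = (k:ℝ) + 1 by push_cast; ring] at b
    have b2 : (BM Circ.ag (3 * Real.pi/4) ((k:ℝ)+1-ρ) ((k:ℝ)+1) M)^2 ≤ C1^2 * (ρ * (1 + L)) := by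
      rw [← sq_abs]
      calc |BM Circ.ag (3 * Real.pi/4) ((k:ℝ)+1-ρ) ((k:ℝ)+1) M|^2 ≤ (C1 * √(ρ * (1 + L)))^2 := pow_le_pow_left₀ (abs_nonneg _) b 2
        _ = _ := by rw [mul_pow, Real.sq_sqrt hpos]
    have d := hh ((k:ℝ)+1-ρ) ((k:ℝ)+1) (by linarith)
      ((Real.rpow_le_rpow (by linarith) (by linarith) (by positivity)).trans hkN) (by linarith)
      ((Real.rpow_le_rpow (by linarith) (by linarith) (by positivity)).trans hkN) (by rw [sub_sub_cancel]; exact abs_of_pos hρ0)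
    set B := BM Circ.ag (3 * Real.pi/4) ((k:ℝ)+1-ρ) ((k:ℝ)+1) M with hBB
    calc ∑ n ∈ Finset.range N, (sur (((k + 1 + n : ℕ):ℝ) - ρ) ((k + 1 + n : ℕ):ℝ) / √((k + 1 + n : ℕ):ℝ))^2
        ≤ ∑ n ∈ Finset.range N, 3 * ((En ((k:ℝ) + 1 + n) - En ((k:ℝ) + 1 - ρ + n) - B)^2 + C1^2 * (ρ * (1 + L)) + C3^2 * ρ^2) := by
          apply Finset.sum_le_sum
          intro n _
          have e0 : ((k + 1 + n : ℕ):ℝ) = (k:ℝ) + 1 + n := by push_cast; ring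
          rw [e0]
          have hn4 : 5 ≤ (k:ℝ) + 1 + n := by
            have : (0:ℝ) ≤ n := Nat.cast_nonneg n
            linarith
          have h3 := hi ((k:ℝ) + 1 + n) ρ hn4 hρ0.le (by linarith)
          have h4 : (sur ((k:ℝ) + 1 + n - ρ) ((k:ℝ) + 1 + n) / √((k:ℝ) + 1 + n) - (En ((k:ℝ) + 1 + n) - En ((k:ℝ) + 1 + n - ρ)))^2 ≤ C3^2 * ρ^2 := by
            rw [← sq_abs, ← mul_pow]
            exact pow_le_pow_left₀ (abs_nonneg _) h3 2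
          rw [show (k:ℝ) + 1 - ρ + n = (k:ℝ) + 1 + n - ρ by ring]
          have e : sur ((k:ℝ) + 1 + n - ρ) ((k:ℝ) + 1 + n) / √((k:ℝ) + 1 + n) =
            (En ((k:ℝ) + 1 + n) - En ((k:ℝ) + 1 + n - ρ) - B) + B +
            (sur ((k:ℝ) + 1 + n - ρ) ((k:ℝ) + 1 + n) / √((k:ℝ) + 1 + n) - (En ((k:ℝ) + 1 + n) - En ((k:ℝ) + 1 + n - ρ))) := by ring
          rw [e]
          refine (sq3 _ _ _).trans ?_
          linarith
      _ = 3 * (∑ n ∈ Finset.range N, (En ((k:ℝ) + 1 + n) - En ((k:ℝ) + 1 - ρ + n) - B)^2 + N * (C1^2 * (ρ * (1 + L))) + N * (C3^2 * ρ^2)) := by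
          rw [← Finset.mul_sum, Finset.sum_add_distrib, Finset.sum_add_distrib]
          simp only [Finset.sum_const, Finset.card_range, nsmul_eq_mul]
      _ ≤ 3 * (C * (N * (2 * (ρ * L))) + N * (C1^2 * (2 * (ρ * L))) + N * (C3^2 * (ρ * L))) := by
          have d' : ∑ n ∈ Finset.range N, (En ((k:ℝ) + 1 + n) - En ((k:ℝ) + 1 - ρ + n) - B)^2 ≤ C * (N * (2 * (ρ * L))) :=
            d.trans (by gcongr)
          gcongr
      _ = 3 * (2 * C + 2 * C1^2 + C3^2) * (N * (ρ * L)) := by ring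
      _ ≤ _ := by
          apply mul_le_mul_of_nonneg_right _ (by positivity)
          nlinarith [sq_nonneg C2]

lemma win_exp {ε : ℝ} (hε : 0 < ε) : ∃ N0 : ℕ, ∀ N : ℕ, N0 ≤ N → ∀ k : ℕ, (k:ℝ) ^ (1/2 + ε) ≤ N →
    (((max k 4 : ℕ):ℝ) + 2) ^ (1/2 + ε/2) ≤ N := by
  set κ : ℝ := (1/2 + ε/2) / (1/2 + ε) with hκ
  have hκ1 : 0 < 1 - κ := by
    have : κ < 1 := by rw [hκ, div_lt_one (by positivity)]; linarith
    linarith
  obtain ⟨N2, hN2⟩ : ∃ N2 : ℕ, ∀ N : ℕ, N2 ≤ N → (2:ℝ) ^ (1/2 + ε/2) ≤ (N:ℝ) ^ (1 - κ) := by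
    have : Tendsto (fun N : ℕ => (N:ℝ) ^ (1 - κ)) atTop atTop :=
      (tendsto_rpow_atTop hκ1).comp tendsto_natCast_atTop_atTop
    exact (eventually_atTop.mp (this.eventually_ge_atTop _))
  refine ⟨max N2 (⌈(4:ℝ) ^ (1/2 + ε)⌉₊ + 1), ?_⟩
  intro N hN k hk
  have hNN2 : N2 ≤ N := by omega
  have hN4 : ⌈(4:ℝ) ^ (1/2 + ε)⌉₊ ≤ N := by omega
  have hN1 : 1 ≤ N := by omega
  have hN0 : (0:ℝ) < N := by exact_mod_cast hN1
  have h4 : (4:ℝ) ^ (1/2 + ε) ≤ N := (Nat.le_ceil _).trans (by exact_mod_cast hN4)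
  set K := max k 4 with hK
  have hK4 : (4:ℝ) ≤ K := by exact_mod_cast (le_max_right k 4)
  have hKN : (K:ℝ) ^ (1/2 + ε) ≤ N := by
    rcases le_total k 4 with h | h
    · rw [hK, max_eq_right h]; exact_mod_cast h4
    · rw [hK, max_eq_left h]; exact hk
  have h5 : (K:ℝ) ^ (1/2 + ε/2) ≤ (N:ℝ) ^ κ := by
    have h6 : (1/2 + ε/2) = (1/2 + ε) * κ := by rw [hκ]; field_simp
    rw [h6, Real.rpow_mul (by positivity)]
    exact Real.rpow_le_rpow (by positivity) hKN (by positivity)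
  calc ((K:ℝ) + 2) ^ (1/2 + ε/2) ≤ (2 * (K:ℝ)) ^ (1/2 + ε/2) := Real.rpow_le_rpow (by positivity) (by linarith) (by positivity)
    _ = 2 ^ (1/2 + ε/2) * (K:ℝ) ^ (1/2 + ε/2) := Real.mul_rpow (by norm_num) (by positivity)
    _ ≤ (N:ℝ) ^ (1 - κ) * (N:ℝ) ^ κ := mul_le_mul (hN2 N hNN2) h5 (by positivity) (by positivity)
    _ = N := by rw [← Real.rpow_add hN0]; simp

lemma sqrt_log_le {ρ : ℝ} (hρ : 0 < ρ) : √ρ * Real.log (1/ρ) ≤ 2 := by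
  have h1 := Real.log_le_rpow_div (show 0 ≤ 1/ρ by positivity) (show (0:ℝ) < 1/2 by norm_num)
  have h2 : (1/ρ) ^ (1/2:ℝ) = 1/√ρ := by
    rw [← Real.sqrt_eq_rpow, Real.sqrt_div zero_le_one, Real.sqrt_one]
  rw [h2] at h1
  have h3 : 0 < √ρ := Real.sqrt_pos.mpr hρ
  calc √ρ * Real.log (1/ρ) ≤ √ρ * (1/√ρ / (1/2)) := by gcongr
    _ = 2 := by field_simp

/-- the mean squares, in all short windows -/
theorem ms_all {ε : ℝ} (hε : 0 < ε) : ∃ c : ℝ, 0 < c ∧ ∃ C : ℝ, 0 < C ∧ ∃ N0 : ℕ, ∀ N : ℕ, N0 ≤ N →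
    ∀ k : ℕ, (k:ℝ) ^ (1/2 + ε) ≤ N → ∀ ρ : ℝ, (N:ℝ) ^ (-c) ≤ ρ → ρ ≤ 1/10 →
    ∑ n ∈ Finset.Ioc k (k + N), (sur n (n + ρ) / √n - lead ρ)^2 ≤ C * (N * (ρ * Real.log (1 / ρ))) ∧
    ∑ n ∈ Finset.Ioc k (k + N), (sur (n - ρ) n / √n)^2 ≤ C * (N * (ρ * Real.log (1 / ρ))) := by
  obtain ⟨c, hc, hc1, C, hC, N1, h⟩ := ms_far (half_pos hε)
  obtain ⟨N2, hw⟩ := win_exp hε
  have hpi := Real.pi_gt_three
  have hpi2 := Real.pi_lt_d2
  set D : ℝ := F 5 + 100 with hD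
  have hF5 : 0 ≤ F 5 := by unfold F; positivity
  refine ⟨c, hc, C + 4 * D^2, by positivity, max (max N1 N2) 1, ?_⟩
  intro N hN k hk ρ hρl hρu
  have hNN1 : N1 ≤ N := by omega
  have hNN2 : N2 ≤ N := by omega
  have hN1 : 1 ≤ N := by omega
  have hN1' : (1:ℝ) ≤ N := by exact_mod_cast hN1
  have hN0 : (0:ℝ) < N := by exact_mod_cast hN1
  have hρ0 : 0 < ρ := lt_of_lt_of_le (by positivity) hρl
  have hlog1 := log_ge hρ0 hρu
  have hw' := hw N hNN2 k hk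
  obtain ⟨h1, h2⟩ := h N hNN1 (max k 4) (le_max_right _ _) hw' ρ hρl hρu
  have hNρ : 1 ≤ N * (ρ * Real.log (1/ρ)) := by
    have a1 : 1 ≤ N * ρ := by
      calc (1:ℝ) ≤ (N:ℝ) ^ (1 + -c) := Real.one_le_rpow hN1' (by linarith)
        _ = N * (N:ℝ) ^ (-c) := by rw [Real.rpow_add hN0, Real.rpow_one]
        _ ≤ N * ρ := by gcongr
    nlinarith
  have hsub : Finset.Ioc k (k + N) ⊆ Finset.Ioc 0 4 ∪ Finset.Ioc (max k 4) (max k 4 + N) := by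
    intro x hx
    rw [Finset.mem_union, Finset.mem_Ioc, Finset.mem_Ioc]
    rw [Finset.mem_Ioc] at hx
    omega
  -- crude bounds
  have hcr : ∀ r s : ℝ, 0 ≤ r → r ≤ s → s ≤ 5 → |sur r s| ≤ F 5 + 80 := by
    intro r s hr hrs hs
    rw [sur_eq hr hrs]
    have g1 := Circ.F_mono hr hrs
    have g2 := Circ.F_mono (hr.trans hrs) hs
    have g3 : 0 ≤ F r := by unfold F; positivity
    have g4 : r^2 ≤ s^2 := pow_le_pow_left₀ hr hrs 2
    have g5 : s^2 ≤ 25 := by nlinarith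
    have g6 : 0 ≤ r^2 := sq_nonneg r
    have g7 : Real.pi * (s^2 - r^2) ≤ 80 := by nlinarith
    have g8 : 0 ≤ Real.pi * (s^2 - r^2) := mul_nonneg (by linarith) (by linarith)
    rw [abs_le]
    constructor <;> nlinarith
  have hlead : |lead ρ| ≤ 20 := by
    unfold lead
    have q1 := sqrt_log_le hρ0
    have q2 : √2 < 2 := by
      rw [Real.sqrt_lt' (by norm_num)]; norm_num
    have q3 : 8 * √2 / Real.pi ≤ 6 := by
      rw [div_le_iff₀ (by linarith)]; nlinarith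
    have q4 : 0 ≤ √ρ * Real.log (1/ρ) := by positivity
    have q5 : 0 ≤ 8 * √2 / Real.pi := by positivity
    rw [mul_assoc, abs_of_nonneg (mul_nonneg q5 q4)]
    nlinarith
  have hfirst : ∀ f : ℕ → ℝ, (∀ n ∈ Finset.Ioc 0 4, |f n| ≤ D) → ∑ n ∈ Finset.Ioc 0 4, (f n)^2 ≤ 4 * D^2 := by
    intro f hf
    calc ∑ n ∈ Finset.Ioc 0 4, (f n)^2 ≤ ∑ n ∈ Finset.Ioc 0 4, D^2 := by
          apply Finset.sum_le_sum
          intro n hn
          rw [← sq_abs]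
          exact pow_le_pow_left₀ (abs_nonneg _) (hf n hn) 2
      _ = _ := by rw [Finset.sum_const]; simp
  have hfin : ∀ f : ℕ → ℝ, (∀ n ∈ Finset.Ioc 0 4, |f n| ≤ D) →
      ∑ n ∈ Finset.Ioc (max k 4) (max k 4 + N), (f n)^2 ≤ C * (N * (ρ * Real.log (1 / ρ))) →
      ∑ n ∈ Finset.Ioc k (k + N), (f n)^2 ≤ (C + 4 * D^2) * (N * (ρ * Real.log (1 / ρ))) := by
    intro f hf hf2
    calc ∑ n ∈ Finset.Ioc k (k + N), (f n)^2 ≤ ∑ n ∈ Finset.Ioc 0 4 ∪ Finset.Ioc (max k 4) (max k 4 + N), (f n)^2 :=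
          Finset.sum_le_sum_of_subset_of_nonneg hsub (fun _ _ _ => sq_nonneg _)
      _ ≤ ∑ n ∈ Finset.Ioc 0 4, (f n)^2 + ∑ n ∈ Finset.Ioc (max k 4) (max k 4 + N), (f n)^2 := by
          have := Finset.sum_union_inter (s₁ := Finset.Ioc 0 4) (s₂ := Finset.Ioc (max k 4) (max k 4 + N)) (f := fun n => (f n)^2)
          have h0 : 0 ≤ ∑ n ∈ Finset.Ioc 0 4 ∩ Finset.Ioc (max k 4) (max k 4 + N), (f n)^2 := Finset.sum_nonneg (fun _ _ => sq_nonneg _)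
          linarith
      _ ≤ 4 * D^2 + C * (N * (ρ * Real.log (1 / ρ))) := add_le_add (hfirst f hf) hf2
      _ ≤ _ := by nlinarith [sq_nonneg D]
  constructor
  · apply hfin (fun n => sur n (n + ρ) / √n - lead ρ) _ h1
    intro n hn
    rw [Finset.mem_Ioc] at hn
    have hn1 : (1:ℝ) ≤ n := by exact_mod_cast hn.1
    have hn4 : (n:ℝ) ≤ 4 := by exact_mod_cast hn.2
    have hs1 : 1 ≤ √(n:ℝ) := Real.one_le_sqrt.mpr hn1
    have t1 := hcr n (n + ρ) (by linarith) (by linarith) (by linarith)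
    have t2 : |sur n (n + ρ) / √n| ≤ F 5 + 80 := by
      rw [abs_div, abs_of_pos (show 0 < √(n:ℝ) by linarith)]
      exact (div_le_self (abs_nonneg _) hs1).trans t1
    calc |sur n (n + ρ) / √n - lead ρ| ≤ |sur n (n + ρ) / √n| + |lead ρ| := abs_sub _ _
      _ ≤ _ := by rw [hD]; linarith
  · apply hfin (fun n => sur (n - ρ) n / √n) _ h2
    intro n hn
    rw [Finset.mem_Ioc] at hn
    have hn1 : (1:ℝ) ≤ n := by exact_mod_cast hn.1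
    have hn4 : (n:ℝ) ≤ 4 := by exact_mod_cast hn.2
    have hs1 : 1 ≤ √(n:ℝ) := Real.one_le_sqrt.mpr hn1
    have t1 := hcr (n - ρ) n (by linarith) (by linarith) (by linarith)
    rw [abs_div, abs_of_pos (show 0 < √(n:ℝ) by linarith)]
    calc |sur (n - ρ) n| / √(n:ℝ) ≤ |sur (n - ρ) n| := div_le_self (abs_nonneg _) hs1
      _ ≤ _ := by rw [hD]; linarith

end Pool.Agent.N48.Ann
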